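import Pool.Agent.FB.Nmp
import Pool.Agent.H80.FB.Count

set_option autoImplicit false

namespace Pool.Agent.FB

open Finset
open scoped Pointwise

/-- The combinatorial theorem. -/
theorem comb {n J g : ℕ} (hn : 1 ≤ n) (A : Finset (Fin n → ℕ)) (hA : A ⊆ MM n J)
    (hne : A.Nonempty) :
    ∃ v : ℝ, 0 ≤ v ∧ v ≤ 1 ∧ (A.card : ℝ) ≤ v * ((MM n J).card : ℝ) ∧
      2 ^ (n - 1) * (A.card : ℝ) + v * (((MM n (2 * J + g)).card : ℝ) -
        2 ^ (n - 1) * ((MM n J).card : ℝ)) ≤ ((A + A + MM n g).card : ℝ) := by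
  obtain ⟨m, rfl⟩ : ∃ m, n = m + 1 := ⟨n - 1, by omega⟩
  rw [Nat.add_sub_cancel]
  obtain ⟨v, h1, h2, h3, h4⟩ := H80.FB.count g hA hne
  refine ⟨(v : ℝ), by exact_mod_cast h3, by exact_mod_cast h2, ?_, ?_⟩
  · have h1' : (A.card : ℚ) ≤ v * ((MM (m + 1) J).card : ℚ) := h1
    exact_mod_cast h1'
  · have h4' : 2 ^ m * (A.card : ℚ) + v * (((MM (m + 1) (2 * J + g)).card : ℚ) -
        2 ^ m * ((MM (m + 1) J).card : ℚ)) ≤ ((A + A + MM (m + 1) g).card : ℚ) := h4
    exact_mod_cast h4'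

/-- The form used: `U` with `2^(n-1) N(J) ≤ N(2J+g)` or `2^(n-1) ≤ U`. -/
theorem comb_final {n J g U : ℕ} (hn : 1 ≤ n) (A : Finset (Fin n → ℕ)) (hA : A ⊆ MM n J)
    (hne : A.Nonempty)
    (h : 2 ^ (n - 1) * (MM n J).card ≤ (MM n (2 * J + g)).card ∨ 2 ^ (n - 1) ≤ U) :
    min (MM n (2 * J + g)).card (U * (MM n J).card) ≤
      (A + A + MM n g).card + U * ((MM n J).card - A.card) := by
  obtain ⟨v, hv0, hv1, hv, hmain⟩ := comb (g := g) hn A hA hne
  set N : ℕ := (MM n J).card with hN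
  set D : ℕ := (MM n (2 * J + g)).card with hD
  set X : ℕ := (A + A + MM n g).card with hX
  have hcN : A.card ≤ N := Finset.card_le_card hA
  have hNpos : 0 < N := lt_of_lt_of_le (Finset.card_pos.2 hne) hcN
  set c : ℕ := A.card with hc
  have hq : (0 : ℝ) < 2 ^ (n - 1) := by positivity
  have goal : (min D (U * N) : ℝ) ≤ X + U * (N - c) := by
    have hNR : (0 : ℝ) < N := by exact_mod_cast hNpos
    have hcR : (c : ℝ) ≤ N := by exact_mod_cast hcN
    have hc0 : (0 : ℝ) ≤ c := by positivity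
    have hU0 : (0 : ℝ) ≤ U := by positivity
    by_cases hlow : (2 : ℝ) ^ (n - 1) * N ≤ D
    · -- density bound
      have h1 : (c : ℝ) * D ≤ X * N := by
        have h2 : (c : ℝ) * (D - 2 ^ (n - 1) * N) ≤ v * N * (D - 2 ^ (n - 1) * N) :=
          mul_le_mul_of_nonneg_right hv (by linarith)
        have h3 := mul_le_mul_of_nonneg_right hmain hNR.le
        nlinarith
      by_cases hU : (U : ℝ) * N ≤ D
      · refine (min_le_right _ _).trans ?_
        -- U N ≤ X + U (N - c)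
        have h2 : (c : ℝ) * (U * N) ≤ c * D := mul_le_mul_of_nonneg_left hU hc0
        have h3 : (U : ℝ) * c * N ≤ X * N := by nlinarith
        have h4 : (U : ℝ) * c ≤ X := le_of_mul_le_mul_right h3 hNR
        nlinarith
      · refine (min_le_left _ _).trans ?_
        -- D ≤ X + U (N - c)
        push Not at hU
        have h2 : (D : ℝ) * (N - c) ≤ U * N * (N - c) :=
          mul_le_mul_of_nonneg_right hU.le (by linarith)
        have h3 : (D : ℝ) * N ≤ (X + U * (N - c)) * N := by nlinarith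
        exact le_of_mul_le_mul_right h3 hNR
    · push Not at hlow
      have hU : (2 : ℝ) ^ (n - 1) ≤ U := by
        rcases h with h | h
        · exfalso
          have : (2 : ℝ) ^ (n - 1) * N ≤ D := by exact_mod_cast h
          linarith
        · exact_mod_cast h
      refine (min_le_left _ _).trans ?_
      have h1 : (D : ℝ) - 2 ^ (n - 1) * N ≤ v * (D - 2 ^ (n - 1) * N) := by nlinarith
      have h2 : (2 : ℝ) ^ (n - 1) * (N - c) ≤ U * (N - c) :=
        mul_le_mul_of_nonneg_right hU (by linarith)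
      nlinarith
  have hsub : ((N - c : ℕ) : ℝ) = (N : ℝ) - c := by
    rw [Nat.cast_sub hcN]
  have goal2 : (((min D (U * N) : ℕ)) : ℝ) ≤ ((X + U * (N - c) : ℕ) : ℝ) := by
    rw [Nat.cast_min, Nat.cast_add, Nat.cast_mul, Nat.cast_mul, hsub]
    exact goal
  exact_mod_cast goal2

end Pool.Agent.FB
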