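import Pool.Agent.FB.CoreAbs

set_option autoImplicit false

namespace Pool.Agent.FB

open Finset MvPolynomial
open Pool.Agent.H21 (prodSpan)
open Pool.Agent.H21.Low (TT)

variable {F : Type} [Field F] {n : ℕ}

/-- the polynomial with given coefficients -/
noncomputable def ofc (d : ℕ) (c : ↥(TT n d) → F) : MvPolynomial (Fin n) F :=
  ∑ t : ↥(TT n d), monomial t.1 (c t)

lemma coeff_ofc (d : ℕ) (c : ↥(TT n d) → F) (t : ↥(TT n d)) : coeff t.1 (ofc d c) = c t := by
  classical
  unfold ofc
  rw [coeff_sum, sum_eq_single t]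
  · rw [coeff_monomial, if_pos rfl]
  · intro s _ hs
    rw [coeff_monomial, if_neg fun h => hs (Subtype.ext h)]
  · intro h
    exact absurd (mem_univ _) h

lemma mon_mem {d : ℕ} (t : ↥(TT n d)) (c : F) :
    monomial t.1 c ∈ homogeneousSubmodule (Fin n) F d := by
  rw [mem_homogeneousSubmodule]
  apply isHomogeneous_monomial
  rw [Finsupp.degree_eq_sum]
  exact Pool.Agent.H21.Low.mem_TT.mp t.2

lemma ofc_mem (d : ℕ) (c : ↥(TT n d) → F) : ofc d c ∈ homogeneousSubmodule (Fin n) F d := by
  unfold ofc
  exact Submodule.sum_mem _ fun t _ => mon_mem t _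

lemma eq_ofc {d : ℕ} {h : MvPolynomial (Fin n) F} (hh : h ∈ homogeneousSubmodule (Fin n) F d) :
    h = ofc d (fun t => coeff t.1 h) := by
  classical
  ext s
  by_cases hs : s ∈ TT n d
  · exact (coeff_ofc d (fun t => coeff t.1 h) ⟨s, hs⟩).symm
  · have h1 : ∀ p : MvPolynomial (Fin n) F, p ∈ homogeneousSubmodule (Fin n) F d →
        coeff s p = 0 := by
      intro p hp
      apply ((mem_homogeneousSubmodule _ _).mp hp).coeff_eq_zero
      intro h2
      apply hs
      rw [Pool.Agent.H21.Low.mem_TT, ← Finsupp.degree_eq_sum]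
      exact h2
    rw [h1 h hh, h1 _ (ofc_mem d _)]

lemma finrank_TT (d : ℕ) :
    Fintype.card ↥(TT n d) = Module.finrank F (homogeneousSubmodule (Fin n) F d) := by
  rw [Fintype.card_coe, Pool.Agent.H21.Low.card_TT (K := F)]

noncomputable def ofcL (d : ℕ) : (↥(TT n d) → F) →ₗ[F] MvPolynomial (Fin n) F where
  toFun := ofc d
  map_add' := fun x y => by
    simp only [ofc, Pi.add_apply, map_add, sum_add_distrib]
  map_smul' := fun c x => by
    simp only [ofc, Pi.smul_apply, smul_eq_mul, RingHom.id_apply, smul_sum, smul_monomial]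

lemma count_le {X P : Type} [AddCommGroup X] [Module F X] [FiniteDimensional F X]
    [AddCommGroup P] [Module F P] {U : ℕ} (Kd : Submodule F P) [FiniteDimensional F Kd]
    (ψ : Fin U → X →ₗ[F] P) (h : ∀ i x, ψ i x ∈ Kd)
    (hinj : ∀ x, (∀ i, ψ i x = 0) → x = 0) :
    Module.finrank F X ≤ U * Module.finrank F Kd := by
  let Ψ : X →ₗ[F] (Fin U → Kd) := LinearMap.pi fun i => LinearMap.codRestrict Kd (ψ i) (h i)
  have h1 : Function.Injective Ψ := by
    refine (injective_iff_map_eq_zero Ψ).mpr ?_
    intro x hx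
    apply hinj
    intro i
    exact congrArg Subtype.val (congrFun hx i)
  have h2 := LinearMap.finrank_le_finrank_of_injective h1
  rw [Module.finrank_pi_fintype] at h2
  simpa using h2

/-- The kernel of the counting map. -/
lemma ker_count {Y Z : Type} [AddCommGroup Y] [Module F Y] [FiniteDimensional F Y]
    [AddCommGroup Z] [Module F Z] {d U : ℕ} (Kd : Submodule F (MvPolynomial (Fin n) F))
    [FiniteDimensional F Kd] (Θ : ((Fin U × ↥(TT n d)) → F) × Y →ₗ[F] Z)
    (h1 : ∀ x, Θ x = 0 → ∀ i, ofc d (fun t => x.1 (i, t)) ∈ Kd)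
    (h2 : ∀ y, Θ (0, y) = 0 → y = 0) :
    Module.finrank F (LinearMap.ker Θ) ≤ U * Module.finrank F Kd := by
  let ψ : Fin U → LinearMap.ker Θ →ₗ[F] MvPolynomial (Fin n) F := fun i =>
    { toFun := fun x => ofcL d (fun t => x.1.1 (i, t))
      map_add' := fun x y => by
        rw [← map_add]
        rfl
      map_smul' := fun c x => by
        rw [RingHom.id_apply, ← map_smul]
        rfl }
  apply count_le Kd ψ
  · intro i x
    exact h1 x.1 (LinearMap.mem_ker.mp x.2) i
  · intro x hx
    apply Subtype.ext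
    have h3 : x.1.1 = 0 := by
      funext v
      have h4 := congrArg (fun y : MvPolynomial (Fin n) F => coeff v.2.1 y) (hx v.1)
      have h5 := coeff_ofc d (fun t => x.1.1 (v.1, t)) v.2
      exact h5.symm.trans (h4.trans (coeff_zero _))
    have h6 : Θ (0, x.1.2) = 0 := by
      rw [← h3]
      exact LinearMap.mem_ker.mp x.2
    exact Prod.ext h3 (h2 _ h6)

/-- The relation argument: in a relation of generic forms every coefficient, multiplied by any form
of degree `d`, lies in the space generated. -/
lemma relation_mem [Algebra ℚ F] {d U J : ℕ}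
    (D : Fin U × ↥(TT n d) → Derivation ℚ F F)
    (f : Fin U → MvPolynomial (Fin n) F)
    (hD : ∀ v i, dm (D v) (f i) = if i = v.1 then monomial v.2.1 1 else 0)
    (g : Fin U → homogeneousSubmodule (Fin n) F J) (hg : ∑ i, (g i).1 * f i = 0)
    (i : Fin U) (h : MvPolynomial (Fin n) F) (hh : h ∈ homogeneousSubmodule (Fin n) F d) :
    (g i).1 * h ∈ prodSpan J (Submodule.span F (Set.range f)) := by
  classical
  set W := prodSpan J (Submodule.span F (Set.range f)) with hW
  have hfm : ∀ j, f j ∈ Submodule.span F (Set.range f) := fun j => Submodule.subset_span ⟨j, rfl⟩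
  have key : ∀ t : ↥(TT n d), (g i).1 * monomial t.1 1 ∈ W := by
    intro t
    have h1 := congrArg (dm (D (i, t))) hg
    rw [dm_zero, dm_sum] at h1
    simp only [dm_mul] at h1
    rw [sum_add_distrib] at h1
    have h2 : ∑ j, (g j).1 * dm (D (i, t)) (f j) = (g i).1 * monomial t.1 1 := by
      rw [sum_eq_single i]
      · rw [hD, if_pos rfl]
      · intro j _ hj
        rw [hD, if_neg hj, mul_zero]
      · intro h
        exact absurd (mem_univ _) h
    rw [h2] at h1
    have h3 : (g i).1 * monomial t.1 1 = - ∑ j, dm (D (i, t)) (g j).1 * f j := by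
      rw [eq_neg_iff_add_eq_zero, add_comm]
      exact h1
    rw [h3]
    apply Submodule.neg_mem
    apply Submodule.sum_mem
    intro j _
    exact Pool.Agent.H21.mul_mem_prodSpan (dm_homog _ (g j).2) (hfm j)
  rw [eq_ofc hh]
  unfold ofc
  rw [mul_sum]
  apply Submodule.sum_mem
  intro t _
  have h4 : (monomial t.1 (coeff t.1 h) : MvPolynomial (Fin n) F) =
      (coeff t.1 h) • monomial t.1 1 := by
    rw [smul_monomial, smul_eq_mul, mul_one]
  rw [h4, mul_smul_comm]
  exact Submodule.smul_mem _ _ (key t)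

/-- The tangent space count, for an abstract field with derivations. -/
theorem core_abs [Algebra ℚ F] [Infinite F] {d U J : ℕ} (hJ : J ≤ d)
    (D : Fin U × ↥(TT n d) → Derivation ℚ F F)
    (f : Fin U → MvPolynomial (Fin n) F)
    (hf : ∀ i, f i ∈ homogeneousSubmodule (Fin n) F d)
    (hD : ∀ v i, dm (D v) (f i) = if i = v.1 then monomial v.2.1 1 else 0)
    (h1 : Module.finrank F (prodSpan J (Submodule.span F (Set.range f))) <
      U * Module.finrank F (homogeneousSubmodule (Fin n) F J)) :
    ∃ K Kd Q : Submodule F (MvPolynomial (Fin n) F),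
      K ≤ homogeneousSubmodule (Fin n) F J ∧ Kd ≤ homogeneousSubmodule (Fin n) F d ∧
      Q ≤ homogeneousSubmodule (Fin n) F (J + d) ∧ K ≠ ⊥ ∧
      (∀ k ∈ K, ∀ s ∈ homogeneousSubmodule (Fin n) F (d - J), k * s ∈ Kd) ∧
      (∀ k ∈ K, ∀ h ∈ Kd, k * h ∈ Q) ∧
      Module.finrank F (homogeneousSubmodule (Fin n) F J) + Module.finrank F Kd =
        Module.finrank F (homogeneousSubmodule (Fin n) F d) + Module.finrank F K ∧
      Module.finrank F Q +
        U * (Module.finrank F (homogeneousSubmodule (Fin n) F J) - Module.finrank F K) ≤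
        Module.finrank F (prodSpan J (Submodule.span F (Set.range f))) := by
  classical
  set W := prodSpan J (Submodule.span F (Set.range f)) with hW
  have hspan : Submodule.span F (Set.range f) ≤ homogeneousSubmodule (Fin n) F d := by
    rw [Submodule.span_le]
    rintro _ ⟨i, rfl⟩
    exact hf i
  have hWle : W ≤ homogeneousSubmodule (Fin n) F (J + d) := Pool.Agent.H21.prodSpan_le hspan
  have hfW : FiniteDimensional F W := Submodule.finiteDimensional_of_le hWle
  have hfm : ∀ j, f j ∈ Submodule.span F (Set.range f) := fun j => Submodule.subset_span ⟨j, rfl⟩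
  set EJ := homogeneousSubmodule (Fin n) F J with hEJ
  set Ed := homogeneousSubmodule (Fin n) F d with hEd
  -- a relation
  obtain ⟨g, hg0, hgrel⟩ : ∃ g : Fin U → EJ, g ≠ 0 ∧
      ∑ i, (g i).1 * f i = 0 := by
    let Ξ : (Fin U → EJ) →ₗ[F] W :=
      { toFun := fun h => ⟨∑ i, (h i).1 * f i, Submodule.sum_mem _ fun i _ =>
          Pool.Agent.H21.mul_mem_prodSpan (h i).2 (hfm i)⟩
        map_add' := fun h h' => by
          apply Subtype.ext
          simp only [Pi.add_apply, Submodule.coe_add, add_mul, sum_add_distrib]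
        map_smul' := fun c h => by
          apply Subtype.ext
          simp only [Pi.smul_apply, Submodule.coe_smul, smul_mul_assoc, smul_sum,
            RingHom.id_apply] }
    have h2 : LinearMap.ker Ξ ≠ ⊥ := by
      apply LinearMap.ker_ne_bot_of_finrank_lt
      rw [Module.finrank_pi_fintype]
      simpa using h1
    obtain ⟨g, hg, hg0⟩ := Submodule.exists_mem_ne_zero_of_ne_bot h2
    exact ⟨g, hg0, congrArg Subtype.val (LinearMap.mem_ker.mp hg)⟩
  obtain ⟨i₀, hi₀⟩ : ∃ i, g i ≠ 0 := by
    by_contra h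
    push Not at h
    exact hg0 (funext h)
  -- a functional of maximal rank
  obtain ⟨a, haW, hamax⟩ : ∃ a ∈ perp (J + d) W, ∀ a' ∈ perp (J + d) W,
      Module.finrank F (LinearMap.range (BF J d a')) ≤
        Module.finrank F (LinearMap.range (BF J d a)) := by
    let S : Set ℕ := {r | ∃ a ∈ perp (J + d) W,
      Module.finrank F (LinearMap.range (BF J d a)) = r}
    have hne : S.Nonempty := ⟨_, 0, (perp (J + d) W).zero_mem, rfl⟩
    have hbd : BddAbove S := by
      refine ⟨Module.finrank F (homogeneousSubmodule (Fin n) F J), ?_⟩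
      rintro r ⟨a, _, rfl⟩
      exact LinearMap.finrank_range_le _
    obtain ⟨a, ha, har⟩ := Nat.sSup_mem hne hbd
    refine ⟨a, ha, fun a' ha' => ?_⟩
    rw [har]
    exact le_csSup hbd ⟨a', ha', rfl⟩
  set K := (LinearMap.ker (BF J d a)).map EJ.subtype with hK
  set Kd := (LinearMap.ker (BF J d a).flip).map Ed.subtype with hKd
  have hKle : K ≤ EJ := Submodule.map_subtype_le _ _
  have hKdle : Kd ≤ Ed := Submodule.map_subtype_le _ _
  have hfK : FiniteDimensional F K := Submodule.finiteDimensional_of_le hKle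
  have hfKd : FiniteDimensional F Kd := Submodule.finiteDimensional_of_le hKdle
  have memK : ∀ k : MvPolynomial (Fin n) F, k ∈ K ↔
      k ∈ EJ ∧ ∀ h ∈ Ed, PR F n (J + d) a (k * h) = 0 := by
    intro k
    rw [hK, Submodule.mem_map]
    constructor
    · rintro ⟨k', hk', rfl⟩
      refine ⟨k'.2, fun h hh => ?_⟩
      have := congrArg (fun φ : Ed →ₗ[F] F => φ ⟨h, hh⟩) (LinearMap.mem_ker.mp hk')
      exact this
    · rintro ⟨hk, h2⟩
      refine ⟨⟨k, hk⟩, ?_, rfl⟩
      rw [LinearMap.mem_ker]
      ext h
      exact h2 h.1 h.2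
  have memKd : ∀ h : MvPolynomial (Fin n) F, h ∈ Kd ↔
      h ∈ Ed ∧ ∀ k ∈ EJ, PR F n (J + d) a (k * h) = 0 := by
    intro h
    rw [hKd, Submodule.mem_map]
    constructor
    · rintro ⟨h', hh', rfl⟩
      refine ⟨h'.2, fun k hk => ?_⟩
      have := congrArg (fun φ : EJ →ₗ[F] F => φ ⟨k, hk⟩) (LinearMap.mem_ker.mp hh')
      exact this
    · rintro ⟨hh, h2⟩
      refine ⟨⟨h, hh⟩, ?_, rfl⟩
      rw [LinearMap.mem_ker]
      ext k
      exact h2 k.1 k.2
  set Q := Submodule.span F (Set.image2 (· * ·) (K : Set (MvPolynomial (Fin n) F))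
    (Kd : Set (MvPolynomial (Fin n) F))) with hQ
  have hQle : Q ≤ homogeneousSubmodule (Fin n) F (J + d) := by
    rw [hQ, Submodule.span_le]
    rintro _ ⟨k, hk, h, hh, rfl⟩
    exact ((mem_homogeneousSubmodule _ _).mp (hKle hk)).mul
      ((mem_homogeneousSubmodule _ _).mp (hKdle hh))
  have hfQ : FiniteDimensional F Q := Submodule.finiteDimensional_of_le hQle
  -- products of K and forms of degree d - J
  have hKs : ∀ k ∈ K, ∀ s ∈ homogeneousSubmodule (Fin n) F (d - J), k * s ∈ Kd := by
    intro k' hk' s hs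
    rw [memKd]
    obtain ⟨h2, h3⟩ := (memK k').mp hk'
    constructor
    · rw [hEd, mem_homogeneousSubmodule]
      have h4 := ((mem_homogeneousSubmodule _ _).mp h2).mul ((mem_homogeneousSubmodule _ _).mp hs)
      rwa [Nat.add_sub_cancel' hJ] at h4
    · intro m hm
      have h4 : m * (k' * s) = k' * (m * s) := by ring
      rw [h4]
      apply h3
      rw [hEd, mem_homogeneousSubmodule]
      have h5 := ((mem_homogeneousSubmodule _ _).mp hm).mul ((mem_homogeneousSubmodule _ _).mp hs)
      rwa [Nat.add_sub_cancel' hJ] at h5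
  -- the relation gives an element of K
  have hKne : K ≠ ⊥ := by
    intro h
    apply hi₀
    apply Subtype.ext
    have h2 : (g i₀).1 ∈ K := by
      rw [memK]
      exact ⟨(g i₀).2, fun h hh => haW _ (relation_mem D f hD g hgrel i₀ h hh)⟩
    rw [h, Submodule.mem_bot] at h2
    exact h2
  -- the orthogonal space of W lies in that of Q
  have hWQ : perp (J + d) W ≤ perp (J + d) Q := by
    intro b hb p hp
    have h2 : ∀ k : EJ, BF J d a k = 0 → BF J d b k ∈ LinearMap.range (BF J d a) := by
      intro k hk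
      apply pert _ _ _ k hk
      intro t
      rw [← BF_add]
      exact hamax _ (Submodule.add_mem _ haW (Submodule.smul_mem _ _ hb))
    refine Submodule.span_induction ?_ ?_ ?_ ?_ hp
    · rintro _ ⟨k, hk, h, hh, rfl⟩
      obtain ⟨hk1, hk2⟩ := (memK k).mp hk
      obtain ⟨hh1, hh2⟩ := (memKd h).mp hh
      obtain ⟨m, hm⟩ := h2 ⟨k, hk1⟩ (by
        ext h'
        exact hk2 h'.1 h'.2)
      have h3 := congrArg (fun φ : Ed →ₗ[F] F => φ ⟨h, hh1⟩) hm
      exact h3.symm.trans (hh2 m.1 m.2)
    · rw [map_zero]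
    · intro x y _ _ hx hy
      rw [map_add, hx, hy, add_zero]
    · intro c x _ hx
      rw [map_smul, hx, smul_zero]
  -- the derivatives of the functional
  have hDa : ∀ v, (fun t => D v (a t)) ∈ perp (J + d) Q := by
    intro v p hp
    refine Submodule.span_induction ?_ ?_ ?_ ?_ hp
    · rintro _ ⟨k, hk, h, hh, rfl⟩
      obtain ⟨hk1, hk2⟩ := (memK k).mp hk
      obtain ⟨hh1, hh2⟩ := (memKd h).mp hh
      have h3 := PR_dm (D v) a (k * h)
      rw [hk2 h hh1, map_zero, dm_mul, map_add, hh2 _ (dm_homog _ hk1), hk2 _ (dm_homog _ hh1),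
        add_zero, add_zero] at h3
      exact h3.symm
    · rw [map_zero]
    · intro x y _ _ hx hy
      rw [map_add, hx, hy, add_zero]
    · intro c x _ hx
      rw [map_smul, hx, smul_zero]
  -- the count
  let Θ : ((Fin U × ↥(TT n d)) → F) × perp (J + d) W →ₗ[F] perp (J + d) Q :=
    { toFun := fun x => ⟨∑ v, x.1 v • (fun t => D v (a t)) + x.2.1,
        Submodule.add_mem _ (Submodule.sum_mem _ fun v _ => Submodule.smul_mem _ _ (hDa v))
          (hWQ x.2.2)⟩
      map_add' := fun x y => by
        apply Subtype.ext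
        simp only [Prod.fst_add, Prod.snd_add, Pi.add_apply, add_smul, sum_add_distrib,
          Submodule.coe_add]
        abel
      map_smul' := fun c x => by
        apply Subtype.ext
        simp only [Prod.smul_fst, Prod.smul_snd, Pi.smul_apply, smul_eq_mul, Submodule.coe_smul,
          RingHom.id_apply, smul_add, smul_sum, mul_smul] }
  have hker : ∀ x, Θ x = 0 → ∀ i, ofc d (fun t => x.1 (i, t)) ∈ Kd := by
    intro x hx i
    rw [memKd]
    refine ⟨ofc_mem d _, fun k hk => ?_⟩
    have h2 : ∑ v, x.1 v • (fun t => D v (a t)) + x.2.1 = 0 := congrArg Subtype.val hx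
    have hkf : k * f i ∈ W := Pool.Agent.H21.mul_mem_prodSpan hk (hfm i)
    have h3 := congrArg (fun b => PR F n (J + d) b (k * f i)) h2
    simp only [map_add, map_sum, map_smul, LinearMap.add_apply, LinearMap.sum_apply,
      LinearMap.smul_apply, map_zero, LinearMap.zero_apply] at h3
    rw [x.2.2 _ hkf, add_zero] at h3
    have h4 : ∀ v, PR F n (J + d) (fun t => D v (a t)) (k * f i) =
        - PR F n (J + d) a (k * if i = v.1 then monomial v.2.1 1 else 0) := by
      intro v
      have h5 := PR_dm (D v) a (k * f i)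
      rw [haW _ hkf, map_zero, dm_mul, map_add,
        haW _ (Pool.Agent.H21.mul_mem_prodSpan (dm_homog _ hk) (hfm i)), zero_add, hD] at h5
      rw [eq_neg_iff_add_eq_zero]
      exact h5.symm
    simp only [h4, smul_eq_mul, mul_neg, sum_neg_distrib, neg_eq_zero] at h3
    rw [Fintype.sum_prod_type] at h3
    rw [sum_eq_single i] at h3
    · unfold ofc
      rw [mul_sum, map_sum, ← h3]
      refine sum_congr rfl fun t _ => ?_
      rw [if_pos rfl]
      have h6 : (monomial t.1 (x.1 (i, t)) : MvPolynomial (Fin n) F) =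
          (x.1 (i, t)) • monomial t.1 1 := by
        rw [smul_monomial, smul_eq_mul, mul_one]
      rw [h6, mul_smul_comm, map_smul, smul_eq_mul]
    · intro j _ hj
      apply sum_eq_zero
      intro t _
      rw [if_neg (fun h => hj h.symm), mul_zero, map_zero, mul_zero]
    · intro h
      exact absurd (mem_univ _) h
  have hcount : Module.finrank F (LinearMap.ker Θ) ≤ U * Module.finrank F Kd := by
    apply ker_count Kd Θ hker
    intro y hy
    have h3 : ∑ v, (0 : (Fin U × ↥(TT n d)) → F) v • (fun t => D v (a t)) + y.1 = 0 :=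
      congrArg Subtype.val hy
    apply Subtype.ext
    simpa using h3
  have hdom : Module.finrank F (((Fin U × ↥(TT n d)) → F) × perp (J + d) W) =
      U * Module.finrank F Ed + Module.finrank F (perp (J + d) W) := by
    rw [Module.finrank_prod, Module.finrank_fintype_fun_eq_card, Fintype.card_prod,
      Fintype.card_fin, finrank_TT (F := F)]
  have hrn := LinearMap.finrank_range_add_finrank_ker Θ
  have hrT := Submodule.finrank_le (LinearMap.range Θ)
  have hpW := finrank_perp hWle
  have hpQ := finrank_perp hQle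
  have hkk : Module.finrank F EJ + Module.finrank F (LinearMap.ker (BF J d a).flip) =
      Module.finrank F Ed + Module.finrank F (LinearMap.ker (BF J d a)) :=
    finrank_kernels (BF J d a)
  have hK' : Module.finrank F K = Module.finrank F (LinearMap.ker (BF J d a)) :=
    ((Submodule.equivMapOfInjective _ (Submodule.injective_subtype _) _).finrank_eq).symm
  have hKd' : Module.finrank F Kd = Module.finrank F (LinearMap.ker (BF J d a).flip) :=
    ((Submodule.equivMapOfInjective _ (Submodule.injective_subtype _) _).finrank_eq).symm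
  have hKdd : Module.finrank F Kd ≤ Module.finrank F Ed := Submodule.finrank_mono hKdle
  refine ⟨K, Kd, Q, hKle, hKdle, hQle, hKne, hKs,
    fun k hk h hh => Submodule.subset_span ⟨k, hk, h, hh, rfl⟩, by omega, ?_⟩
  rw [hdom] at hrn
  have h2 : Module.finrank F EJ - Module.finrank F K = Module.finrank F Ed - Module.finrank F Kd := by
    omega
  rw [h2, Nat.mul_sub]
  have h3 : U * Module.finrank F Kd ≤ U * Module.finrank F Ed := Nat.mul_le_mul_left _ hKdd
  omega

end Pool.Agent.FB
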