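import Pool.Agent.FB.Der
import Pool.Agent.FB.CoreMain

set_option autoImplicit false

namespace Pool.Agent.FB

open Finset MvPolynomial
open Pool.Agent.H21 (prodSpan)
open Pool.Agent.H21.Low (TT)

/-- the coefficient variables of `U` forms of degree `d` -/
abbrev CV (n d U : ℕ) : Type := Fin U × ↥(TT n d)

/-- the field of rational functions in the coefficients -/
abbrev FF (n d U : ℕ) : Type := FractionRing (MvPolynomial (CV n d U) ℚ)

/-- the generic forms with polynomial coefficients -/
noncomputable def gen0 (n d U : ℕ) (i : Fin U) : MvPolynomial (Fin n) (MvPolynomial (CV n d U) ℚ) :=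
  ∑ t : ↥(TT n d), monomial t.1 (X (i, t))

/-- the generic forms -/
noncomputable def gen (n d U : ℕ) (i : Fin U) : MvPolynomial (Fin n) (FF n d U) :=
  MvPolynomial.map (algebraMap (MvPolynomial (CV n d U) ℚ) (FF n d U)) (gen0 n d U i)

/-- the space generated by the generic forms in degree `J + d` -/
noncomputable def genW (n d U J : ℕ) : Submodule (FF n d U) (MvPolynomial (Fin n) (FF n d U)) :=
  prodSpan J (Submodule.span (FF n d U) (Set.range (gen n d U)))

/-- the coefficients of the generic forms -/
lemma gen_eq (n d U : ℕ) (i : Fin U) :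
    gen n d U i = ofc d (fun t => algebraMap (MvPolynomial (CV n d U) ℚ) (FF n d U) (X (i, t))) := by
  unfold gen gen0 ofc
  rw [map_sum]
  exact sum_congr rfl fun t _ => map_monomial _ _ _

lemma dm_ofc {F : Type} [Field F] [Algebra ℚ F] {n d : ℕ} (D : Derivation ℚ F F)
    (c : ↥(TT n d) → F) : dm D (ofc d c) = ofc d (fun t => D (c t)) := by
  classical
  unfold ofc
  rw [dm_sum]
  refine sum_congr rfl fun t _ => ?_
  ext s
  rw [coeff_dm, coeff_monomial, coeff_monomial]
  split_ifs
  · rfl
  · exact map_zero _

instance (n d U : ℕ) : Infinite (FF n d U) :=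
  Infinite.of_injective _ (algebraMap ℚ (FF n d U)).injective

/-- The tangent space count, strong form: both kernels. -/
theorem core2 {n d U J : ℕ} (hJ : J ≤ d)
    (h1 : Module.finrank (FF n d U) (genW n d U J) <
      U * Module.finrank (FF n d U) (homogeneousSubmodule (Fin n) (FF n d U) J)) :
    ∃ K Kd Q : Submodule (FF n d U) (MvPolynomial (Fin n) (FF n d U)),
      K ≤ homogeneousSubmodule (Fin n) (FF n d U) J ∧
      Kd ≤ homogeneousSubmodule (Fin n) (FF n d U) d ∧
      Q ≤ homogeneousSubmodule (Fin n) (FF n d U) (J + d) ∧ K ≠ ⊥ ∧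
      (∀ k ∈ K, ∀ s ∈ homogeneousSubmodule (Fin n) (FF n d U) (d - J), k * s ∈ Kd) ∧
      (∀ k ∈ K, ∀ h ∈ Kd, k * h ∈ Q) ∧
      Module.finrank (FF n d U) (homogeneousSubmodule (Fin n) (FF n d U) J) +
        Module.finrank (FF n d U) Kd =
        Module.finrank (FF n d U) (homogeneousSubmodule (Fin n) (FF n d U) d) +
        Module.finrank (FF n d U) K ∧
      Module.finrank (FF n d U) Q +
        U * (Module.finrank (FF n d U) (homogeneousSubmodule (Fin n) (FF n d U) J) -
          Module.finrank (FF n d U) K) ≤ Module.finrank (FF n d U) (genW n d U J) := by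
  classical
  have hD := fun v : CV n d U => exists_der_aux (K := FF n d U) v
  choose D hD using hD
  apply core_abs hJ D (gen n d U)
  · intro i
    rw [gen_eq]
    exact ofc_mem d _
  · intro v i
    rw [gen_eq, dm_ofc]
    simp only [hD]
    unfold ofc
    by_cases hi : i = v.1
    · rw [if_pos hi, sum_eq_single v.2]
      · show monomial v.2.1 (if v = (i, v.2) then (1 : FF n d U) else 0) = _
        rw [hi, if_pos rfl]
      · intro t _ ht
        show monomial t.1 (if v = (i, t) then (1 : FF n d U) else 0) = _
        rw [if_neg, monomial_zero]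
        intro h
        exact ht (congrArg Prod.snd h).symm
      · intro h
        exact absurd (mem_univ _) h
    · rw [if_neg hi]
      apply sum_eq_zero
      intro t _
      show monomial t.1 (if v = (i, t) then (1 : FF n d U) else 0) = _
      rw [if_neg, monomial_zero]
      intro h
      exact hi (congrArg Prod.fst h).symm
  · exact h1

/-- The tangent space count. -/
theorem core {n d U J : ℕ} (hJ : J ≤ d)
    (h1 : Module.finrank (FF n d U) (genW n d U J) <
      U * Module.finrank (FF n d U) (homogeneousSubmodule (Fin n) (FF n d U) J)) :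
    ∃ K Q : Submodule (FF n d U) (MvPolynomial (Fin n) (FF n d U)),
      K ≤ homogeneousSubmodule (Fin n) (FF n d U) J ∧
      Q ≤ homogeneousSubmodule (Fin n) (FF n d U) (J + d) ∧ K ≠ ⊥ ∧
      (∀ k ∈ K, ∀ k' ∈ K, ∀ s ∈ homogeneousSubmodule (Fin n) (FF n d U) (d - J),
        k * k' * s ∈ Q) ∧
      Module.finrank (FF n d U) Q +
        U * (Module.finrank (FF n d U) (homogeneousSubmodule (Fin n) (FF n d U) J) -
          Module.finrank (FF n d U) K) ≤ Module.finrank (FF n d U) (genW n d U J) := by
  obtain ⟨K, Kd, Q, hK, _, hQ, hne, h2, h3, _, h4⟩ := core2 hJ h1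
  refine ⟨K, Q, hK, hQ, hne, fun k hk k' hk' s hs => ?_, h4⟩
  rw [mul_assoc]
  exact h3 k hk _ (h2 k' hk' s hs)

end Pool.Agent.FB
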