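import Pool.Agent.FB.Pert
import Pool.Agent.H21.LowLead
import Pool.Agent.H21.Poly

set_option autoImplicit false

namespace Pool.Agent.FB

open Finset MvPolynomial
open Pool.Agent.H21 (prodSpan)
open Pool.Agent.H21.Low (TT)

section Pair

variable {F : Type} [Field F] {n : ℕ}

/-- the pairing of coefficient vectors of degree `D` with polynomials -/
noncomputable def PR (F : Type) [Field F] (n D : ℕ) :
    (↥(TT n D) → F) →ₗ[F] MvPolynomial (Fin n) F →ₗ[F] F :=
  LinearMap.mk₂ F (fun a p => ∑ t : ↥(TT n D), a t * coeff t.1 p)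
    (fun a a' p => by simp [add_mul, sum_add_distrib])
    (fun c a p => by simp [mul_sum, mul_assoc])
    (fun a p p' => by simp [mul_add, sum_add_distrib])
    (fun c a p => by
      simp only [coeff_smul, smul_eq_mul, mul_sum]
      exact sum_congr rfl fun t _ => by ring)

lemma PR_apply {D : ℕ} (a : ↥(TT n D) → F) (p : MvPolynomial (Fin n) F) :
    PR F n D a p = ∑ t : ↥(TT n D), a t * coeff t.1 p := rfl

/-- the orthogonal space -/
noncomputable def perp (D : ℕ) (W : Submodule F (MvPolynomial (Fin n) F)) :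
    Submodule F (↥(TT n D) → F) where
  carrier := {a | ∀ p ∈ W, PR F n D a p = 0}
  add_mem' := by
    intro a b ha hb p hp
    rw [map_add, LinearMap.add_apply, ha p hp, hb p hp, add_zero]
  zero_mem' := by
    intro p _
    rw [map_zero, LinearMap.zero_apply]
  smul_mem' := by
    intro c a ha p hp
    rw [map_smul, LinearMap.smul_apply, ha p hp, smul_zero]

lemma mem_perp {D : ℕ} {W : Submodule F (MvPolynomial (Fin n) F)} {a : ↥(TT n D) → F} :
    a ∈ perp D W ↔ ∀ p ∈ W, PR F n D a p = 0 := Iff.rfl

lemma eq_zero_of_PR {D : ℕ} {p : MvPolynomial (Fin n) F} (hp : p.IsHomogeneous D)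
    (h : ∀ a : ↥(TT n D) → F, PR F n D a p = 0) : p = 0 := by
  classical
  ext t
  rw [coeff_zero]
  by_contra hne
  have h1 : t ∈ TT n D := by
    rw [Pool.Agent.H21.Low.mem_TT, ← Finsupp.degree_eq_sum]
    by_contra h2
    exact hne (hp.coeff_eq_zero h2)
  have h2 := h (Pi.single ⟨t, h1⟩ 1)
  rw [PR_apply, sum_eq_single ⟨t, h1⟩] at h2
  · rw [Pi.single_eq_same, one_mul] at h2
    exact hne h2
  · intro b _ hb
    rw [Pi.single_eq_of_ne hb, zero_mul]
  · intro h3
    exact absurd (mem_univ _) h3

lemma finrank_perp {D : ℕ} {W : Submodule F (MvPolynomial (Fin n) F)}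
    (hW : W ≤ homogeneousSubmodule (Fin n) F D) :
    Module.finrank F (perp D W) + Module.finrank F W =
      Module.finrank F (homogeneousSubmodule (Fin n) F D) := by
  have hfW : FiniteDimensional F W := Submodule.finiteDimensional_of_le hW
  let B : (↥(TT n D) → F) →ₗ[F] W →ₗ[F] F :=
    { toFun := fun a => (PR F n D a).comp W.subtype
      map_add' := fun a b => by rw [map_add, LinearMap.add_comp]
      map_smul' := fun c a => by rw [map_smul, LinearMap.smul_comp, RingHom.id_apply] }
  have h1 := finrank_kernels B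
  have h2 : LinearMap.ker B = perp D W := by
    ext a
    rw [LinearMap.mem_ker, mem_perp]
    constructor
    · intro h p hp
      exact congrArg (fun φ : W →ₗ[F] F => φ ⟨p, hp⟩) h
    · intro h
      ext p
      exact h p.1 p.2
  have h3 : LinearMap.ker B.flip = ⊥ := by
    rw [LinearMap.ker_eq_bot']
    intro p hp
    apply Subtype.ext
    apply eq_zero_of_PR ((mem_homogeneousSubmodule _ _).mp (hW p.2))
    intro a
    exact congrArg (fun φ : (↥(TT n D) → F) →ₗ[F] F => φ a) hp
  rw [h2, h3, finrank_bot, Module.finrank_fintype_fun_eq_card, Fintype.card_coe,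
    Pool.Agent.H21.Low.card_TT (K := F)] at h1
  omega

/-- the bilinear form of a coefficient vector -/
noncomputable def BF (J d : ℕ) (a : ↥(TT n (J + d)) → F) :
    homogeneousSubmodule (Fin n) F J →ₗ[F] homogeneousSubmodule (Fin n) F d →ₗ[F] F :=
  LinearMap.mk₂ F (fun g h => PR F n (J + d) a (g.1 * h.1))
    (fun g g' h => by rw [Submodule.coe_add, add_mul, map_add])
    (fun c g h => by rw [Submodule.coe_smul, smul_mul_assoc, map_smul])
    (fun g h h' => by rw [Submodule.coe_add, mul_add, map_add])
    (fun c g h => by rw [Submodule.coe_smul, mul_smul_comm, map_smul])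

lemma BF_apply {J d : ℕ} (a : ↥(TT n (J + d)) → F) (g : homogeneousSubmodule (Fin n) F J)
    (h : homogeneousSubmodule (Fin n) F d) :
    BF J d a g h = PR F n (J + d) a (g.1 * h.1) := rfl

lemma BF_add {J d : ℕ} (a b : ↥(TT n (J + d)) → F) (t : F) :
    BF J d (a + t • b) = BF J d a + t • BF J d b := by
  ext g h
  rw [BF_apply, map_add, map_smul, LinearMap.add_apply, LinearMap.smul_apply,
    LinearMap.add_apply, LinearMap.add_apply, LinearMap.smul_apply, LinearMap.smul_apply,
    BF_apply, BF_apply]

end Pair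

section Deriv

variable {F : Type} [Field F] [Algebra ℚ F] {n : ℕ}

/-- a derivation applied to the coefficients -/
noncomputable def dm (D : Derivation ℚ F F) (p : MvPolynomial (Fin n) F) :
    MvPolynomial (Fin n) F := ∑ t ∈ p.support, monomial t (D (coeff t p))

lemma coeff_dm (D : Derivation ℚ F F) (p : MvPolynomial (Fin n) F) (t : Fin n →₀ ℕ) :
    coeff t (dm D p) = D (coeff t p) := by
  classical
  unfold dm
  rw [coeff_sum]
  simp only [coeff_monomial]
  rw [sum_ite_eq' p.support t]
  by_cases h : t ∈ p.support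
  · rw [if_pos h]
  · rw [if_neg h, notMem_support_iff.mp h, map_zero]

lemma dm_zero (D : Derivation ℚ F F) : dm D (0 : MvPolynomial (Fin n) F) = 0 := by
  ext t
  rw [coeff_dm, coeff_zero, map_zero]

lemma dm_add (D : Derivation ℚ F F) (p q : MvPolynomial (Fin n) F) :
    dm D (p + q) = dm D p + dm D q := by
  ext t
  rw [coeff_dm, coeff_add, map_add, coeff_add, coeff_dm, coeff_dm]

lemma dm_sum {ι : Type} (D : Derivation ℚ F F) (s : Finset ι)
    (p : ι → MvPolynomial (Fin n) F) : dm D (∑ i ∈ s, p i) = ∑ i ∈ s, dm D (p i) := by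
  classical
  induction s using Finset.induction_on with
  | empty => rw [sum_empty, sum_empty, dm_zero]
  | insert i s hi ih => rw [sum_insert hi, sum_insert hi, dm_add, ih]

lemma dm_mul (D : Derivation ℚ F F) (p q : MvPolynomial (Fin n) F) :
    dm D (p * q) = dm D p * q + p * dm D q := by
  classical
  ext t
  rw [coeff_dm, coeff_mul, coeff_add, coeff_mul, coeff_mul, map_sum, ← sum_add_distrib]
  refine sum_congr rfl fun x _ => ?_
  rw [Derivation.leibniz, coeff_dm, coeff_dm, smul_eq_mul, smul_eq_mul]
  ring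

lemma dm_monomial (D : Derivation ℚ F F) (t : Fin n →₀ ℕ) (c : F) :
    dm D (monomial t c) = monomial t (D c) := by
  classical
  ext s
  rw [coeff_dm, coeff_monomial, coeff_monomial]
  split_ifs
  · rfl
  · rw [map_zero]

lemma dm_homog (D : Derivation ℚ F F) {p : MvPolynomial (Fin n) F} {e : ℕ}
    (hp : p ∈ homogeneousSubmodule (Fin n) F e) : dm D p ∈ homogeneousSubmodule (Fin n) F e := by
  rw [mem_homogeneousSubmodule] at hp ⊢
  intro t ht
  rw [coeff_dm] at ht
  apply hp
  intro h
  rw [h, map_zero] at ht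
  exact ht rfl

lemma PR_dm {D' : ℕ} (D : Derivation ℚ F F) (a : ↥(TT n D') → F) (p : MvPolynomial (Fin n) F) :
    D (PR F n D' a p) = PR F n D' (fun t => D (a t)) p + PR F n D' a (dm D p) := by
  rw [PR_apply, PR_apply, PR_apply, map_sum, ← sum_add_distrib]
  refine sum_congr rfl fun t _ => ?_
  rw [Derivation.leibniz, coeff_dm, smul_eq_mul, smul_eq_mul]
  ring

end Deriv

end Pool.Agent.FB
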