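import Mathlib

/-!
Exponent vectors, stable sets of exponent vectors, parity classes.
(Part of the proof that Fröberg's conjecture holds for `2 ^ (n-1)` and more forms.)
-/

set_option autoImplicit false

namespace Pool.Agent.FB

open Finset

/-- the exponent vectors of degree `e` in `n` variables -/
def MM (n e : ℕ) : Finset (Fin n → ℕ) := Finset.piAntidiag Finset.univ e

lemma mem_MM {n e : ℕ} {a : Fin n → ℕ} : a ∈ MM n e ↔ ∑ i, a i = e := by
  unfold MM
  rw [Finset.mem_piAntidiag]
  constructor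
  · exact fun h => h.1
  · exact fun h => ⟨h, fun i _ => Finset.mem_univ i⟩

/-- Stable: one unit of a variable can be moved to any later variable. -/
def Stable {n : ℕ} (A : Finset (Fin n → ℕ)) : Prop :=
  ∀ a ∈ A, ∀ p q : Fin n, p < q → 1 ≤ a p →
    (fun i => if i = p then a i - 1 else if i = q then a i + 1 else a i) ∈ A

/-- the elements with first exponent `t`, first exponent removed -/
def slc {q : ℕ} (A : Finset (Fin (q + 1) → ℕ)) (t : ℕ) : Finset (Fin q → ℕ) :=
  (A.filter (fun a => a 0 = t)).image Fin.tail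

lemma mem_slc {q : ℕ} {A : Finset (Fin (q + 1) → ℕ)} {t : ℕ} {b : Fin q → ℕ} :
    b ∈ slc A t ↔ (Fin.cons t b : Fin (q + 1) → ℕ) ∈ A := by
  unfold slc
  rw [mem_image]
  constructor
  · rintro ⟨a, ha, rfl⟩
    obtain ⟨h1, h2⟩ := mem_filter.mp ha
    rw [← h2, Fin.cons_self_tail]
    exact h1
  · intro h
    exact ⟨_, mem_filter.mpr ⟨h, Fin.cons_zero _ _⟩, Fin.tail_cons _ _⟩

/-- the parity class of the subset `r` of the variables -/
def cls {n : ℕ} (r : Finset (Fin n)) (X : Finset (Fin n → ℕ)) : Finset (Fin n → ℕ) :=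
  X.filter (fun x => ∀ i, x i % 2 = if i ∈ r then 1 else 0)

lemma mem_cls {n : ℕ} {r : Finset (Fin n)} {X : Finset (Fin n → ℕ)} {x : Fin n → ℕ} :
    x ∈ cls r X ↔ x ∈ X ∧ ∀ i, x i % 2 = if i ∈ r then 1 else 0 := by
  unfold cls
  rw [mem_filter]

end Pool.Agent.FB
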