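import Mathlib

set_option autoImplicit false

namespace Pool.Agent.FB

open MvPolynomial

/-- a `ℚ`-algebra section of the dual numbers over a field gives a derivation -/
private noncomputable def derOf {K : Type} [Field K] [Algebra ℚ K] (g : K →ₐ[ℚ] TrivSqZeroExt K K)
    (hg : ∀ x, (g x).fst = x) : Derivation ℚ K K :=
  Derivation.mk'
    ({ toFun := fun x => (g x).snd
       map_add' := fun x y => by rw [map_add, TrivSqZeroExt.snd_add]
       map_smul' := fun c x => by rw [map_smul, TrivSqZeroExt.snd_smul]; rfl } : K →ₗ[ℚ] K)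
    (fun x y => by
      show (g (x * y)).snd = x • (g y).snd + y • (g x).snd
      rw [map_mul, TrivSqZeroExt.snd_mul, hg, hg]
      simp [mul_comm])

private lemma exists_lift {P K : Type} [CommRing P] [IsDomain P] [Algebra ℚ P] [Field K] [Algebra ℚ K]
    [Algebra P K] [IsScalarTower ℚ P K] [IsFractionRing P K] (f : P →ₐ[ℚ] TrivSqZeroExt K K)
    (hf : ∀ p, (f p).fst = algebraMap P K p) :
    ∃ g : K →ₐ[ℚ] TrivSqZeroExt K K, (∀ x, (g x).fst = x) ∧ ∀ p, g (algebraMap P K p) = f p := by
  have hu : ∀ y : nonZeroDivisors P, IsUnit (f y) := by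
    intro y
    rw [TrivSqZeroExt.isUnit_iff_isUnit_fst, hf]
    exact isUnit_iff_ne_zero.2 (by
      have h := nonZeroDivisors.coe_ne_zero y
      intro h0
      exact h ((IsFractionRing.injective P K) (by rw [h0, map_zero])))
  let g : K →ₐ[ℚ] TrivSqZeroExt K K := IsLocalization.liftAlgHom (M := nonZeroDivisors P) (f := f) hu
  have hg : ∀ p, g (algebraMap P K p) = f p := by
    intro p
    exact IsLocalization.lift_eq (M := nonZeroDivisors P) (g := (f : P →+* TrivSqZeroExt K K)) hu p
  refine ⟨g, ?_, hg⟩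
  intro x
  obtain ⟨a, b, hb, rfl⟩ := IsFractionRing.div_surjective (A := P) x
  have hb0 : algebraMap P K b ≠ 0 := by
    intro h0
    exact (nonZeroDivisors.ne_zero hb) ((IsFractionRing.injective P K) (by rw [h0, map_zero]))
  have h1 : (g (algebraMap P K a / algebraMap P K b)).fst * algebraMap P K b = algebraMap P K a := by
    have h2 : g (algebraMap P K a / algebraMap P K b) * g (algebraMap P K b) = g (algebraMap P K a) := by
      rw [← map_mul, div_mul_cancel₀ _ hb0]
    have h3 := congrArg TrivSqZeroExt.fst h2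
    rw [TrivSqZeroExt.fst_mul, hg, hg, hf, hf] at h3
    exact h3
  exact eq_div_of_mul_eq hb0 h1

lemma exists_der_aux {ι : Type} [DecidableEq ι] {K : Type} [Field K] [Algebra ℚ K]
    [Algebra (MvPolynomial ι ℚ) K] [IsScalarTower ℚ (MvPolynomial ι ℚ) K]
    [IsFractionRing (MvPolynomial ι ℚ) K] (i : ι) :
    ∃ D : Derivation ℚ K K, ∀ j, D (algebraMap (MvPolynomial ι ℚ) K (X j)) = if i = j then 1 else 0 := by
  let f : MvPolynomial ι ℚ →ₐ[ℚ] TrivSqZeroExt K K := MvPolynomial.aeval (fun j =>
    TrivSqZeroExt.inl (algebraMap (MvPolynomial ι ℚ) K (X j)) + TrivSqZeroExt.inr (if i = j then 1 else 0))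
  have hf : ∀ p, (f p).fst = algebraMap (MvPolynomial ι ℚ) K p := by
    intro p
    have h : (TrivSqZeroExt.fstHom ℚ K K).comp f = IsScalarTower.toAlgHom ℚ (MvPolynomial ι ℚ) K := by
      apply MvPolynomial.algHom_ext
      intro j
      by_cases hij : i = j <;> simp [f, hij]
    exact DFunLike.congr_fun h p
  obtain ⟨g, h1, h2⟩ := exists_lift f hf
  refine ⟨derOf g h1, fun j => ?_⟩
  show (g (algebraMap (MvPolynomial ι ℚ) K (X j))).snd = _
  rw [h2]
  by_cases hij : i = j <;> simp [f, hij]

private lemma der_any {ι : Type} [DecidableEq ι] {K : Type} [Field K] [Algebra ℚ K]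
    [Algebra (MvPolynomial ι ℚ) K] [IsScalarTower ℚ (MvPolynomial ι ℚ) K]
    [IsFractionRing (MvPolynomial ι ℚ) K] (m : Module ℚ K) (i : ι) :
    ∃ D : @Derivation ℚ K K _ _ _ _ _ m,
      ∀ j, D (algebraMap (MvPolynomial ι ℚ) K (X j)) = if i = j then 1 else 0 := by
  have h : m = Algebra.toModule := Subsingleton.elim _ _
  subst h
  exact exists_der_aux i

/-- The partial derivatives extend to the field of rational functions. (One way: the ring
homomorphism `p ↦ p + ε ∂_i p` into the dual numbers `DualNumber F` / `TrivSqZeroExt F F` sends nonzero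
polynomials to units (`TrivSqZeroExt.isUnit_iff_isUnit_fst`), so it extends to `FractionRing`
(`IsLocalization.lift`); its second component is the derivation.) -/
theorem exists_der (ι : Type) [DecidableEq ι] :
    ∃ D : ι → Derivation ℚ (FractionRing (MvPolynomial ι ℚ)) (FractionRing (MvPolynomial ι ℚ)),
      ∀ i j, D i (algebraMap (MvPolynomial ι ℚ) (FractionRing (MvPolynomial ι ℚ)) (X j)) =
        if i = j then 1 else 0 := by
  have key := fun i : ι => der_any (K := FractionRing (MvPolynomial ι ℚ)) inferInstance i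
  exact ⟨fun i => (key i).choose, fun i => (key i).choose_spec⟩

end Pool.Agent.FB
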