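import Pool.Agent.FB.Defs
import Pool.Agent.H21.LowLead

set_option autoImplicit false

namespace Pool.Agent.FB

open Finset MvPolynomial
open scoped Pointwise

open Pool.Agent.H21.Low (TT mem_TT card_TT LM mo finrank_le_of_LM card_le_finrank_of_LM LM_mem_TT)

/-- finitely supported functions as functions -/
def cf (n : ℕ) : (Fin n →₀ ℕ) →+ (Fin n → ℕ) where
  toFun t := t
  map_zero' := rfl
  map_add' _ _ := rfl

lemma cf_inj (n : ℕ) : Function.Injective (cf n) := fun _ _ h => DFunLike.coe_injective h

lemma MM_eq_image (n e : ℕ) : MM n e = (TT n e).image (cf n) := by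
  ext a
  rw [mem_MM, mem_image]
  constructor
  · intro h
    refine ⟨Finsupp.equivFunOnFinite.symm a, ?_, rfl⟩
    rw [mem_TT]
    exact h
  · rintro ⟨t, ht, rfl⟩
    exact mem_TT.mp ht

/-- `|MM n e| = dim S_e` -/
theorem card_MM_finrank (F : Type) [Field F] (n e : ℕ) :
    (MM n e).card = Module.finrank F (homogeneousSubmodule (Fin n) F e) := by
  rw [← card_TT (K := F), MM_eq_image, card_image_of_injective _ (cf_inj n)]

/-- Leading monomials: if `Q` contains all products `k k' s`, `k, k' ∈ K`, `s` a form of degree `g`,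
then `dim Q ≥ |2A + M_g|` for the set `A` of leading monomials of `K`, `|A| = dim K`
(`Pool.Agent.H21.Low.LM`, `finrank_le_of_LM`, `card_le_finrank_of_LM`, `MonomialOrder.degree_mul`). -/
theorem finrank_Q_ge {F : Type} [Field F] {n J g : ℕ} (K Q : Submodule F (MvPolynomial (Fin n) F))
    (hK : K ≤ homogeneousSubmodule (Fin n) F J)
    (hQ : Q ≤ homogeneousSubmodule (Fin n) F (2 * J + g))
    (hKQ : ∀ k ∈ K, ∀ k' ∈ K, ∀ s ∈ homogeneousSubmodule (Fin n) F g, k * k' * s ∈ Q) :
    ∃ A : Finset (Fin n → ℕ), A ⊆ MM n J ∧ A.card = Module.finrank F K ∧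
      (A + A + MM n g).card ≤ Module.finrank F Q := by
  classical
  have hfK : FiniteDimensional F K := Submodule.finiteDimensional_of_le hK
  have hfQ : FiniteDimensional F Q := Submodule.finiteDimensional_of_le hQ
  set B : Finset (Fin n →₀ ℕ) := (TT n J).filter (fun t => t ∈ LM K) with hB
  have hBK : B.card = Module.finrank F K := by
    apply le_antisymm
    · exact card_le_finrank_of_LM K B fun t ht => (mem_filter.mp ht).2
    · exact finrank_le_of_LM K B fun t ht => mem_filter.mpr ⟨LM_mem_TT hK ht, ht⟩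
  refine ⟨B.image (cf n), ?_, ?_, ?_⟩
  · rw [MM_eq_image]
    exact image_subset_image (filter_subset _ _)
  · rw [card_image_of_injective _ (cf_inj n), hBK]
  · have h1 : B.image (cf n) + B.image (cf n) + MM n g = (B + B + TT n g).image (cf n) := by
      rw [MM_eq_image, image_add, image_add]
    rw [h1, card_image_of_injective _ (cf_inj n)]
    apply card_le_finrank_of_LM Q
    intro t ht
    obtain ⟨ab, hab, c, hc, rfl⟩ := mem_add.mp ht
    obtain ⟨a, ha, b, hb, rfl⟩ := mem_add.mp hab
    obtain ⟨w, hw, hw0, rfl⟩ := (mem_filter.mp ha).2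
    obtain ⟨w', hw', hw0', rfl⟩ := (mem_filter.mp hb).2
    have hm0 : (monomial c (1 : F) : MvPolynomial (Fin n) F) ≠ 0 := by
      rw [Ne, monomial_eq_zero]
      exact one_ne_zero
    refine ⟨w * w' * monomial c 1, hKQ w hw w' hw' _ ?_, mul_ne_zero (mul_ne_zero hw0 hw0') hm0, ?_⟩
    · rw [mem_homogeneousSubmodule]
      apply isHomogeneous_monomial
      rw [Finsupp.degree_eq_sum]
      exact mem_TT.mp hc
    · rw [MonomialOrder.degree_mul (mul_ne_zero hw0 hw0') hm0, MonomialOrder.degree_mul hw0 hw0',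
        MonomialOrder.degree_monomial, if_neg one_ne_zero]

end Pool.Agent.FB
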