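import Mathlib

set_option autoImplicit false

namespace Pool.Agent.FB

private lemma choose_prod (m J : ℕ) :
    m.factorial * (m + J).choose m = ∏ i ∈ Finset.range m, (J + (i + 1)) := by
  have h := Nat.ascFactorial_eq_factorial_mul_choose J m
  rw [Nat.ascFactorial_eq_prod_range, Nat.add_comm J m] at h
  rw [← h]
  exact Finset.prod_congr rfl fun i _ => by ring

private lemma pair_le {a g s t : ℕ} (hs : s ≤ 2 * g) (ht : t ≤ s) :
    (a + 2 * t) * (a + 2 * (s - t)) ≤ (a + g + t) * (a + g + (s - t)) := by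
  obtain ⟨u, rfl⟩ := Nat.exists_eq_add_of_le ht
  rw [Nat.add_sub_cancel_left]
  zify
  have h1 : (t : ℤ) + u ≤ 2 * g := by exact_mod_cast hs
  have ha : (0 : ℤ) ≤ a := Int.natCast_nonneg a
  have hg : (0 : ℤ) ≤ g := Int.natCast_nonneg g
  have ht0 : (0 : ℤ) ≤ t := Int.natCast_nonneg t
  have hu0 : (0 : ℤ) ≤ u := Int.natCast_nonneg u
  nlinarith [mul_nonneg ha (sub_nonneg.2 h1), mul_nonneg (add_nonneg ht0 hu0) (sub_nonneg.2 h1),
    mul_nonneg hg (sub_nonneg.2 h1), sq_nonneg ((t : ℤ) - u)]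

/-- `n ≤ 2 g`: `2^(n-1) dim S_J ≤ dim S_{2J+g}`. With `m = n - 1` the inequality is
`∏_{t=1}^m (2J + 2t) ≤ ∏_{t=1}^m (2J + g + t)`; its square follows by pairing `t` with `m + 1 - t`:
`(2J+2t)(2J+2(m+1-t)) ≤ (2J+g+t)(2J+g+m+1-t)`. -/
theorem num_half {n J g : ℕ} (hn : 1 ≤ n) (h : n ≤ 2 * g) :
    2 ^ (n - 1) * (n - 1 + J).choose (n - 1) ≤ (n - 1 + (2 * J + g)).choose (n - 1) := by
  obtain ⟨m, rfl⟩ : ∃ m, n = m + 1 := ⟨n - 1, by omega⟩
  rw [Nat.add_sub_cancel]
  refine Nat.le_of_mul_le_mul_left ?_ (Nat.factorial_pos m)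
  rw [choose_prod, Nat.mul_left_comm, choose_prod]
  set P := ∏ i ∈ Finset.range m, (2 * J + 2 * (i + 1)) with hP
  have hP1 : 2 ^ m * ∏ i ∈ Finset.range m, (J + (i + 1)) = P := by
    rw [hP, ← Finset.card_range m, ← Finset.prod_const, Finset.card_range,
      ← Finset.prod_mul_distrib]
    exact Finset.prod_congr rfl fun i _ => by ring
  set Q := ∏ i ∈ Finset.range m, (2 * J + g + (i + 1)) with hQ
  rw [hP1]
  refine Nat.mul_self_le_mul_self_iff.1 ?_
  have e1 : P * P = ∏ i ∈ Finset.range m,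
      ((2 * J + 2 * (i + 1)) * (2 * J + 2 * ((m + 1) - (i + 1)))) := by
    rw [Finset.prod_mul_distrib]
    congr 1
    rw [hP, ← Finset.prod_range_reflect]
    refine Finset.prod_congr rfl fun i hi => ?_
    rw [Finset.mem_range] at hi
    congr 2
    omega
  have e2 : Q * Q = ∏ i ∈ Finset.range m,
      ((2 * J + g + (i + 1)) * (2 * J + g + ((m + 1) - (i + 1)))) := by
    rw [Finset.prod_mul_distrib]
    congr 1
    rw [hQ, ← Finset.prod_range_reflect]
    refine Finset.prod_congr rfl fun i hi => ?_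
    rw [Finset.mem_range] at hi
    congr 1
    omega
  rw [e1, e2]
  refine Finset.prod_le_prod' fun i hi => ?_
  rw [Finset.mem_range] at hi
  exact pair_le h (by omega)

private lemma choose_step (m e : ℕ) :
    (m + 1) * (m + 1 + e).choose (m + 1) = (m + e).choose m * (m + 1 + e) := by
  have h := Nat.add_one_mul_choose_eq (m + e) m
  have e1 : m + 1 + e = m + e + 1 := by ring
  rw [e1]
  linarith

private lemma top_aux (J : ℕ) (m : ℕ) :
    (m + 2 + (2 * J + 1)).choose (m + 2) < 2 ^ (m + 2) * (m + 2 + J).choose (m + 2) := by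
  induction m with
  | zero =>
    have h1 := choose_step 1 (2 * J + 1)
    have h2 := choose_step 1 J
    have h3 := choose_step 0 (2 * J + 1)
    have h4 := choose_step 0 J
    simp only [Nat.zero_add, Nat.choose_zero_right, Nat.choose_one_right] at *
    norm_num at h1 h2 ⊢
    nlinarith
  | succ m ih =>
    have h1 := choose_step (m + 2) (2 * J + 1)
    have h2 := choose_step (m + 2) J
    have h5 : 0 < (m + 2 + J).choose (m + 2) := Nat.choose_pos (by omega)
    refine Nat.lt_of_mul_lt_mul_left (a := m + 2 + 1) ?_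
    rw [show m + 1 + 2 = m + 2 + 1 by ring, h1, Nat.mul_left_comm, h2]
    have h6 : (m + 2 + (2 * J + 1)).choose (m + 2) * (m + 2 + 1 + (2 * J + 1)) <
        2 ^ (m + 2) * (m + 2 + J).choose (m + 2) * (m + 2 + 1 + (2 * J + 1)) :=
      Nat.mul_lt_mul_of_pos_right ih (by omega)
    refine h6.trans_le ?_
    have h7 : m + 2 + 1 + (2 * J + 1) ≤ 2 * (m + 2 + 1 + J) := by omega
    calc 2 ^ (m + 2) * (m + 2 + J).choose (m + 2) * (m + 2 + 1 + (2 * J + 1))
        ≤ 2 ^ (m + 2) * (m + 2 + J).choose (m + 2) * (2 * (m + 2 + 1 + J)) :=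
          Nat.mul_le_mul_left _ h7
      _ = 2 ^ (m + 2 + 1) * ((m + 2 + J).choose (m + 2) * (m + 2 + 1 + J)) := by ring

/-- `g = 1`: `dim S_{2J+1} < 2^(n-1) dim S_J` for `n ≥ 3` (induction on `n`, with
`n * (n + e).choose n = (n - 1 + e).choose (n - 1) * (n + e)`). -/
theorem num_top {n J : ℕ} (hn : 3 ≤ n) :
    (n - 1 + (2 * J + 1)).choose (n - 1) < 2 ^ (n - 1) * (n - 1 + J).choose (n - 1) := by
  obtain ⟨m, rfl⟩ : ∃ m, n = m + 3 := ⟨n - 3, by omega⟩
  exact top_aux J m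

end Pool.Agent.FB
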