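import Mathlib

set_option autoImplicit false

namespace Pool.Agent.FB

open MvPolynomial

/-- Specialisation of the coefficients does not lower the rank at a suitable rational point.
(Take `κ' ⊆ κ` with `map (u k)`, `k ∈ κ'`, a basis of the span over `F = FractionRing`; the matrix
`M` of coefficients (rows `κ'`, columns a finite set `T` of monomials) has independent rows, so there
is `N` with `M N = 1` over `F`; clearing denominators `M N' = δ • 1` with `N'` polynomial and
`δ ≠ 0` a polynomial; choose `e` with `eval e δ ≠ 0` (`MvPolynomial.funext`, ℚ infinite); then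
`M(e) N'(e) = δ(e) • 1`, so the rows of `M(e)` are independent over `ℚ`.) -/
theorem spec {σ κ ι : Type} [Finite κ] (u : κ → MvPolynomial σ (MvPolynomial ι ℚ)) :
    ∃ e : ι → ℚ,
      Module.finrank (FractionRing (MvPolynomial ι ℚ))
        (Submodule.span (FractionRing (MvPolynomial ι ℚ)) (Set.range fun k =>
          MvPolynomial.map (algebraMap (MvPolynomial ι ℚ) (FractionRing (MvPolynomial ι ℚ)))
            (u k))) ≤
      Module.finrank ℚ (Submodule.span ℚ (Set.range fun k =>
          MvPolynomial.map (MvPolynomial.eval e) (u k))) := by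
  classical
  obtain ⟨κ', a, ha, hspan, hli⟩ := exists_linearIndependent' (FractionRing (MvPolynomial ι ℚ))
    (fun k => MvPolynomial.map
      (algebraMap (MvPolynomial ι ℚ) (FractionRing (MvPolynomial ι ℚ))) (u k))
  haveI : Finite κ' := Finite.of_injective a ha
  haveI := Fintype.ofFinite κ'
  -- a left inverse
  obtain ⟨L, hL⟩ := LinearMap.exists_leftInverse_of_injective
    (Finsupp.linearCombination (FractionRing (MvPolynomial ι ℚ))
      ((fun k => MvPolynomial.map
        (algebraMap (MvPolynomial ι ℚ) (FractionRing (MvPolynomial ι ℚ))) (u k)) ∘ a))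
    (LinearMap.ker_eq_bot.mpr hli)
  -- monomials which occur
  set T : Finset (σ →₀ ℕ) := Finset.univ.biUnion (fun k : κ' => (u (a k)).support) with hT
  -- entries of the left inverse
  let N : (σ →₀ ℕ) → κ' → FractionRing (MvPolynomial ι ℚ) := fun t l => L (monomial t 1) l
  have hMN : ∀ k l : κ', ∑ t ∈ T,
      algebraMap (MvPolynomial ι ℚ) (FractionRing (MvPolynomial ι ℚ)) (coeff t (u (a k))) * N t l
        = if k = l then 1 else 0 := by
    intro k l
    have h1 : L (MvPolynomial.map (algebraMap (MvPolynomial ι ℚ)
        (FractionRing (MvPolynomial ι ℚ))) (u (a k))) = Finsupp.single k 1 := by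
      have := LinearMap.congr_fun hL (Finsupp.single k 1)
      simpa using this
    have h2 : MvPolynomial.map (algebraMap (MvPolynomial ι ℚ)
        (FractionRing (MvPolynomial ι ℚ))) (u (a k)) = ∑ t ∈ T,
        (algebraMap (MvPolynomial ι ℚ) (FractionRing (MvPolynomial ι ℚ)) (coeff t (u (a k)))) •
          (monomial t (1 : FractionRing (MvPolynomial ι ℚ))) := by
      have h3 : u (a k) = ∑ t ∈ T, monomial t (coeff t (u (a k))) := by
        have h4 := (u (a k)).support_sum_monomial_coeff
        have h5 : ∑ t ∈ T, monomial t (coeff t (u (a k)))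
            = ∑ t ∈ (u (a k)).support, monomial t (coeff t (u (a k))) := by
          symm
          apply Finset.sum_subset
          · intro t ht
            rw [hT, Finset.mem_biUnion]
            exact ⟨k, Finset.mem_univ _, ht⟩
          · intro t _ ht
            rw [notMem_support_iff] at ht
            rw [ht, map_zero]
        rw [h5, h4]
      conv_lhs => rw [h3]
      rw [map_sum]
      apply Finset.sum_congr rfl
      intro t _
      rw [map_monomial, smul_monomial, smul_eq_mul, mul_one]
    rw [h2, map_sum] at h1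
    have h6 := DFunLike.congr_fun h1 l
    rw [Finsupp.coe_finset_sum, Finset.sum_apply, Finsupp.single_apply] at h6
    rw [← h6]
    apply Finset.sum_congr rfl
    intro t _
    rw [map_smul, Finsupp.smul_apply, smul_eq_mul]
  -- clear denominators
  obtain ⟨δ, hδ⟩ := IsLocalization.exist_integer_multiples_of_finset
    (nonZeroDivisors (MvPolynomial ι ℚ))
    ((T ×ˢ (Finset.univ : Finset κ')).image (fun p => N p.1 p.2))
  have hδ0 : (δ : MvPolynomial ι ℚ) ≠ 0 := nonZeroDivisors.ne_zero δ.2
  have hex : ∀ t ∈ T, ∀ l : κ', ∃ m : MvPolynomial ι ℚ,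
      algebraMap (MvPolynomial ι ℚ) (FractionRing (MvPolynomial ι ℚ)) m
        = algebraMap (MvPolynomial ι ℚ) (FractionRing (MvPolynomial ι ℚ)) δ * N t l := by
    intro t ht l
    obtain ⟨m, hm⟩ := hδ (N t l) (Finset.mem_image.mpr
      ⟨(t, l), Finset.mem_product.mpr ⟨ht, Finset.mem_univ _⟩, rfl⟩)
    exact ⟨m, by rw [hm, Algebra.smul_def]⟩
  choose! m hm using hex
  have hMm : ∀ k l : κ', ∑ t ∈ T, coeff t (u (a k)) * m t l
      = if k = l then (δ : MvPolynomial ι ℚ) else 0 := by
    intro k l
    apply IsFractionRing.injective (MvPolynomial ι ℚ) (FractionRing (MvPolynomial ι ℚ))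
    rw [map_sum]
    have h1 : ∀ t ∈ T, algebraMap (MvPolynomial ι ℚ) (FractionRing (MvPolynomial ι ℚ))
        (coeff t (u (a k)) * m t l)
        = algebraMap (MvPolynomial ι ℚ) (FractionRing (MvPolynomial ι ℚ)) δ *
          (algebraMap (MvPolynomial ι ℚ) (FractionRing (MvPolynomial ι ℚ))
            (coeff t (u (a k))) * N t l) := by
      intro t ht
      rw [map_mul, hm t ht l]
      ring
    rw [Finset.sum_congr rfl h1, ← Finset.mul_sum, hMN k l]
    split_ifs <;> simp
  -- the point
  obtain ⟨e, he⟩ : ∃ e : ι → ℚ, eval e (δ : MvPolynomial ι ℚ) ≠ 0 := by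
    by_contra h
    push Not at h
    exact hδ0 (MvPolynomial.funext (fun x => by rw [h x, map_zero]))
  refine ⟨e, ?_⟩
  have hli2 : LinearIndependent ℚ (fun k : κ' => MvPolynomial.map (eval e) (u (a k))) := by
    rw [Fintype.linearIndependent_iff]
    intro c hc l
    have h1 : ∀ t : σ →₀ ℕ, ∑ k, c k * eval e (coeff t (u (a k))) = 0 := by
      intro t
      have h2 := congrArg (coeff t) hc
      rw [coeff_sum, coeff_zero] at h2
      rw [← h2]
      apply Finset.sum_congr rfl
      intro k _
      rw [coeff_smul, coeff_map, smul_eq_mul]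
    have h3 : ∑ t ∈ T, (∑ k, c k * eval e (coeff t (u (a k)))) * eval e (m t l) = 0 := by
      apply Finset.sum_eq_zero
      intro t _
      rw [h1 t, zero_mul]
    have h4 : ∑ t ∈ T, (∑ k, c k * eval e (coeff t (u (a k)))) * eval e (m t l)
        = ∑ k, c k * eval e (∑ t ∈ T, coeff t (u (a k)) * m t l) := by
      simp_rw [Finset.sum_mul]
      rw [Finset.sum_comm]
      apply Finset.sum_congr rfl
      intro k _
      rw [map_sum, Finset.mul_sum]
      apply Finset.sum_congr rfl
      intro t _
      rw [map_mul]
      ring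
    rw [h4] at h3
    simp_rw [hMm] at h3
    have h5 : ∑ k, c k * eval e (if k = l then (δ : MvPolynomial ι ℚ) else 0)
        = c l * eval e (δ : MvPolynomial ι ℚ) := by
      rw [Finset.sum_eq_single l]
      · rw [if_pos rfl]
      · intro k _ hk
        rw [if_neg hk, map_zero, mul_zero]
      · intro h
        exact absurd (Finset.mem_univ _) h
    rw [h5] at h3
    exact (mul_eq_zero.mp h3).resolve_right he
  have hF : Module.finrank (FractionRing (MvPolynomial ι ℚ))
        (Submodule.span (FractionRing (MvPolynomial ι ℚ)) (Set.range fun k =>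
          MvPolynomial.map (algebraMap (MvPolynomial ι ℚ) (FractionRing (MvPolynomial ι ℚ)))
            (u k))) = Fintype.card κ' := by
    rw [← hspan]
    exact finrank_span_eq_card hli
  rw [hF, ← finrank_span_eq_card hli2]
  haveI : Module.Finite ℚ (Submodule.span ℚ (Set.range fun k =>
      MvPolynomial.map (MvPolynomial.eval e) (u k))) :=
    Module.Finite.span_of_finite ℚ (Set.finite_range _)
  apply Submodule.finrank_mono
  apply Submodule.span_mono
  rintro _ ⟨k, rfl⟩
  exact ⟨a k, rfl⟩

end Pool.Agent.FB
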