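import Pool.Agent.FB.Core
import Pool.Agent.FB.Comb
import Pool.Agent.FB.Spec
import Pool.Agent.FB.LMX
import Pool.Agent.FB.Num
import Pool.Agent.H21.Final2

set_option autoImplicit false

namespace Pool.Agent.FB

open MvPolynomial Pool.Agent.H21
open Pool.Agent.H21.Low (TT mem_TT)
open scoped Pointwise

/-- The generic forms have maximal rank (`core`, `finrank_Q_ge`, `comb_final`). -/
theorem genW_max {n d U J : ℕ} (hn : 1 ≤ n) (hJ : J ≤ d)
    (h : 2 ^ (n - 1) * dimS n J ≤ dimS n (J + d) ∨ 2 ^ (n - 1) ≤ U) :
    min (dimS n (J + d)) (U * dimS n J) ≤ Module.finrank (FF n d U) (genW n d U J) := by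
  have hcard : ∀ e : ℕ, dimS n e = (MM n e).card := fun e => by
    rw [card_MM_finrank (FF n d U), dimS_finrank hn]
  have hdeg : 2 * J + (d - J) = J + d := by omega
  rcases Nat.lt_or_ge (Module.finrank (FF n d U) (genW n d U J))
    (U * Module.finrank (FF n d U) (homogeneousSubmodule (Fin n) (FF n d U) J)) with hlt | hge
  · obtain ⟨K, Q, hK, hQ, hK0, hKQ, hcount⟩ := core hJ hlt
    rw [← hdeg] at hQ
    obtain ⟨A, hA, hAK, hAQ⟩ := finrank_Q_ge K Q hK hQ hKQ
    have hfK : FiniteDimensional (FF n d U) K := Submodule.finiteDimensional_of_le hK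
    have hne : A.Nonempty := by
      rw [← Finset.card_pos, hAK]
      rcases Nat.eq_zero_or_pos (Module.finrank (FF n d U) K) with h0 | h0
      · exact absurd (Submodule.finrank_eq_zero.mp h0) hK0
      · exact h0
    have hc := comb_final (U := U) (g := d - J) hn A hA hne (by
      rw [hdeg, ← hcard, ← hcard]
      exact h)
    rw [hdeg, ← hcard, ← hcard, hAK] at hc
    rw [dimS_finrank hn] at hcount
    omega
  · rw [dimS_finrank hn] at hge
    exact (min_le_right _ _).trans hge

lemma gen0_homogeneous (n d U : ℕ) (i : Fin U) : (gen0 n d U i).IsHomogeneous d := by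
  unfold gen0
  apply IsHomogeneous.sum
  intro t _
  apply isHomogeneous_monomial
  rw [Finsupp.degree_eq_sum]
  exact mem_TT.mp t.2

/-- Good forms over the rationals (`genW_max`, `spec`); compare `Pool.Agent.H21.Low.exists_rat`. -/
theorem exists_rat2 {n d J s : ℕ} (hn : 1 ≤ n) (hJ : J ≤ d)
    (h : 2 ^ (n - 1) * dimS n J ≤ dimS n (J + d) ∨ 2 ^ (n - 1) ≤ s) :
    ∃ V : Submodule ℚ (MvPolynomial (Fin n) ℚ), V ≤ homogeneousSubmodule (Fin n) ℚ d ∧
      Module.finrank ℚ V ≤ s ∧
      min (dimS n (J + d)) (s * dimS n J) ≤ Module.finrank ℚ (prodSpan J V) := by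
  classical
  have hmax := genW_max (U := s) hn hJ h
  let u : Fin s × ↥(TT n J) → MvPolynomial (Fin n) (MvPolynomial (CV n d s) ℚ) :=
    fun x => monomial x.2.1 1 * gen0 n d s x.1
  obtain ⟨e, he⟩ := spec u
  set V := Submodule.span ℚ (Set.range fun i => MvPolynomial.map (MvPolynomial.eval e)
    (gen0 n d s i)) with hV
  have hVd : V ≤ homogeneousSubmodule (Fin n) ℚ d := by
    rw [hV, Submodule.span_le]
    rintro _ ⟨i, rfl⟩
    rw [SetLike.mem_coe, mem_homogeneousSubmodule]
    exact (gen0_homogeneous n d s i).map _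
  refine ⟨V, hVd, ?_, ?_⟩
  · have h1 := finrank_range_le_card (R := ℚ)
      (fun i => MvPolynomial.map (MvPolynomial.eval e) (gen0 n d s i))
    rw [Fintype.card_fin] at h1
    exact h1
  · refine hmax.trans ?_
    have hfin : FiniteDimensional ℚ (prodSpan J V) :=
      Submodule.finiteDimensional_of_le (prodSpan_le hVd)
    have h1 : Module.finrank (FF n d s) (genW n d s J) ≤
        Module.finrank (FF n d s) (Submodule.span (FF n d s) (Set.range fun x =>
          MvPolynomial.map (algebraMap (MvPolynomial (CV n d s) ℚ) (FF n d s)) (u x))) := by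
      have hfin' : FiniteDimensional (FF n d s) (Submodule.span (FF n d s) (Set.range fun x =>
          MvPolynomial.map (algebraMap (MvPolynomial (CV n d s) ℚ) (FF n d s)) (u x))) :=
        FiniteDimensional.span_of_finite _ (Set.finite_range _)
      apply Submodule.finrank_mono
      unfold genW prodSpan
      rw [Submodule.span_le]
      rintro _ ⟨f, hf, v, hv, rfl⟩
      have hf' := (mem_homogeneousSubmodule _ _).mp hf
      refine Submodule.span_induction ?_ ?_ ?_ ?_ hv
      · rintro _ ⟨i, rfl⟩
        change f * gen n d s i ∈ _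
        rw [f.as_sum, Finset.sum_mul]
        apply Submodule.sum_mem
        intro t ht
        have h3 : t ∈ TT n J := by
          rw [mem_TT, ← Finsupp.degree_eq_sum]
          by_contra h4
          exact (mem_support_iff.mp ht) (hf'.coeff_eq_zero h4)
        have h4 : monomial t (coeff t f) * gen n d s i = (coeff t f) •
            MvPolynomial.map (algebraMap (MvPolynomial (CV n d s) ℚ) (FF n d s))
              (u (i, ⟨t, h3⟩)) := by
          simp only [u]
          rw [map_mul, map_monomial, map_one, ← smul_mul_assoc, smul_monomial, smul_eq_mul,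
            mul_one]
          rfl
        rw [h4]
        exact Submodule.smul_mem _ _ (Submodule.subset_span ⟨_, rfl⟩)
      · change f * 0 ∈ _
        rw [mul_zero]
        exact Submodule.zero_mem _
      · intro x y _ _ hx hy
        change f * (x + y) ∈ _
        rw [mul_add]
        exact Submodule.add_mem _ hx hy
      · intro c x _ hx
        change f * (c • x) ∈ _
        rw [mul_smul_comm]
        exact Submodule.smul_mem _ c hx
    refine h1.trans (he.trans ?_)
    apply Submodule.finrank_mono
    rw [Submodule.span_le]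
    rintro _ ⟨x, rfl⟩
    simp only [u]
    rw [map_mul, map_monomial]
    apply mul_mem_prodSpan
    · rw [mem_homogeneousSubmodule]
      apply isHomogeneous_monomial
      rw [Finsupp.degree_eq_sum]
      exact mem_TT.mp x.2.2
    · exact Submodule.subset_span ⟨x.1, rfl⟩

section

variable {K : Type} [Field K] [CharZero K]

/-- Good forms over any field of characteristic `0`. -/
theorem exists_low2 {n d j u : ℕ} (hn : 1 ≤ n) (hj : j ≤ d)
    (h : 2 ^ (n - 1) * dimS n j ≤ dimS n (j + d) ∨ 2 ^ (n - 1) ≤ u)
    (hu : u ≤ Module.finrank K (homogeneousSubmodule (Fin n) K d)) :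
    ∃ V : Submodule K (MvPolynomial (Fin n) K), V ≤ homogeneousSubmodule (Fin n) K d ∧
      Module.finrank K V = u ∧
      min (dimS n (j + d)) (u * dimS n j) ≤ Module.finrank K (prodSpan j V) := by
  obtain ⟨V₀, hV1, hV2, hV3⟩ := exists_rat2 (s := u) hn hj h
  have hfV₀ : FiniteDimensional ℚ V₀ := Submodule.finiteDimensional_of_le hV1
  have h4 : Module.finrank K (bc (K := K) V₀) ≤ u := (finrank_bc_le V₀).trans hV2
  obtain ⟨V, hVV, hVd, hVu⟩ := exists_extend (homogeneousSubmodule (Fin n) K d) u hu
    (bc (K := K) V₀) (bc_le_homogeneous hV1) h4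
  refine ⟨V, hVd, hVu, hV3.trans ?_⟩
  have hfin : FiniteDimensional K (prodSpan j V) :=
    Submodule.finiteDimensional_of_le (prodSpan_le hVd)
  exact (finrank_bc_ge (K := K) (prodSpan_le (e := j) hV1)).trans
    (Submodule.finrank_mono ((bc_prodSpan_le V₀).trans (prodSpan_mono hVV)))

/-- Fröberg's formula in degree `d + j < 2 d` (compare `Pool.Agent.H21.froberg_low`). -/
theorem froberg_low2 {n d j u : ℕ} (hn : 1 ≤ n) (hjd : j < d)
    (h : 2 ^ (n - 1) * dimS n j ≤ dimS n (j + d) ∨ 2 ^ (n - 1) ≤ u)
    (hu : u ≤ Module.finrank K (homogeneousSubmodule (Fin n) K d)) : FrobergAt K n d u j := by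
  have hd : 1 ≤ d := by omega
  have hser := ser_low (n := n) hd hjd u
  unfold FrobergAt
  rw [dimS_finrank hn]
  rcases Nat.lt_or_ge (dimS n (j + d)) (u * dimS n j) with hlt | hge
  · -- everything is generated
    have hc0 : truncCoeff n d u (j + d) = 0 := by
      unfold truncCoeff
      rw [if_neg]
      intro h
      have h1 := h (j + d) le_rfl
      rw [hser] at h1
      have h2 : ((dimS n (j + d) : ℕ) : ℤ) < ((u * dimS n j : ℕ) : ℤ) := by exact_mod_cast hlt
      push_cast at h2
      linarith
    rw [hc0, sub_zero]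
    constructor
    · intro V hV _
      have h1 := Submodule.finrank_mono (prodSpan_le (e := j) hV)
      rw [dimS_finrank hn] at h1
      exact_mod_cast h1
    · obtain ⟨V, hV1, hV2, hV3⟩ := exists_low2 (K := K) hn hjd.le h hu
      refine ⟨V, hV1, hV2, ?_⟩
      have h1 := Submodule.finrank_mono (prodSpan_le (e := j) hV1)
      rw [dimS_finrank hn] at h1
      have h2 : Module.finrank K (prodSpan j V) = dimS n (j + d) := by
        rw [min_eq_left hlt.le] at hV3
        omega
      rw [h2]
  · -- no relations
    have hc : truncCoeff n d u (j + d) = (dimS n (j + d) : ℤ) - (u : ℤ) * (dimS n j : ℤ) := by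
      unfold truncCoeff
      rw [if_pos, hser]
      intro m hm
      rcases Nat.lt_or_ge m d with hmd | hmd
      · rw [ser_small hd m hmd, fc_zero]
        exact Nat.cast_nonneg _
      · obtain ⟨e, rfl⟩ : ∃ e, m = e + d := ⟨m - d, by omega⟩
        rw [ser_low hd (by omega)]
        have h1 := dimS_ratio (n := n) (d := d) hn (show e ≤ j by omega)
        have h2 : u * dimS n e ≤ dimS n (e + d) := by
          have h3 : (u * dimS n e) * dimS n j ≤ dimS n (e + d) * dimS n j := by
            calc (u * dimS n e) * dimS n j = (u * dimS n j) * dimS n e := by ring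
              _ ≤ dimS n (j + d) * dimS n e := Nat.mul_le_mul_right _ hge
              _ ≤ _ := h1
          exact Nat.le_of_mul_le_mul_right h3 dimS_pos
        have h3 : ((u * dimS n e : ℕ) : ℤ) ≤ ((dimS n (e + d) : ℕ) : ℤ) := by exact_mod_cast h2
        push_cast at h3
        linarith
    rw [hc]
    have hval : ((dimS n (j + d) : ℕ) : ℤ) - ((dimS n (j + d) : ℤ) - (u : ℤ) * (dimS n j : ℤ)) =
        ((u * dimS n j : ℕ) : ℤ) := by
      push_cast
      ring
    rw [hval]
    constructor
    · intro V hV hVu
      have h1 := finrank_prodSpan_mul_le (e := j) hV hVu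
      rw [dimS_finrank hn] at h1
      exact_mod_cast h1
    · obtain ⟨V, hV1, hV2, hV3⟩ := exists_low2 (K := K) hn hjd.le h hu
      refine ⟨V, hV1, hV2, ?_⟩
      have h1 := finrank_prodSpan_mul_le (e := j) hV1 hV2
      rw [dimS_finrank hn] at h1
      have h2 : Module.finrank K (prodSpan j V) = u * dimS n j := by
        rw [min_eq_right hge] at hV3
        omega
      rw [h2]

end

/-- The condition of `froberg_low2` passes to smaller degrees. -/
lemma cond2_mono {n d j J : ℕ} (hn : 1 ≤ n) (hj : j ≤ J)
    (h : 2 ^ (n - 1) * dimS n J ≤ dimS n (J + d)) :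
    2 ^ (n - 1) * dimS n j ≤ dimS n (j + d) := by
  have h1 := dimS_ratio (n := n) (d := d) hn hj
  have h3 : (2 ^ (n - 1) * dimS n j) * dimS n J ≤ dimS n (j + d) * dimS n J := by
    calc (2 ^ (n - 1) * dimS n j) * dimS n J = (2 ^ (n - 1) * dimS n J) * dimS n j := by ring
      _ ≤ dimS n (J + d) * dimS n j := Nat.mul_le_mul_right _ h
      _ ≤ _ := h1
  exact Nat.le_of_mul_le_mul_right h3 dimS_pos

/-- All degrees from one degree in which the forms generate everything numerically. -/
theorem froberg_all_gen {n d J u : ℕ} (hn : 1 ≤ n) (hJ : J < d)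
    (h : 2 ^ (n - 1) * dimS n J ≤ dimS n (J + d) ∨ 2 ^ (n - 1) ≤ u)
    (hu : dimS n (J + d) < u * dimS n J) : FrobergAll n d u := by
  intro K _ _ huK j
  rcases Nat.lt_or_ge j J with hj | hj
  · refine froberg_low2 hn (by omega) ?_ huK
    rcases h with h | h
    · exact Or.inl (cond2_mono hn hj.le h)
    · exact Or.inr h
  · have hc0 : truncCoeff n d u (j + d) = 0 := by
      unfold truncCoeff
      rw [if_neg]
      intro hall
      have h1 := hall (J + d) (by omega)
      rw [ser_low (by omega) hJ] at h1
      have h2 : ((dimS n (J + d) : ℕ) : ℤ) < ((u * dimS n J : ℕ) : ℤ) := by exact_mod_cast hu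
      push_cast at h2
      linarith
    unfold FrobergAt
    rw [hc0, sub_zero]
    constructor
    · intro V hV _
      exact_mod_cast Submodule.finrank_mono (prodSpan_le (e := j) hV)
    · obtain ⟨V, hV1, hV2, hV3⟩ := exists_low2 (K := K) hn hJ.le h huK
      refine ⟨V, hV1, hV2, ?_⟩
      have h1 : prodSpan J V = homogeneousSubmodule (Fin n) K (J + d) := by
        apply Submodule.eq_of_le_of_finrank_le (prodSpan_le hV1)
        rw [dimS_finrank hn]
        rw [min_eq_left hu.le] at hV3
        exact hV3
      have h2 := prodSpan_full (d := d) (D₁ := J + d) (D := j + d) (V := V) (by omega) (by omega)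
        (by rw [Nat.add_sub_cancel, h1])
      rw [Nat.add_sub_cancel] at h2
      have h3 : prodSpan j V = homogeneousSubmodule (Fin n) K (j + d) :=
        le_antisymm (prodSpan_le hV1) h2
      rw [h3]

/-- All degrees for `u ≥ 2^(n-1)` (compare `Pool.Agent.H21.froberg_all_low`). -/
theorem froberg_all2 {n d u : ℕ} (hn : 3 ≤ n) (hu : 2 ^ (n - 1) ≤ u) : FrobergAll n d u := by
  rcases Nat.eq_zero_or_pos d with hd | hd
  · subst hd
    intro K _ _ huK
    exfalso
    rw [dimS_finrank (by omega)] at huK
    have h1 : dimS n 0 = 1 := by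
      unfold dimS
      rw [Nat.add_zero, Nat.choose_self]
    have h2 : 2 ^ 2 ≤ 2 ^ (n - 1) := Nat.pow_le_pow_right (by norm_num) (by omega)
    omega
  · have h1 := num_top (n := n) (J := d - 1) hn
    refine froberg_all_gen (J := d - 1) (by omega) (by omega) (Or.inr hu) ?_
    have h2 : d - 1 + d = 2 * (d - 1) + 1 := by omega
    rw [h2]
    unfold dimS
    exact h1.trans_le (Nat.mul_le_mul_right _ hu)

end Pool.Agent.FB
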