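import Pool.Agent.FB.Nmp
import Pool.Agent.H80.FB.Parity

/-!
Stable pairs `A`, `B` with `A + M_g ⊆ B`, `1 ≤ g`, `|A^c| = |B^c|`: `(2 ^ m - 1) |A| ≤ |A + B|` for
`m + 1` variables, if the degree `J` of `A` is large.  (The parity classes of `A + A + M_g`, with the
units moved away from the second variable; few elements of `A` have a small second exponent.)
-/

set_option autoImplicit false

namespace Pool.Agent.FB

open Finset
open scoped Pointwise
open H80.FB (ee ind card_eq_sum_cls card_parity card_le_cls class_up)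

/-- moving `k` units of the variable `p` to the variables of a `k`-element set `s`, all `≥ p` -/
theorem stable_ind {n : ℕ} {A : Finset (Fin n → ℕ)} (hst : H80.FB.Stable A) (p : Fin n)
    (s : Finset (Fin n)) (hs : ∀ i ∈ s, p ≤ i) (z : Fin n → ℕ) (h : z + s.card • ee p ∈ A) :
    z + ind s ∈ A := by
  classical
  induction s using Finset.induction_on generalizing z with
  | empty =>
    have h1 : ind (∅ : Finset (Fin n)) = 0 := by
      funext i
      simp [ind]
    rw [h1]
    simpa using h
  | insert j s hj ih =>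
    rw [card_insert_of_notMem hj] at h
    have h1 := ih (fun i hi => hs i (mem_insert_of_mem hi)) (z + ee p) (by
      convert h using 1
      rw [add_smul, one_smul]
      abel)
    have h2 : ind (insert j s) = ind s + ee j := by
      funext i
      simp only [ind, ee, Pi.add_apply, Pi.single_apply, mem_insert]
      by_cases hi : i = j
      · subst hi
        simp [hj]
      · simp [hi]
    rw [h2]
    have h3 : z + ee p + ind s = z + ind s + ee p := by abel
    rw [h3] at h1
    rw [← add_assoc]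
    rcases (hs j (mem_insert_self _ _)).lt_or_eq with h4 | h4
    · exact hst _ p j h4 h1
    · rw [← h4]
      exact h1

/-- moving `k` units of the variable `p` to the variable `q > p` -/
theorem stable_iter {n : ℕ} {A : Finset (Fin n → ℕ)} (hst : H80.FB.Stable A) {p q : Fin n}
    (hpq : p < q) (k : ℕ) (z : Fin n → ℕ) (h : z + k • ee p ∈ A) : z + k • ee q ∈ A := by
  induction k generalizing z with
  | zero => simpa using h
  | succ k ih =>
    rw [add_smul, one_smul, ← add_assoc] at h ⊢
    have h1 := hst _ p q hpq h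
    have h2 : z + k • ee p + ee q = z + ee q + k • ee p := by abel
    rw [h2] at h1
    have h3 := ih _ h1
    convert h3 using 1
    abel

/-- removing the `p`-th units -/
theorem sub_add_ee {n : ℕ} {p : Fin n} {k : ℕ} {a : Fin n → ℕ} (h : k ≤ a p) :
    (a - k • ee p) + k • ee p = a := by
  funext i
  by_cases hi : i = p
  · subst hi
    simp [ee]
    omega
  · simp [ee, hi]

/-- The class `R`, `|R| = g + 2k`, `g ≥ 1`, with the units moved away from the variable `1`. -/
theorem cls_second {q g k : ℕ} {A : Finset (Fin (q + 2) → ℕ)} (hg : 1 ≤ g)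
    (hst : H80.FB.Stable A) (R : Finset (Fin (q + 2))) (hR : R.card = g + 2 * k) :
    (A.filter (fun a => k ≤ a 1)).card ≤ (H80.FB.cls (A + A + MM (q + 2) g) R).card := by
  classical
  have hr0 : g + 2 * k ≤ (R.erase 0).card + 1 := by
    have := pred_card_le_card_erase (s := R) (a := (0 : Fin (q + 2)))
    omega
  obtain ⟨s, hs, hsc⟩ := exists_subset_card_eq (s := R.erase 0) (n := k) (by omega)
  have h1 : k ≤ ((R.erase 0) \ s).card := by
    rw [card_sdiff_of_subset hs]
    omega
  obtain ⟨t, ht, htc⟩ := exists_subset_card_eq (s := (R.erase 0) \ s) (n := k) h1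
  have hsR : s ⊆ R := hs.trans (erase_subset _ _)
  have htR : t ⊆ R \ s := ht.trans (sdiff_subset_sdiff (erase_subset _ _) le_rfl)
  have h2 : ((R \ s) \ t).card = g := by
    rw [card_sdiff_of_subset htR, card_sdiff_of_subset hsR]
    omega
  have hpos : ∀ i ∈ R.erase 0, (1 : Fin (q + 2)) ≤ i := by
    intro i hi
    have h3 : i ≠ 0 := (mem_erase.1 hi).1
    exact Fin.one_le_of_ne_zero h3
  have hind : ind R = ind s + ind t + ind ((R \ s) \ t) := by
    funext i
    simp only [ind, Pi.add_apply, mem_sdiff]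
    by_cases h6 : i ∈ s
    · have h7 : i ∈ R := hsR h6
      have h8 : i ∉ t := fun h => (mem_sdiff.1 (ht h)).2 h6
      simp [h6, h7, h8]
    · by_cases h8 : i ∈ t
      · have h7 : i ∈ R := (mem_sdiff.1 (htR h8)).1
        simp [h6, h7, h8]
      · simp [h6, h8]
  have hinj : Set.InjOn (fun a : Fin (q + 2) → ℕ => a - k • ee 1)
      (A.filter (fun a => k ≤ a 1) : Finset (Fin (q + 2) → ℕ)) := by
    intro a ha a' ha' h
    have ha1 := (mem_filter.1 (mem_coe.1 ha)).2
    have ha2 := (mem_filter.1 (mem_coe.1 ha')).2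
    simp only at h
    rw [← sub_add_ee ha1, ← sub_add_ee ha2, h]
  rw [← card_image_of_injOn hinj]
  refine card_le_cls fun z hz => ?_
  obtain ⟨a, ha, rfl⟩ := mem_image.1 hz
  obtain ⟨haA, hak⟩ := mem_filter.1 ha
  have h3 : (a - k • ee 1) + k • ee 1 ∈ A := by rwa [sub_add_ee hak]
  have h4 := stable_ind hst 1 s (fun i hi => hpos i (hs hi)) (a - k • ee 1) (by rwa [hsc])
  have h5 := stable_ind hst 1 t (fun i hi => hpos i (mem_sdiff.1 (ht hi)).1) (a - k • ee 1)
    (by rwa [htc])
  have h6 : ind ((R \ s) \ t) ∈ MM (q + 2) g := by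
    rw [← h2]
    exact H80.FB.ind_mem _
  have h7 := add_mem_add (add_mem_add h4 h5) h6
  show (a - k • ee 1) + (a - k • ee 1) + ind R ∈ A + A + MM (q + 2) g
  rw [hind]
  generalize a - k • ee 1 = w at h7 ⊢
  convert h7 using 1
  abel

/-- all classes -/
theorem classes_second {q g : ℕ} {A : Finset (Fin (q + 2) → ℕ)} (hg : 1 ≤ g)
    (hst : H80.FB.Stable A) :
    2 ^ (q + 1) * (A.filter (fun a => (q + 1) / 2 ≤ a 1)).card ≤ (A + A + MM (q + 2) g).card := by
  classical
  rw [card_eq_sum_cls (A + A + MM (q + 2) g), ← card_parity (q + 1) g, ← smul_eq_mul, ← sum_const]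
  refine le_trans (sum_le_sum (g := fun R => (H80.FB.cls (A + A + MM (q + 2) g) R).card)
    fun R hR => ?_) (sum_le_sum_of_subset (subset_univ _))
  have hR' := (mem_filter.1 hR).2
  rcases le_total R.card g with h | h
  · obtain ⟨i, hi⟩ : ∃ i, R.card + 2 * i = g := ⟨(g - R.card) / 2, by omega⟩
    refine le_trans ?_ (class_up hi)
    refine (card_le_card (filter_subset _ _)).trans ?_
    refine card_le_card_add_right ?_
    refine ⟨fun l => if l = 0 then i else 0, ?_⟩
    rw [H80.FB.mem_MM]
    simp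
  · obtain ⟨k, hk⟩ : ∃ k, R.card = g + 2 * k := ⟨(R.card - g) / 2, by omega⟩
    have hc : R.card ≤ q + 2 := by simpa using card_le_univ R
    refine le_trans (card_le_card ?_) (cls_second hg hst R hk)
    intro a ha
    rw [mem_filter] at ha ⊢
    exact ⟨ha.1, by omega⟩

/-- the elements with small first and second exponents -/
theorem strip_small {p J H h : ℕ} {A : Finset (Fin (p + 3) → ℕ)} (hA : A ⊆ MM (p + 3) J) :
    (A.filter (fun a => a 1 < h ∧ a 0 < H)).card ≤ H * h * (MM (p + 1) J).card := by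
  classical
  have h1 : ((range H ×ˢ range h) ×ˢ MM (p + 1) J).card = H * h * (MM (p + 1) J).card := by
    simp
  rw [← h1]
  refine card_le_card_of_injOn
    (fun a => ((a 0, a 1), fun i : Fin (p + 1) => a i.succ.succ + if i = 0 then a 0 + a 1 else 0))
    ?_ ?_
  · intro a ha
    rw [mem_coe, mem_filter] at ha
    have h2 := mem_MM.1 (hA ha.1)
    rw [Fin.sum_univ_succ, Fin.sum_univ_succ] at h2
    rw [mem_coe, mem_product, mem_product, mem_range, mem_range, mem_MM]
    refine ⟨⟨ha.2.2, ha.2.1⟩, ?_⟩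
    simp only [sum_add_distrib, sum_ite_eq', mem_univ, if_true]
    have h3 : (Fin.succ 0 : Fin (p + 3)) = 1 := rfl
    rw [h3] at h2
    omega
  · intro a ha b hb hab
    simp only [Prod.mk.injEq] at hab
    obtain ⟨⟨h0, h1⟩, h2⟩ := hab
    funext i
    refine Fin.cases h0 (fun j => ?_) i
    refine Fin.cases h1 (fun l => ?_) j
    have h3 := congrFun h2 l
    simp only [h0, h1] at h3
    omega

/-- the elements with small second exponent and large first exponent -/
theorem strip_large {p H h : ℕ} {A : Finset (Fin (p + 3) → ℕ)} (hst : H80.FB.Stable A) :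
    (H + 1) * (A.filter (fun a => a 1 < h ∧ H ≤ a 0)).card ≤ h * A.card := by
  classical
  have h1 : ((A.filter (fun a => a 1 < h ∧ H ≤ a 0)) ×ˢ range (H + 1)).card =
      (H + 1) * (A.filter (fun a => a 1 < h ∧ H ≤ a 0)).card := by
    simp [mul_comm]
  have h2 : (A ×ˢ range h).card = h * A.card := by
    simp [mul_comm]
  have e1 : (1 : Fin (p + 3)) ≠ 0 := by
    intro h
    have := congrArg Fin.val h
    simp at this
  rw [← h1, ← h2]
  refine card_le_card_of_injOn (fun x => ((x.1 - x.2 • ee 0) + x.2 • ee 1, x.1 1)) ?_ ?_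
  · rintro ⟨a, k⟩ hx
    rw [mem_coe, mem_product, mem_filter, mem_range] at hx
    obtain ⟨⟨ha, ha1, ha0⟩, hk⟩ := hx
    rw [mem_coe, mem_product, mem_range]
    have ha0' : H ≤ a 0 := ha0
    have hk' : k < H + 1 := hk
    have ha' : a ∈ A := ha
    refine ⟨stable_iter hst (p := 0) (q := 1) Fin.zero_lt_one k _ ?_, ha1⟩
    show (a - k • ee 0) + k • ee 0 ∈ A
    rwa [sub_add_ee (by omega)]
  · rintro ⟨a, k⟩ hx ⟨b, l⟩ hy hab
    rw [mem_coe, mem_product, mem_filter, mem_range] at hx hy
    obtain ⟨⟨ha, ha1, ha0⟩, hk⟩ := hx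
    obtain ⟨⟨hb, hb1, hb0⟩, hl⟩ := hy
    simp only [Prod.mk.injEq] at hab ha1 ha0 hk hb1 hb0 hl
    obtain ⟨h3, h4⟩ := hab
    have h5 := congrFun h3 1
    simp only [ee, Pi.add_apply, Pi.sub_apply, Pi.smul_apply, Pi.single_apply, if_neg e1, if_true,
      smul_eq_mul, mul_zero, mul_one, Nat.sub_zero] at h5
    have hkl : k = l := by omega
    subst hkl
    have h6 := add_right_cancel h3
    have h7 : a = b := by
      rw [← sub_add_ee (p := (0 : Fin (p + 3))) (k := k) (a := a) (by omega),
        ← sub_add_ee (p := (0 : Fin (p + 3))) (k := k) (a := b) (by omega), h6]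
    rw [h7]

theorem card_MM_mono {q e f : ℕ} (h : e ≤ f) : (MM (q + 1) e).card ≤ (MM (q + 1) f).card := by
  induction f, h using Nat.le_induction with
  | base => exact le_rfl
  | succ f _ ih =>
    rw [card_MM_rec]
    omega

theorem card_strip (p J : ℕ) :
    (MM (p + 1) J).card * (J + (p + 2)) ≤ (MM (p + 2) (J + 1)).card * (p + 1) := by
  refine le_trans (Nat.mul_le_mul_right _ (card_MM_mono (Nat.le_succ J))) ?_
  rw [card_MM (by omega), card_MM (by omega)]
  rw [show p + 1 - 1 + (J + 1) = J + p + 1 by omega, show p + 1 - 1 = p by omega,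
    show p + 2 - 1 + (J + 1) = J + p + 1 + 1 by omega, show p + 2 - 1 = p + 1 by omega,
    ← Nat.add_one_mul_choose_eq]
  rw [mul_comm]
  exact Nat.mul_le_mul_right _ (by omega)

/-- **The combinatorial theorem**: stable pairs with `|A^c| = |B^c|`. -/
theorem near_stable {p J g : ℕ} (hg : 1 ≤ g)
    (hJ : (p + 2) ^ 2 * (p + 1) * 8 ^ (p + 2) ≤ J + (p + 2))
    {A B : Finset (Fin (p + 3) → ℕ)} (hA : A ⊆ MM (p + 3) J) (hst : H80.FB.Stable A)
    (hne : A.Nonempty) (hAB : A + MM (p + 3) g ⊆ B)
    (hc : (MM (p + 3) (J + g)).card + A.card ≤ B.card + (MM (p + 3) J).card) :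
    2 ^ (p + 2) * A.card ≤ (A + B).card + A.card := by
  classical
  have hB1 : B.card ≤ (A + B).card := card_le_card_add_left hne
  have hB2 : (A + A + MM (p + 3) g).card ≤ (A + B).card := by
    rw [add_assoc]
    exact card_le_card (add_subset_add_left hAB)
  have hN : (MM (p + 3) J).card + (MM (p + 2) (J + 1)).card ≤ (MM (p + 3) (J + g)).card := by
    rw [← card_MM_rec]
    exact card_MM_mono (by omega)
  have h1 := classes_second (q := p + 1) hg hst
  have h2 := strip_small (H := (p + 2) * 2 ^ (p + 2)) (h := (p + 2) / 2) hA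
  have h3 := strip_large (H := (p + 2) * 2 ^ (p + 2)) (h := (p + 2) / 2) hst
  have h4 := card_strip p J
  have h5 : A.card = (A.filter (fun a => (p + 2) / 2 ≤ a 1)).card +
      (A.filter (fun a => a 1 < (p + 2) / 2 ∧ a 0 < (p + 2) * 2 ^ (p + 2))).card +
      (A.filter (fun a => a 1 < (p + 2) / 2 ∧ (p + 2) * 2 ^ (p + 2) ≤ a 0)).card := by
    rw [add_assoc, ← filter_filter, ← filter_filter]
    have e1 := card_filter_add_card_filter_not (s := A.filter (fun a => a 1 < (p + 2) / 2))
      (fun a => a 0 < (p + 2) * 2 ^ (p + 2))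
    have e2 := card_filter_add_card_filter_not (s := A) (fun a => (p + 2) / 2 ≤ a 1)
    simp only [not_lt, not_le] at e1 e2
    omega
  have h6 : p + 1 + 1 = p + 2 := rfl
  rw [h6] at h1
  generalize (A.filter (fun a => (p + 2) / 2 ≤ a 1)).card = F at *
  generalize (A.filter (fun a => a 1 < (p + 2) / 2 ∧ a 0 < (p + 2) * 2 ^ (p + 2))).card = X at *
  generalize (A.filter (fun a => a 1 < (p + 2) / 2 ∧ (p + 2) * 2 ^ (p + 2) ≤ a 0)).card = Y at *
  generalize (A + A + MM (p + 3) g).card = S at *
  generalize (A + B).card = T at *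
  generalize (MM (p + 3) (J + g)).card = N1 at *
  generalize (MM (p + 3) J).card = N0 at *
  generalize (MM (p + 2) (J + 1)).card = N' at *
  generalize (MM (p + 1) J).card = N'' at *
  generalize A.card = c at *
  generalize B.card = b at *
  have h8 : 8 ^ (p + 2) = 2 ^ (p + 2) * 2 ^ (p + 2) * 2 ^ (p + 2) := by
    rw [← mul_pow, ← mul_pow]
    norm_num
  rw [h8] at hJ
  have hP : 0 < 2 ^ (p + 2) := by positivity
  have hh : 2 * ((p + 2) / 2) ≤ p + 2 := by omega
  generalize (p + 2) / 2 = h at *
  generalize 2 ^ (p + 2) = P at *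
  rcases le_total (P * c) N' with h7 | h7
  · omega
  -- the small strip
  have hX : 2 * (P * X) ≤ c := by
    have e1 : 2 * X * (J + (p + 2)) ≤ (p + 2) ^ 2 * (p + 1) * P * (P * c) := by
      calc 2 * X * (J + (p + 2)) ≤ 2 * ((p + 2) * P * h * N'') * (J + (p + 2)) := by gcongr
        _ = (2 * h) * ((p + 2) * P) * (N'' * (J + (p + 2))) := by ring
        _ ≤ (p + 2) * ((p + 2) * P) * (N' * (p + 1)) := by gcongr
        _ ≤ (p + 2) * ((p + 2) * P) * ((P * c) * (p + 1)) := by gcongr
        _ = (p + 2) ^ 2 * (p + 1) * P * (P * c) := by ring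
    have e2 : 2 * X * ((p + 2) ^ 2 * (p + 1) * (P * P * P)) ≤
        (p + 2) ^ 2 * (p + 1) * P * (P * c) := le_trans (by gcongr) e1
    have e3 : ((p + 2) ^ 2 * (p + 1) * (P * P)) * (2 * (P * X)) ≤
        ((p + 2) ^ 2 * (p + 1) * (P * P)) * c := by
      calc _ = 2 * X * ((p + 2) ^ 2 * (p + 1) * (P * P * P)) := by ring
        _ ≤ _ := e2
        _ = _ := by ring
    exact Nat.le_of_mul_le_mul_left e3 (by positivity)
  have hY : 2 * (P * Y) ≤ c := by
    have e1 : (p + 2) * (2 * (P * Y)) ≤ (p + 2) * c := by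
      calc (p + 2) * (2 * (P * Y)) ≤ 2 * (((p + 2) * P + 1) * Y) := by nlinarith
        _ ≤ 2 * (h * c) := by gcongr
        _ = (2 * h) * c := by ring
        _ ≤ (p + 2) * c := by gcongr
    exact Nat.le_of_mul_le_mul_left e1 (by omega)
  have h9 : P * c = P * F + P * X + P * Y := by rw [h5]; ring
  omega

end Pool.Agent.FB
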