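import Pool.Agent.FB.LMX
import Pool.Agent.H80.FB.Count

/-!
Pairs of sets of exponent vectors `A` (degree `J`), `B` (degree `J + g`) with `A + M_g ⊆ B`:
simultaneous compression, and leading monomials of pairs of spaces.
-/

set_option autoImplicit false

namespace Pool.Agent.FB

open Finset MvPolynomial
open scoped Pointwise

open Pool.Agent.H21.Low (TT mem_TT card_TT LM mo finrank_le_of_LM card_le_finrank_of_LM LM_mem_TT)

/-- the potential of a compression does not increase -/
private theorem pot_compr_le {n : ℕ} {p q : Fin n} (hpq : p < q) {k : ℕ}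
    {A : Finset (Fin n → ℕ)} (hA : A ⊆ H73FR.Mon n k) :
    H73FR.pot (H73FR.compr p q k A) ≤ H73FR.pot A := by
  by_cases h : H73FR.compr p q k A = A
  · rw [h]
  · exact (H73FR.pot_compr_lt hpq hA h).le

/-- A pair of sets can be replaced by a pair of stable sets without raising `|A + B|`. -/
theorem exists_stable_pair {n J g : ℕ} {A B : Finset (Fin n → ℕ)} (hA : A ⊆ MM n J)
    (hB : B ⊆ MM n (J + g)) (hAB : A + MM n g ⊆ B) :
    ∃ A' B' : Finset (Fin n → ℕ), A' ⊆ MM n J ∧ B' ⊆ MM n (J + g) ∧ A'.card = A.card ∧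
      B'.card = B.card ∧ H80.FB.Stable A' ∧ H80.FB.Stable B' ∧ A' + MM n g ⊆ B' ∧
      (A' + B').card ≤ (A + B).card := by
  classical
  have hMM : ∀ e : ℕ, MM n e = H73FR.Mon n e := fun _ => rfl
  rw [hMM] at hA hB hAB
  let S := ((H73FR.Mon n J).powerset ×ˢ (H73FR.Mon n (J + g)).powerset).filter
    (fun P => P.1.card = A.card ∧ P.2.card = B.card ∧ P.1 + H73FR.Mon n g ⊆ P.2 ∧
      (P.1 + P.2).card ≤ (A + B).card)
  have hS : (A, B) ∈ S := by simp [S, hA, hB, hAB]
  obtain ⟨⟨A', B'⟩, hP, hmin⟩ := S.exists_min_image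
    (fun P => H73FR.pot P.1 + H73FR.pot P.2) ⟨(A, B), hS⟩
  simp only [S, mem_filter, mem_product, mem_powerset] at hP hmin
  obtain ⟨⟨hA', hB'⟩, hcA, hcB, hsub, hle⟩ := hP
  have key : ∀ p q : Fin n, p < q → H73FR.compr p q J A' = A' ∧
      H73FR.compr p q (J + g) B' = B' := by
    intro p q hpq
    have hne : p ≠ q := ne_of_lt hpq
    have h1 := pot_compr_le hpq hA'
    have h2 := pot_compr_le hpq hB'
    have h3 := hmin (H73FR.compr p q J A', H73FR.compr p q (J + g) B')
      ⟨⟨H73FR.compr_sub _ _ _ _, H73FR.compr_sub _ _ _ _⟩, by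
        rw [H73FR.card_compr hne hA', hcA], by rw [H73FR.card_compr hne hB', hcB], by
        calc H73FR.compr p q J A' + H73FR.Mon n g
            = H73FR.compr p q J A' + H73FR.compr p q g (H73FR.Mon n g) := by
              rw [H73FR.compr_Mon hne]
          _ ⊆ H73FR.compr p q (J + g) (A' + H73FR.Mon n g) :=
              H73FR.compr_add hne hA' (Subset.refl _)
          _ ⊆ _ := H73FR.compr_mono hsub, by
        refine (card_le_card (H73FR.compr_add hne hA' hB')).trans ?_
        rw [H73FR.card_compr hne (H73FR.add_sub_Mon hA' hB')]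
        exact hle⟩
    simp only at h3
    constructor
    · by_contra h
      have := H73FR.pot_compr_lt hpq hA' h
      omega
    · by_contra h
      have := H73FR.pot_compr_lt hpq hB' h
      omega
  exact ⟨A', B', hA', hB', hcA, hcB,
    H80.FB.stable_of (H73FR.stable_of_compr hA' fun p q hpq => (key p q hpq).1),
    H80.FB.stable_of (H73FR.stable_of_compr hB' fun p q hpq => (key p q hpq).2), hsub, hle⟩

/-- Leading monomials of a pair of spaces `K` (degree `J`), `L` (degree `J + g`), `S_g K ⊆ L`,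
`K L ⊆ Q`. -/
theorem finrank_pair_ge {F : Type} [Field F] {n J g D : ℕ}
    (K L Q : Submodule F (MvPolynomial (Fin n) F))
    (hK : K ≤ homogeneousSubmodule (Fin n) F J)
    (hL : L ≤ homogeneousSubmodule (Fin n) F (J + g))
    (hQ : Q ≤ homogeneousSubmodule (Fin n) F D)
    (hKL : ∀ k ∈ K, ∀ s ∈ homogeneousSubmodule (Fin n) F g, k * s ∈ L)
    (hKQ : ∀ k ∈ K, ∀ h ∈ L, k * h ∈ Q) :
    ∃ A B : Finset (Fin n → ℕ), A ⊆ MM n J ∧ B ⊆ MM n (J + g) ∧
      A.card = Module.finrank F K ∧ B.card = Module.finrank F L ∧ A + MM n g ⊆ B ∧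
      (A + B).card ≤ Module.finrank F Q := by
  classical
  have hfK : FiniteDimensional F K := Submodule.finiteDimensional_of_le hK
  have hfL : FiniteDimensional F L := Submodule.finiteDimensional_of_le hL
  have hfQ : FiniteDimensional F Q := Submodule.finiteDimensional_of_le hQ
  set A : Finset (Fin n →₀ ℕ) := (TT n J).filter (fun t => t ∈ LM K) with hA
  set B : Finset (Fin n →₀ ℕ) := (TT n (J + g)).filter (fun t => t ∈ LM L) with hB
  have hAK : A.card = Module.finrank F K := by
    apply le_antisymm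
    · exact card_le_finrank_of_LM K A fun t ht => (mem_filter.mp ht).2
    · exact finrank_le_of_LM K A fun t ht => mem_filter.mpr ⟨LM_mem_TT hK ht, ht⟩
  have hBL : B.card = Module.finrank F L := by
    apply le_antisymm
    · exact card_le_finrank_of_LM L B fun t ht => (mem_filter.mp ht).2
    · exact finrank_le_of_LM L B fun t ht => mem_filter.mpr ⟨LM_mem_TT hL ht, ht⟩
  refine ⟨A.image (cf n), B.image (cf n), ?_, ?_, ?_, ?_, ?_, ?_⟩
  · rw [MM_eq_image]
    exact image_subset_image (filter_subset _ _)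
  · rw [MM_eq_image]
    exact image_subset_image (filter_subset _ _)
  · rw [card_image_of_injective _ (cf_inj n), hAK]
  · rw [card_image_of_injective _ (cf_inj n), hBL]
  · rw [MM_eq_image, ← image_add]
    apply image_subset_image
    intro t ht
    obtain ⟨a, ha, c, hc, rfl⟩ := mem_add.mp ht
    obtain ⟨w, hw, hw0, rfl⟩ := (mem_filter.mp ha).2
    have hm0 : (monomial c (1 : F) : MvPolynomial (Fin n) F) ≠ 0 := by
      rw [Ne, monomial_eq_zero]
      exact one_ne_zero
    have hLM : (mo n).degree w + c ∈ LM L := by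
      refine ⟨w * monomial c 1, hKL w hw _ ?_, mul_ne_zero hw0 hm0, ?_⟩
      · rw [mem_homogeneousSubmodule]
        apply isHomogeneous_monomial
        rw [Finsupp.degree_eq_sum]
        exact mem_TT.mp hc
      · rw [MonomialOrder.degree_mul hw0 hm0, MonomialOrder.degree_monomial, if_neg one_ne_zero]
    exact mem_filter.mpr ⟨LM_mem_TT hL hLM, hLM⟩
  · rw [← image_add, card_image_of_injective _ (cf_inj n)]
    apply card_le_finrank_of_LM Q
    intro t ht
    obtain ⟨a, ha, b, hb, rfl⟩ := mem_add.mp ht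
    obtain ⟨w, hw, hw0, rfl⟩ := (mem_filter.mp ha).2
    obtain ⟨w', hw', hw0', rfl⟩ := (mem_filter.mp hb).2
    exact ⟨w * w', hKQ w hw w' hw', mul_ne_zero hw0 hw0', MonomialOrder.degree_mul hw0 hw0'⟩

end Pool.Agent.FB
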