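import Pool.Agent.FB.Final
import Pool.Agent.FB.Pair
import Pool.Agent.FB.Near

/-!
Fröberg's formula in all degrees `< 2 d` for every number of forms of degree `d ≥ d₀(n)`.
-/

set_option autoImplicit false

namespace Pool.Agent.FB

open MvPolynomial Pool.Agent.H21
open Pool.Agent.H21.Low (TT mem_TT)
open scoped Pointwise

/-- The generic forms have no relations in degree `J + d` if there are less than `2 ^ (n - 1)` of
them and `J` is large (`core2`, `finrank_pair_ge`, `exists_stable_pair`, `near_stable`). -/
theorem genW_near {p d U J : ℕ} (hJd : J < d)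
    (hJ : (p + 2) ^ 2 * (p + 1) * 8 ^ (p + 2) ≤ J + (p + 2)) (hU : U < 2 ^ (p + 2)) :
    U * dimS (p + 3) J ≤ Module.finrank (FF (p + 3) d U) (genW (p + 3) d U J) := by
  have hn : 1 ≤ p + 3 := by omega
  have hcard : ∀ e : ℕ, dimS (p + 3) e = (MM (p + 3) e).card := fun e => by
    rw [card_MM_finrank (FF (p + 3) d U), dimS_finrank hn]
  obtain ⟨g, hg, rfl⟩ : ∃ g, 1 ≤ g ∧ d = J + g := ⟨d - J, by omega, by omega⟩
  rcases Nat.lt_or_ge (Module.finrank (FF (p + 3) (J + g) U) (genW (p + 3) (J + g) U J))
    (U * Module.finrank (FF (p + 3) (J + g) U)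
      (homogeneousSubmodule (Fin (p + 3)) (FF (p + 3) (J + g) U) J)) with hlt | hge
  · exfalso
    obtain ⟨K, Kd, Q, hK, hKd, hQ, hK0, h1, h2, h3, h4⟩ := core2 (by omega) hlt
    rw [show J + g - J = g by omega] at h1
    obtain ⟨A, B, hA, hB, hAK, hBK, hAB, hABQ⟩ := finrank_pair_ge K Kd Q hK hKd hQ h1 h2
    obtain ⟨A', B', hA', hB', hcA, hcB, hst, -, hAB', hle⟩ := exists_stable_pair hA hB hAB
    have hfK : FiniteDimensional (FF (p + 3) (J + g) U) K :=
      Submodule.finiteDimensional_of_le hK
    have hpos : 0 < Module.finrank (FF (p + 3) (J + g) U) K := by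
      rcases Nat.eq_zero_or_pos (Module.finrank (FF (p + 3) (J + g) U) K) with h0 | h0
      · exact absurd (Submodule.finrank_eq_zero.mp h0) hK0
      · exact h0
    have hne : A'.Nonempty := by
      rw [← Finset.card_pos, hcA, hAK]
      exact hpos
    have hKle : Module.finrank (FF (p + 3) (J + g) U) K ≤ dimS (p + 3) J := by
      rw [← hAK, hcard]
      exact Finset.card_le_card hA
    rw [dimS_finrank hn, dimS_finrank hn] at h3
    rw [dimS_finrank hn] at h4 hlt
    have h5 := near_stable hg hJ hA' hst hne hAB' (by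
      rw [← hcard, ← hcard, hcA, hcB, hAK, hBK]
      omega)
    rw [hcA, hAK] at h5
    generalize Module.finrank (FF (p + 3) (J + g) U) K = c at *
    generalize Module.finrank (FF (p + 3) (J + g) U) Q = x at *
    generalize Module.finrank (FF (p + 3) (J + g) U) (genW (p + 3) (J + g) U J) = w at *
    generalize dimS (p + 3) J = N at *
    obtain ⟨e, rfl⟩ := Nat.exists_eq_add_of_le hKle
    rw [show c + e - c = e by omega] at h4
    have h6 : (U + 1) * c ≤ 2 ^ (p + 2) * c := Nat.mul_le_mul_right _ hU
    have h7 : U * (c + e) = U * c + U * e := by ring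
    have h8 : (U + 1) * c = U * c + c := by ring
    omega
  · rw [dimS_finrank hn] at hge
    exact hge

/-- The generic forms have maximal rank in all degrees `< 2 d`, if `d` is large. -/
theorem genW_max3 {n d U J : ℕ} (hn : 1 ≤ n) (hJd : J < d)
    (hd : (n - 1) ^ 2 * (n - 2) * 8 ^ (n - 1) ≤ d) :
    min (dimS n (J + d)) (U * dimS n J) ≤ Module.finrank (FF n d U) (genW n d U J) := by
  rcases Nat.lt_or_ge U (2 ^ (n - 1)) with hU | hU
  · rcases Nat.lt_or_ge (2 * (d - J)) n with hg | hg
    · obtain ⟨p, rfl⟩ : ∃ p, n = p + 3 := ⟨n - 3, by omega⟩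
      rw [show p + 3 - 1 = p + 2 by omega] at hd hU
      rw [show p + 3 - 2 = p + 1 by omega] at hd
      exact (min_le_right _ _).trans (genW_near hJd (by omega) hU)
    · refine genW_max hn hJd.le (Or.inl ?_)
      have h1 := num_half (n := n) (J := J) (g := d - J) hn hg
      rw [show 2 * J + (d - J) = J + d by omega] at h1
      exact h1
  · exact genW_max hn hJd.le (Or.inr hU)

/-- Good forms over the rationals from generic forms. -/
theorem exists_rat_gen {n d J s : ℕ}
    (hmax : min (dimS n (J + d)) (s * dimS n J) ≤ Module.finrank (FF n d s) (genW n d s J)) :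
    ∃ V : Submodule ℚ (MvPolynomial (Fin n) ℚ), V ≤ homogeneousSubmodule (Fin n) ℚ d ∧
      Module.finrank ℚ V ≤ s ∧
      min (dimS n (J + d)) (s * dimS n J) ≤ Module.finrank ℚ (prodSpan J V) := by
  classical
  let u : Fin s × ↥(TT n J) → MvPolynomial (Fin n) (MvPolynomial (CV n d s) ℚ) :=
    fun x => monomial x.2.1 1 * gen0 n d s x.1
  obtain ⟨e, he⟩ := spec u
  set V := Submodule.span ℚ (Set.range fun i => MvPolynomial.map (MvPolynomial.eval e)
    (gen0 n d s i)) with hV
  have hVd : V ≤ homogeneousSubmodule (Fin n) ℚ d := by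
    rw [hV, Submodule.span_le]
    rintro _ ⟨i, rfl⟩
    rw [SetLike.mem_coe, mem_homogeneousSubmodule]
    exact (gen0_homogeneous n d s i).map _
  refine ⟨V, hVd, ?_, ?_⟩
  · have h1 := finrank_range_le_card (R := ℚ)
      (fun i => MvPolynomial.map (MvPolynomial.eval e) (gen0 n d s i))
    rw [Fintype.card_fin] at h1
    exact h1
  · refine hmax.trans ?_
    have hfin : FiniteDimensional ℚ (prodSpan J V) :=
      Submodule.finiteDimensional_of_le (prodSpan_le hVd)
    have h1 : Module.finrank (FF n d s) (genW n d s J) ≤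
        Module.finrank (FF n d s) (Submodule.span (FF n d s) (Set.range fun x =>
          MvPolynomial.map (algebraMap (MvPolynomial (CV n d s) ℚ) (FF n d s)) (u x))) := by
      have hfin' : FiniteDimensional (FF n d s) (Submodule.span (FF n d s) (Set.range fun x =>
          MvPolynomial.map (algebraMap (MvPolynomial (CV n d s) ℚ) (FF n d s)) (u x))) :=
        FiniteDimensional.span_of_finite _ (Set.finite_range _)
      apply Submodule.finrank_mono
      unfold genW prodSpan
      rw [Submodule.span_le]
      rintro _ ⟨f, hf, v, hv, rfl⟩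
      have hf' := (mem_homogeneousSubmodule _ _).mp hf
      refine Submodule.span_induction ?_ ?_ ?_ ?_ hv
      · rintro _ ⟨i, rfl⟩
        change f * gen n d s i ∈ _
        rw [f.as_sum, Finset.sum_mul]
        apply Submodule.sum_mem
        intro t ht
        have h3 : t ∈ TT n J := by
          rw [mem_TT, ← Finsupp.degree_eq_sum]
          by_contra h4
          exact (mem_support_iff.mp ht) (hf'.coeff_eq_zero h4)
        have h4 : monomial t (coeff t f) * gen n d s i = (coeff t f) •
            MvPolynomial.map (algebraMap (MvPolynomial (CV n d s) ℚ) (FF n d s))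
              (u (i, ⟨t, h3⟩)) := by
          simp only [u]
          rw [map_mul, map_monomial, map_one, ← smul_mul_assoc, smul_monomial, smul_eq_mul,
            mul_one]
          rfl
        rw [h4]
        exact Submodule.smul_mem _ _ (Submodule.subset_span ⟨_, rfl⟩)
      · change f * 0 ∈ _
        rw [mul_zero]
        exact Submodule.zero_mem _
      · intro x y _ _ hx hy
        change f * (x + y) ∈ _
        rw [mul_add]
        exact Submodule.add_mem _ hx hy
      · intro c x _ hx
        change f * (c • x) ∈ _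
        rw [mul_smul_comm]
        exact Submodule.smul_mem _ c hx
    refine h1.trans (he.trans ?_)
    apply Submodule.finrank_mono
    rw [Submodule.span_le]
    rintro _ ⟨x, rfl⟩
    simp only [u]
    rw [map_mul, map_monomial]
    apply mul_mem_prodSpan
    · rw [mem_homogeneousSubmodule]
      apply isHomogeneous_monomial
      rw [Finsupp.degree_eq_sum]
      exact mem_TT.mp x.2.2
    · exact Submodule.subset_span ⟨x.1, rfl⟩

section

variable {K : Type} [Field K] [CharZero K]

/-- Good forms over any field of characteristic `0`. -/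
theorem exists_low_gen {n d j u : ℕ}
    (hmax : min (dimS n (j + d)) (u * dimS n j) ≤ Module.finrank (FF n d u) (genW n d u j))
    (hu : u ≤ Module.finrank K (homogeneousSubmodule (Fin n) K d)) :
    ∃ V : Submodule K (MvPolynomial (Fin n) K), V ≤ homogeneousSubmodule (Fin n) K d ∧
      Module.finrank K V = u ∧
      min (dimS n (j + d)) (u * dimS n j) ≤ Module.finrank K (prodSpan j V) := by
  obtain ⟨V₀, hV1, hV2, hV3⟩ := exists_rat_gen (s := u) hmax
  have hfV₀ : FiniteDimensional ℚ V₀ := Submodule.finiteDimensional_of_le hV1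
  have h4 : Module.finrank K (bc (K := K) V₀) ≤ u := (finrank_bc_le V₀).trans hV2
  obtain ⟨V, hVV, hVd, hVu⟩ := exists_extend (homogeneousSubmodule (Fin n) K d) u hu
    (bc (K := K) V₀) (bc_le_homogeneous hV1) h4
  refine ⟨V, hVd, hVu, hV3.trans ?_⟩
  have hfin : FiniteDimensional K (prodSpan j V) :=
    Submodule.finiteDimensional_of_le (prodSpan_le hVd)
  exact (finrank_bc_ge (K := K) (prodSpan_le (e := j) hV1)).trans
    (Submodule.finrank_mono ((bc_prodSpan_le V₀).trans (prodSpan_mono hVV)))

/-- Fröberg's formula in degree `d + j < 2 d` from the maximal rank of generic forms. -/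
theorem froberg_low_gen {n d j u : ℕ} (hn : 1 ≤ n) (hjd : j < d)
    (hmax : min (dimS n (j + d)) (u * dimS n j) ≤ Module.finrank (FF n d u) (genW n d u j))
    (hu : u ≤ Module.finrank K (homogeneousSubmodule (Fin n) K d)) : FrobergAt K n d u j := by
  have hd : 1 ≤ d := by omega
  have hser := ser_low (n := n) hd hjd u
  unfold FrobergAt
  rw [dimS_finrank hn]
  rcases Nat.lt_or_ge (dimS n (j + d)) (u * dimS n j) with hlt | hge
  · -- everything is generated
    have hc0 : truncCoeff n d u (j + d) = 0 := by
      unfold truncCoeff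
      rw [if_neg]
      intro h
      have h1 := h (j + d) le_rfl
      rw [hser] at h1
      have h2 : ((dimS n (j + d) : ℕ) : ℤ) < ((u * dimS n j : ℕ) : ℤ) := by exact_mod_cast hlt
      push_cast at h2
      linarith
    rw [hc0, sub_zero]
    constructor
    · intro V hV _
      have h1 := Submodule.finrank_mono (prodSpan_le (e := j) hV)
      rw [dimS_finrank hn] at h1
      exact_mod_cast h1
    · obtain ⟨V, hV1, hV2, hV3⟩ := exists_low_gen (K := K) hmax hu
      refine ⟨V, hV1, hV2, ?_⟩
      have h1 := Submodule.finrank_mono (prodSpan_le (e := j) hV1)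
      rw [dimS_finrank hn] at h1
      have h2 : Module.finrank K (prodSpan j V) = dimS n (j + d) := by
        rw [min_eq_left hlt.le] at hV3
        omega
      rw [h2]
  · -- no relations
    have hc : truncCoeff n d u (j + d) = (dimS n (j + d) : ℤ) - (u : ℤ) * (dimS n j : ℤ) := by
      unfold truncCoeff
      rw [if_pos, hser]
      intro m hm
      rcases Nat.lt_or_ge m d with hmd | hmd
      · rw [ser_small hd m hmd, fc_zero]
        exact Nat.cast_nonneg _
      · obtain ⟨e, rfl⟩ : ∃ e, m = e + d := ⟨m - d, by omega⟩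
        rw [ser_low hd (by omega)]
        have h1 := dimS_ratio (n := n) (d := d) hn (show e ≤ j by omega)
        have h2 : u * dimS n e ≤ dimS n (e + d) := by
          have h3 : (u * dimS n e) * dimS n j ≤ dimS n (e + d) * dimS n j := by
            calc (u * dimS n e) * dimS n j = (u * dimS n j) * dimS n e := by ring
              _ ≤ dimS n (j + d) * dimS n e := Nat.mul_le_mul_right _ hge
              _ ≤ _ := h1
          exact Nat.le_of_mul_le_mul_right h3 dimS_pos
        have h3 : ((u * dimS n e : ℕ) : ℤ) ≤ ((dimS n (e + d) : ℕ) : ℤ) := by exact_mod_cast h2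
        push_cast at h3
        linarith
    rw [hc]
    have hval : ((dimS n (j + d) : ℕ) : ℤ) - ((dimS n (j + d) : ℤ) - (u : ℤ) * (dimS n j : ℤ)) =
        ((u * dimS n j : ℕ) : ℤ) := by
      push_cast
      ring
    rw [hval]
    constructor
    · intro V hV hVu
      have h1 := finrank_prodSpan_mul_le (e := j) hV hVu
      rw [dimS_finrank hn] at h1
      exact_mod_cast h1
    · obtain ⟨V, hV1, hV2, hV3⟩ := exists_low_gen (K := K) hmax hu
      refine ⟨V, hV1, hV2, ?_⟩
      have h1 := finrank_prodSpan_mul_le (e := j) hV1 hV2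
      rw [dimS_finrank hn] at h1
      have h2 : Module.finrank K (prodSpan j V) = u * dimS n j := by
        rw [min_eq_right hge] at hV3
        omega
      rw [h2]

end

section

variable {K : Type} [Field K] [CharZero K]

/-- **Fröberg's formula in all degrees `< 2 d`**, for every number `u` of forms of degree
`d ≥ (n - 1) ^ 2 (n - 2) 8 ^ (n - 1)` in `n` variables. -/
theorem froberg_low3 {n d j u : ℕ} (hn : 1 ≤ n) (hjd : j < d)
    (hd : (n - 1) ^ 2 * (n - 2) * 8 ^ (n - 1) ≤ d)
    (hu : u ≤ Module.finrank K (homogeneousSubmodule (Fin n) K d)) : FrobergAt K n d u j :=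
  froberg_low_gen hn hjd (genW_max3 hn hjd hd) hu

end

end Pool.Agent.FB
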