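import Pool.Agent.FB.Polya3

/-!
Stable pairs `A` (degree `J`), `B` (degree `J + g`), `|B^c| ≤ |A^c|`: the density of `A + B` is at
least the density of `A`, if `2 (n + J) |M_J| ≤ n |M_{J+g}|`, in particular if `2 J + 2 ≤ n`
(Pólya urn, correlation inequality, spectral gap).
-/

set_option autoImplicit false

namespace Pool.Agent.FB.Polya

open Finset
open scoped Pointwise
open H80.FB (ee)

variable {n : ℕ}

/-- the weight of a pair of sets -/
noncomputable def SS (X Y : Finset (Fin n → ℕ)) : ℝ := ∑ a ∈ X, ∑ y ∈ Y, W a y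

theorem SS_comm (X Y : Finset (Fin n → ℕ)) : SS X Y = SS Y X := by
  unfold SS
  rw [sum_comm]
  apply sum_congr rfl
  intro a _
  apply sum_congr rfl
  intro b _
  rw [W_comm]

/-- the indicator -/
noncomputable def I1 (X : Finset (Fin n → ℕ)) (a : Fin n → ℕ) : ℝ := by
  classical
  exact if a ∈ X then 1 else 0

theorem I1_of {X : Finset (Fin n → ℕ)} {a : Fin n → ℕ} (h : a ∈ X) : I1 X a = 1 := by
  simp [I1, h]

theorem I1_not {X : Finset (Fin n → ℕ)} {a : Fin n → ℕ} (h : a ∉ X) : I1 X a = 0 := by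
  simp [I1, h]

theorem I1_nonneg (X : Finset (Fin n → ℕ)) (a : Fin n → ℕ) : 0 ≤ I1 X a := by
  by_cases h : a ∈ X
  · rw [I1_of h]
    exact zero_le_one
  · rw [I1_not h]

theorem I1_le_one (X : Finset (Fin n → ℕ)) (a : Fin n → ℕ) : I1 X a ≤ 1 := by
  by_cases h : a ∈ X
  · rw [I1_of h]
  · rw [I1_not h]
    exact zero_le_one

theorem sum_I1 {k : ℕ} {X : Finset (Fin n → ℕ)} (hX : X ⊆ MM n k) (f : (Fin n → ℕ) → ℝ) :
    ∑ a ∈ MM n k, I1 X a * f a = ∑ a ∈ X, f a := by
  rw [← sum_subset hX]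
  · apply sum_congr rfl
    intro a ha
    rw [I1_of ha, one_mul]
  · intro a _ ha
    rw [I1_not ha, zero_mul]

theorem sum_I1' {k : ℕ} {X : Finset (Fin n → ℕ)} (hX : X ⊆ MM n k) :
    ∑ a ∈ MM n k, I1 X a = (X.card : ℝ) := by
  have h := sum_I1 hX (fun _ => 1)
  simp only [mul_one] at h
  rw [h, sum_const, nsmul_eq_mul, mul_one]

theorem SS_eq {J K : ℕ} {X Y : Finset (Fin n → ℕ)} (hX : X ⊆ MM n J) (hY : Y ⊆ MM n K) :
    S J K (I1 X) (I1 Y) = SS X Y := by
  unfold S SS
  rw [← sum_I1 hX]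
  apply sum_congr rfl
  intro a _
  rw [← sum_I1 hY, mul_sum]
  apply sum_congr rfl
  intro b _
  ring

/-- the gap for a set -/
theorem gap_set (hn : 1 ≤ n) {J : ℕ} {A : Finset (Fin n → ℕ)} (hA : A ⊆ MM n J) :
    kap n J J * n * A.card * ((MM n J \ A).card : ℝ) ≤
      ((MM n J).card : ℝ) * SS (MM n J \ A) A * (J + n) := by
  classical
  set N : ℝ := ((MM n J).card : ℝ) with hN
  set α : ℝ := (A.card : ℝ) with hα
  set P := MM n J \ A with hP
  have hPJ : P ⊆ MM n J := sdiff_subset
  have hPc : (P.card : ℝ) = N - α := by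
    rw [hN, hα, hP, card_sdiff_of_subset hA, Nat.cast_sub (card_le_card hA)]
  have hIP : ∀ a ∈ MM n J, I1 P a = 1 - I1 A a := by
    intro a ha
    by_cases h : a ∈ A
    · rw [I1_of h, I1_not (by rw [hP, mem_sdiff]; tauto)]
      ring
    · rw [I1_not h, I1_of (by rw [hP, mem_sdiff]; exact ⟨ha, h⟩)]
      ring
  set g : (Fin n → ℕ) → ℝ := fun a => N * I1 A a - α with hg
  have h0 : ∑ a ∈ MM n J, g a = 0 := by
    simp only [hg]
    rw [sum_sub_distrib, ← mul_sum, sum_I1' hA, sum_const, nsmul_eq_mul]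
    ring
  have h1 := gap hn J g h0
  have h2 : ∑ a ∈ MM n J, (g a) ^ 2 = N * α * (N - α) := by
    have h3 : ∀ a ∈ MM n J, (g a) ^ 2 = (N ^ 2 - 2 * N * α) * I1 A a + α ^ 2 := by
      intro a _
      simp only [hg]
      by_cases h : a ∈ A
      · rw [I1_of h]
        ring
      · rw [I1_not h]
        ring
    rw [sum_congr rfl h3, sum_add_distrib, ← mul_sum, sum_I1' hA, sum_const, nsmul_eq_mul]
    ring
  have h3 : S J J g g = N * kap n J J * α * (N - α) - N ^ 2 * SS P A := by
    have h4 : S J J g g = N ^ 2 * S J J (I1 A) (I1 A) - N * α * S J J (I1 A) (fun _ => 1) -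
        α * N * S J J (fun _ => 1) (I1 A) +
        α ^ 2 * S J J (fun _ : Fin n → ℕ => (1 : ℝ)) (fun _ => 1) := by
      unfold S
      simp only [mul_sum, ← sum_sub_distrib, ← sum_add_distrib]
      apply sum_congr rfl
      intro a _
      apply sum_congr rfl
      intro b _
      simp only [hg]
      ring
    have h5 : S J J (I1 P) (I1 A) = S J J (fun _ => 1) (I1 A) - S J J (I1 A) (I1 A) := by
      unfold S
      rw [← sum_sub_distrib]
      apply sum_congr rfl
      intro a ha
      rw [← sum_sub_distrib, hIP a ha]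
      apply sum_congr rfl
      intro b _
      ring
    rw [SS_eq hPJ hA] at h5
    rw [S_comm J J (fun _ => 1) (I1 A), S_one, sum_I1' hA] at h5
    rw [S_comm J J (fun _ => 1) (I1 A), S_one, S_one, sum_I1' hA, sum_const, nsmul_eq_mul,
      mul_one] at h4
    have h6 : S J J (I1 A) (I1 A) = kap n J J * α - SS P A := by linarith
    rw [h4, h6]
    ring
  rw [h2, h3] at h1
  have hNpos : 0 < N ∨ N = 0 := by
    rcases (Nat.cast_nonneg (α := ℝ) (MM n J).card).lt_or_eq with h | h
    · exact Or.inl h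
    · exact Or.inr h.symm
  rw [hPc]
  rcases hNpos with hpos | hzero
  · have h4 : N * (kap n J J * n * α * (N - α)) ≤ N * (N * SS P A * (J + n)) := by nlinarith
    exact le_of_mul_le_mul_left h4 hpos
  · have hα0 : α = 0 := by
      have h5 : α ≤ N := by
        rw [hα, hN]
        exact_mod_cast card_le_card hA
      have h6 : 0 ≤ α := Nat.cast_nonneg _
      linarith
    rw [hα0, hzero]
    simp

/-- the three block identity -/
theorem three_block (J g : ℕ) (h : (Fin n → ℕ) → ℝ) :
    ((J + g).choose J : ℝ) * (((J + (J + g)).choose J : ℝ) * ∑ x ∈ MM n (J + (J + g)), h x) =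
      ∑ a ∈ MM n J, ∑ a' ∈ MM n J, ∑ s ∈ MM n g, W a' s * W a (a' + s) * h (a + (a' + s)) := by
  rw [← two_block J (J + g) h, mul_sum]
  apply sum_congr rfl
  intro a _
  have h1 := two_block J g (fun y => W a y * h (a + y))
  rw [← h1]
  apply sum_congr rfl
  intro a' _
  apply sum_congr rfl
  intro s _
  ring

theorem three_sym (a a' s : Fin n → ℕ) : W a' s * W a (a' + s) = W a s * W a' (a + s) := by
  have h1 := W_assoc a a' s
  have h2 := W_assoc a' a s
  rw [W_comm a' a, add_comm a' a] at h2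
  linarith

theorem kap_kap (hn : 1 ≤ n) (J g : ℕ) :
    kap n (J + J) g * kap n J J = ((J + g).choose J : ℝ) * kap n J (J + g) := by
  obtain ⟨a, ha⟩ : (MM n J).Nonempty := by
    rw [← card_pos, card_MM hn]
    exact Nat.choose_pos (by omega)
  have h1 := two_block J g (fun y => W a y)
  rw [sum_W ha] at h1
  rw [← h1, ← sum_W ha J, mul_sum]
  apply sum_congr rfl
  intro a' ha'
  have h2 : a + a' ∈ MM n (J + J) := H80.FB.add_mem ha ha'
  rw [← sum_W h2 g, sum_mul]
  apply sum_congr rfl
  intro s _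
  have h3 := W_assoc a a' s
  linarith

/-- the density of the sum, in terms of the weights -/
theorem sum_lower {J g : ℕ} {A B : Finset (Fin n → ℕ)} (hA : A ⊆ MM n J)
    (hB : B ⊆ MM n (J + g)) :
    ((J + g).choose J : ℝ) * (SS A B - SS A (MM n (J + g) \ B)) +
      kap n (J + J) g * SS (MM n J \ A) A ≤
    ((J + g).choose J : ℝ) * (((J + (J + g)).choose J : ℝ) * ((A + B).card : ℝ)) := by
  classical
  set P := MM n J \ A with hP
  set Q := MM n (J + g) \ B with hQ
  have hPJ : P ⊆ MM n J := sdiff_subset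
  have hQJ : Q ⊆ MM n (J + g) := sdiff_subset
  have hABs : A + B ⊆ MM n (J + (J + g)) := by
    intro x hx
    obtain ⟨a, ha, b, hb, rfl⟩ := mem_add.1 hx
    exact H80.FB.add_mem (hA ha) (hB hb)
  rw [← sum_I1' hABs, three_block]
  have hpt : ∀ a ∈ MM n J, ∀ a' ∈ MM n J, ∀ s ∈ MM n g,
      W a' s * W a (a' + s) * (I1 A a * I1 B (a' + s)) +
        (W a a' * W (a + a') s * (I1 P a * I1 A a') -
          W a s * W a' (a + s) * (I1 A a' * I1 Q (a + s))) ≤
      W a' s * W a (a' + s) * I1 (A + B) (a + (a' + s)) := by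
    intro a ha a' ha' s hs
    have hw : 0 < W a' s * W a (a' + s) := mul_pos (W_pos _ _) (W_pos _ _)
    have e1 : W a a' * W (a + a') s = W a' s * W a (a' + s) := by
      rw [W_assoc, mul_comm]
    have e2 := three_sym a a' s
    rw [e1, ← e2]
    have h1 : I1 A a * I1 B (a' + s) + (I1 P a * I1 A a' - I1 A a' * I1 Q (a + s)) ≤
        I1 (A + B) (a + (a' + s)) := by
      by_cases haA : a ∈ A
      · have haP : a ∉ P := by
          rw [hP, mem_sdiff]
          tauto
        rw [I1_of haA, I1_not haP, one_mul, zero_mul]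
        have h2 : 0 ≤ I1 A a' * I1 Q (a + s) := mul_nonneg (I1_nonneg _ _) (I1_nonneg _ _)
        by_cases h3 : a' + s ∈ B
        · rw [I1_of h3, I1_of (add_mem_add haA h3)]
          linarith
        · rw [I1_not h3]
          have := I1_nonneg (A + B) (a + (a' + s))
          linarith
      · have haP : a ∈ P := by
          rw [hP, mem_sdiff]
          exact ⟨ha, haA⟩
        rw [I1_not haA, I1_of haP, zero_mul, one_mul, zero_add]
        by_cases h2 : a' ∈ A
        · rw [I1_of h2, one_mul]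
          have h3 : a + s ∈ MM n (J + g) := H80.FB.add_mem ha hs
          by_cases h4 : a + s ∈ B
          · have h5 : a + (a' + s) = a' + (a + s) := by abel
            rw [h5, I1_of (add_mem_add h2 h4)]
            have := I1_nonneg Q (a + s)
            linarith
          · have h5 : a + s ∈ Q := by
              rw [hQ, mem_sdiff]
              exact ⟨h3, h4⟩
            rw [I1_of h5]
            have := I1_nonneg (A + B) (a + (a' + s))
            linarith
        · rw [I1_not h2, zero_mul, sub_zero]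
          exact I1_nonneg _ _
    nlinarith
  have hsum := sum_le_sum fun a ha => sum_le_sum fun a' ha' => sum_le_sum fun s hs =>
    hpt a ha a' ha' s hs
  refine le_trans (le_of_eq ?_) hsum
  simp only [sum_add_distrib, sum_sub_distrib]
  have t1 : ∑ a ∈ MM n J, ∑ a' ∈ MM n J, ∑ s ∈ MM n g,
      W a' s * W a (a' + s) * (I1 A a * I1 B (a' + s)) = ((J + g).choose J : ℝ) * SS A B := by
    rw [← SS_eq hA hB, S, mul_sum]
    apply sum_congr rfl
    intro a _
    have h1 := two_block J g (fun y => W a y * (I1 A a * I1 B y))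
    rw [← h1]
    apply sum_congr rfl
    intro a' _
    apply sum_congr rfl
    intro s _
    ring
  have t2 : ∑ a ∈ MM n J, ∑ a' ∈ MM n J, ∑ s ∈ MM n g,
      W a a' * W (a + a') s * (I1 P a * I1 A a') = kap n (J + J) g * SS P A := by
    rw [← SS_eq hPJ hA, S, mul_sum]
    apply sum_congr rfl
    intro a ha
    rw [mul_sum]
    apply sum_congr rfl
    intro a' ha'
    have h2 : a + a' ∈ MM n (J + J) := H80.FB.add_mem ha ha'
    rw [← sum_W h2 g, sum_mul]
    apply sum_congr rfl
    intro s _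
    ring
  have t3 : ∑ a ∈ MM n J, ∑ a' ∈ MM n J, ∑ s ∈ MM n g,
      W a s * W a' (a + s) * (I1 A a' * I1 Q (a + s)) = ((J + g).choose J : ℝ) * SS A Q := by
    rw [← SS_eq hA hQJ, S, mul_sum, sum_comm]
    apply sum_congr rfl
    intro a _
    have h1 := two_block J g (fun y => W a y * (I1 A a * I1 Q y))
    rw [← h1]
    apply sum_congr rfl
    intro a' _
    apply sum_congr rfl
    intro s _
    ring
  rw [t1, t2, t3]
  ring

/-- **The density inequality for stable pairs.** -/
theorem polya_pair {J g : ℕ} (hn1 : 1 ≤ n)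
    (hcond : 2 * (n + J) * (MM n J).card ≤ n * (MM n (J + g)).card) {A B : Finset (Fin n → ℕ)}
    (hA : A ⊆ MM n J) (hB : B ⊆ MM n (J + g)) (hsA : H80.FB.Stable A) (hsB : H80.FB.Stable B)
    (hc : (MM n (J + g)).card + A.card ≤ B.card + (MM n J).card) :
    (MM n (J + (J + g))).card * A.card ≤ (MM n J).card * (A + B).card := by
  classical
  have hN0 : 0 < (MM n J).card := by
    rw [card_MM hn1]
    exact Nat.choose_pos (by omega)
  have hg : g ≠ 0 := by
    rintro rfl
    rw [Nat.add_zero] at hcond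
    have h1 : n < 2 * (n + J) := by omega
    have h2 := Nat.mul_lt_mul_of_pos_right h1 hN0
    omega
  obtain ⟨g, rfl⟩ : ∃ g', g = g' + 1 := ⟨g - 1, by omega⟩
  set P := MM n J \ A with hP
  set Q := MM n (J + (g + 1)) \ B with hQ
  have hQJ : Q ⊆ MM n (J + (g + 1)) := sdiff_subset
  have h1 := sum_lower hA hB
  have h2 : kap n J (J + (g + 1)) * (A.card : ℝ) = SS A B + SS A Q := by
    have h3 : SS A B + SS A Q = ∑ a ∈ A, ∑ y ∈ MM n (J + (g + 1)), W a y := by
      unfold SS
      rw [← sum_add_distrib]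
      apply sum_congr rfl
      intro a _
      rw [hQ, add_comm, sum_sdiff hB]
    rw [h3, sum_congr rfl fun a ha => sum_W (hA ha) (J + (g + 1)), sum_const, nsmul_eq_mul]
    ring
  have h3 : SS A Q * ((MM n J).card : ℝ) ≤ kap n (J + (g + 1)) J * (Q.card : ℝ) * (A.card : ℝ) := by
    have h4 := cheb hA hsA (fun a => ∑ y ∈ Q, W a y)
      (fun a => sum_nonneg fun y _ => (W_pos a y).le) (by
        intro z p q hpq _
        exact weight_moves (d := J + g) hsB z hpq)
    refine h4.trans (le_of_eq ?_)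
    congr 1
    rw [sum_comm]
    have h5 : ∀ y ∈ Q, ∑ a ∈ MM n J, W a y = kap n (J + (g + 1)) J := by
      intro y hy
      rw [← sum_W (hQJ hy) J]
      apply sum_congr rfl
      intro a _
      exact W_comm _ _
    rw [sum_congr rfl h5, sum_const, nsmul_eq_mul]
    ring
  have h4 := gap_set hn1 hA
  have h5 := kap_kap hn1 J (g + 1)
  have h6 : ((MM n J).card : ℝ) * kap n J (J + (g + 1)) =
      ((J + (J + (g + 1))).choose J : ℝ) * ((MM n (J + (J + (g + 1)))).card : ℝ) := by
    have h7 := two_block J (J + (g + 1)) (fun _ : Fin n → ℕ => (1 : ℝ))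
    simp only [mul_one] at h7
    rw [sum_congr rfl fun a ha => sum_W ha (J + (g + 1)), sum_const, nsmul_eq_mul, sum_const,
      nsmul_eq_mul, mul_one] at h7
    exact h7
  have h7 : ((MM n J).card : ℝ) * kap n J (J + (g + 1)) =
      ((MM n (J + (g + 1))).card : ℝ) * kap n (J + (g + 1)) J := by
    have h8 := S_one J (J + (g + 1)) (fun _ : Fin n → ℕ => (1 : ℝ))
    have h9 := S_one (J + (g + 1)) J (fun _ : Fin n → ℕ => (1 : ℝ))
    rw [S_comm, h9, sum_const, sum_const, nsmul_eq_mul, nsmul_eq_mul, mul_one, mul_one] at h8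
    linarith
  have h8 : 2 * ((n : ℝ) + J) * ((MM n J).card : ℝ) ≤ n * ((MM n (J + (g + 1))).card : ℝ) := by
    exact_mod_cast hcond
  have hPc : (P.card : ℝ) = ((MM n J).card : ℝ) - A.card := by
    rw [hP, card_sdiff_of_subset hA, Nat.cast_sub (card_le_card hA)]
  have hQc : (Q.card : ℝ) = ((MM n (J + (g + 1))).card : ℝ) - B.card := by
    rw [hQ, card_sdiff_of_subset hB, Nat.cast_sub (card_le_card hB)]
  have hQP : (Q.card : ℝ) ≤ P.card := by
    rw [hPc, hQc]
    have : ((MM n (J + (g + 1))).card : ℝ) + A.card ≤ B.card + (MM n J).card := by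
      exact_mod_cast hc
    linarith
  have hNpos : (0 : ℝ) < ((MM n J).card : ℝ) := by exact_mod_cast hN0
  have hk1 := kap_pos hn1 J (J + (g + 1))
  have hk2 := kap_pos hn1 (J + (g + 1)) J
  have hk3 := kap_pos hn1 (J + J) (g + 1)
  have hC1 : (0 : ℝ) < ((J + (g + 1)).choose J : ℝ) := by
    exact_mod_cast Nat.choose_pos (by omega : J ≤ J + (g + 1))
  have hC2 : (0 : ℝ) < ((J + (J + (g + 1))).choose J : ℝ) := by
    exact_mod_cast Nat.choose_pos (by omega : J ≤ J + (J + (g + 1)))
  have hα0 : (0 : ℝ) ≤ (A.card : ℝ) := Nat.cast_nonneg _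
  have hP0 : (0 : ℝ) ≤ (P.card : ℝ) := Nat.cast_nonneg _
  have hJ0 : (0 : ℝ) ≤ (J : ℝ) := Nat.cast_nonneg _
  -- generalize everything
  set N : ℝ := ((MM n J).card : ℝ) with hN
  set Nd : ℝ := ((MM n (J + (g + 1))).card : ℝ) with hNd
  set ND : ℝ := ((MM n (J + (J + (g + 1)))).card : ℝ) with hND
  set α : ℝ := (A.card : ℝ) with hα
  set β : ℝ := (P.card : ℝ) with hβ
  set q : ℝ := (Q.card : ℝ) with hq
  set kJd := kap n J (J + (g + 1)) with hkJd
  set kdJ := kap n (J + (g + 1)) J with hkdJ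
  set k2 := kap n (J + J) (g + 1) with hk2'
  set kJJ := kap n J J with hkJJ
  set C1 : ℝ := ((J + (g + 1)).choose J : ℝ) with hC1'
  set C2 : ℝ := ((J + (J + (g + 1))).choose J : ℝ) with hC2'
  set X : ℝ := ((A + B).card : ℝ) with hX
  set sAB := SS A B
  set sAQ := SS A Q
  set sPA := SS P A
  -- 2 (J + n) kdJ ≤ n kJd
  have k1 : 2 * ((J : ℝ) + n) * kdJ ≤ n * kJd := by
    have k2 : 2 * ((J : ℝ) + n) * N ≤ n * Nd := by
      rw [add_comm (J : ℝ) n]
      exact h8
    have k3 : N * (2 * ((J : ℝ) + n) * kdJ) ≤ N * (n * kJd) := by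
      calc N * (2 * ((J : ℝ) + n) * kdJ) = (2 * ((J : ℝ) + n) * N) * kdJ := by ring
        _ ≤ (n * Nd) * kdJ := mul_le_mul_of_nonneg_right k2 hk2.le
        _ = n * (Nd * kdJ) := by ring
        _ = n * (N * kJd) := by rw [h7]
        _ = _ := by ring
    exact le_of_mul_le_mul_left k3 hNpos
  -- the bracket
  have k4 : 2 * C1 * (N * sAQ) ≤ k2 * (N * sPA) := by
    have k5 : (2 * C1 * (N * sAQ)) * (J + n) ≤ (k2 * (N * sPA)) * (J + n) := by
      have hn0 : (0 : ℝ) ≤ J + n := by positivity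
      calc (2 * C1 * (N * sAQ)) * (J + n) = 2 * C1 * (J + n) * (sAQ * N) := by ring
        _ ≤ 2 * C1 * (J + n) * (kdJ * q * α) :=
            mul_le_mul_of_nonneg_left h3 (by positivity)
        _ = C1 * α * (2 * (J + n) * kdJ) * q := by ring
        _ ≤ C1 * α * (2 * (J + n) * kdJ) * β :=
            mul_le_mul_of_nonneg_left hQP (by positivity)
        _ = C1 * α * β * (2 * (J + n) * kdJ) := by ring
        _ ≤ C1 * α * β * (n * kJd) := mul_le_mul_of_nonneg_left k1 (by positivity)
        _ = (C1 * kJd) * n * α * β := by ring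
        _ = (k2 * kJJ) * n * α * β := by rw [h5]
        _ = k2 * (kJJ * n * α * β) := by ring
        _ ≤ k2 * (N * sPA * (J + n)) := mul_le_mul_of_nonneg_left h4 hk3.le
        _ = _ := by ring
    exact le_of_mul_le_mul_right k5 (by positivity)
  have k6 : (C1 * C2) * (ND * α) ≤ (C1 * C2) * (N * X) := by
    have k7 : N * (C1 * (sAB - sAQ) + k2 * sPA) ≤ N * (C1 * (C2 * X)) :=
      mul_le_mul_of_nonneg_left h1 hNpos.le
    have k8 : sAB = kJd * α - sAQ := by linarith
    rw [k8] at k7
    have k9 : (C1 * C2) * (ND * α) = C1 * α * (N * kJd) := by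
      rw [h6]
      ring
    rw [k9]
    nlinarith
  have k10 : ND * α ≤ N * X := le_of_mul_le_mul_left k6 (mul_pos hC1 hC2)
  rw [hND, hα, hN, hX] at k10
  exact_mod_cast k10

/-- the condition holds if `2 J + 2 ≤ n` -/
theorem cond_of {J g : ℕ} (hg : 1 ≤ g) (hn : 2 * J + 2 ≤ n) :
    2 * (n + J) * (MM n J).card ≤ n * (MM n (J + g)).card := by
  have h1 : (MM n J).card * (J + n) = (MM n (J + 1)).card * (J + 1) := H80.FB.card_MM_succ n J
  have h2 : (MM n (J + 1)).card ≤ (MM n (J + g)).card := by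
    rw [card_MM (by omega), card_MM (by omega)]
    exact Nat.choose_le_choose _ (by omega)
  calc 2 * (n + J) * (MM n J).card = 2 * ((MM n J).card * (J + n)) := by ring
    _ = (2 * (J + 1)) * (MM n (J + 1)).card := by rw [h1]; ring
    _ ≤ n * (MM n (J + g)).card := Nat.mul_le_mul (by omega) h2

end Pool.Agent.FB.Polya
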