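import Pool.Agent.FB.Final3
import Pool.Agent.FB.Polya4

/-!
Fröberg's formula in degree `d + j < 2 d` for every number of forms, if
`2 (n + j) |M_j| ≤ n |M_d|`, in particular if `2 j + 2 ≤ n`.
-/

set_option autoImplicit false

namespace Pool.Agent.FB

open MvPolynomial Pool.Agent.H21
open Pool.Agent.H21.Low (TT mem_TT)
open scoped Pointwise

/-- The maximal rank of generic forms from the density inequality for stable pairs. -/
theorem genW_of_density {n J g U : ℕ} (hn : 1 ≤ n)
    (hpair : ∀ A B : Finset (Fin n → ℕ), A ⊆ MM n J → B ⊆ MM n (J + g) → H80.FB.Stable A →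
      H80.FB.Stable B → A.Nonempty → A + MM n g ⊆ B →
      (MM n (J + g)).card + A.card ≤ B.card + (MM n J).card →
      (MM n (J + (J + g))).card * A.card ≤ (MM n J).card * (A + B).card) :
    min (dimS n (J + (J + g))) (U * dimS n J) ≤
      Module.finrank (FF n (J + g) U) (genW n (J + g) U J) := by
  have hcard : ∀ e : ℕ, dimS n e = (MM n e).card := fun e => by
    rw [card_MM_finrank (FF n (J + g) U), dimS_finrank hn]
  rcases Nat.lt_or_ge (Module.finrank (FF n (J + g) U) (genW n (J + g) U J))
    (U * Module.finrank (FF n (J + g) U)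
      (homogeneousSubmodule (Fin n) (FF n (J + g) U) J)) with hlt | hge
  · obtain ⟨K, Kd, Q, hK, hKd, hQ, hK0, h1, h2, h3, h4⟩ := core2 (by omega) hlt
    rw [show J + g - J = g by omega] at h1
    obtain ⟨A, B, hA, hB, hAK, hBK, hAB, hABQ⟩ := finrank_pair_ge K Kd Q hK hKd hQ h1 h2
    obtain ⟨A', B', hA', hB', hcA, hcB, hst, hst', hAB', hle⟩ := exists_stable_pair hA hB hAB
    have hfK : FiniteDimensional (FF n (J + g) U) K :=
      Submodule.finiteDimensional_of_le hK
    have hpos : 0 < Module.finrank (FF n (J + g) U) K := by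
      rcases Nat.eq_zero_or_pos (Module.finrank (FF n (J + g) U) K) with h0 | h0
      · exact absurd (Submodule.finrank_eq_zero.mp h0) hK0
      · exact h0
    have hne : A'.Nonempty := by
      rw [← Finset.card_pos, hcA, hAK]
      exact hpos
    have hKle : Module.finrank (FF n (J + g) U) K ≤ dimS n J := by
      rw [← hAK, hcard]
      exact Finset.card_le_card hA
    rw [dimS_finrank hn, dimS_finrank hn] at h3
    rw [dimS_finrank hn] at h4
    have h5 := hpair A' B' hA' hB' hst hst' hne hAB' (by
      rw [← hcard, ← hcard, hcA, hcB, hAK, hBK]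
      omega)
    rw [hcA, hAK, ← hcard, ← hcard] at h5
    have h6 : dimS n J * (A' + B').card ≤
        dimS n J * Module.finrank (FF n (J + g) U) Q := Nat.mul_le_mul_left _ (hle.trans hABQ)
    have h7 := h5.trans h6
    have hN : 0 < dimS n J := dimS_pos
    generalize Module.finrank (FF n (J + g) U) K = c at *
    generalize Module.finrank (FF n (J + g) U) Q = x at *
    generalize Module.finrank (FF n (J + g) U) (genW n (J + g) U J) = w at *
    generalize dimS n J = N at *
    generalize dimS n (J + (J + g)) = D at *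
    obtain ⟨e, rfl⟩ := Nat.exists_eq_add_of_le hKle
    rw [show c + e - c = e by omega] at h4
    have h8 : (c + e) * min D (U * (c + e)) ≤ (c + e) * w := by
      calc (c + e) * min D (U * (c + e))
          = min D (U * (c + e)) * c + min D (U * (c + e)) * e := by ring
        _ ≤ D * c + (U * (c + e)) * e :=
            Nat.add_le_add (Nat.mul_le_mul_right _ (min_le_left _ _))
              (Nat.mul_le_mul_right _ (min_le_right _ _))
        _ ≤ (c + e) * x + (U * (c + e)) * e := Nat.add_le_add_right h7 _
        _ = (c + e) * (x + U * e) := by ring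
        _ ≤ (c + e) * w := Nat.mul_le_mul_left _ h4
    exact Nat.le_of_mul_le_mul_left h8 hN
  · rw [dimS_finrank hn] at hge
    exact (min_le_right _ _).trans hge

/-- The generic forms have maximal rank in degree `J + d`, if `2 (n + J) |M_J| ≤ n |M_d|`. -/
theorem genW_max4 {n d U J : ℕ} (hn : 1 ≤ n) (hJd : J ≤ d)
    (hcond : 2 * (n + J) * dimS n J ≤ n * dimS n d) :
    min (dimS n (J + d)) (U * dimS n J) ≤ Module.finrank (FF n d U) (genW n d U J) := by
  have hcard : ∀ e : ℕ, dimS n e = (MM n e).card := fun e => by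
    rw [card_MM_finrank (FF n d U), dimS_finrank hn]
  obtain ⟨g, rfl⟩ : ∃ g, d = J + g := ⟨d - J, by omega⟩
  rw [hcard, hcard] at hcond
  exact genW_of_density hn fun A B hA hB hsA hsB _ _ hc =>
    Polya.polya_pair hn hcond hA hB hsA hsB hc

section

variable {K : Type} [Field K] [CharZero K]

/-- **Fröberg's formula in degree `d + j < 2 d`** for every number `u` of forms of degree `d` in
`n` variables, if `2 (n + j) |M_j| ≤ n |M_d|`. -/
theorem froberg_low4 {n d j u : ℕ} (hn : 1 ≤ n) (hjd : j < d)
    (hcond : 2 * (n + j) * dimS n j ≤ n * dimS n d)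
    (hu : u ≤ Module.finrank K (homogeneousSubmodule (Fin n) K d)) : FrobergAt K n d u j :=
  froberg_low_gen hn hjd (genW_max4 hn hjd.le hcond) hu

/-- **Fröberg's formula in degree `d + j < 2 d`** for every number `u` of forms of degree `d` in
`n ≥ 2 j + 2` variables. -/
theorem froberg_low5 {n d j u : ℕ} (hjd : j < d) (hn : 2 * j + 2 ≤ n)
    (hu : u ≤ Module.finrank K (homogeneousSubmodule (Fin n) K d)) : FrobergAt K n d u j := by
  have hn1 : 1 ≤ n := by omega
  refine froberg_low4 hn1 hjd ?_ hu
  have hcard : ∀ e : ℕ, dimS n e = (MM n e).card := fun e => by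
    rw [card_MM_finrank K, dimS_finrank hn1]
  obtain ⟨g, hg, rfl⟩ : ∃ g, 1 ≤ g ∧ d = j + g := ⟨d - j, by omega, by omega⟩
  rw [hcard, hcard]
  exact Polya.cond_of hg hn

end

end Pool.Agent.FB
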