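import Pool.Agent.FB.PolyaRow

/-!
Spectral gap of the two-block Polya operator.
-/

set_option autoImplicit false

namespace Pool.Agent.FB

open Finset
open scoped InnerProductSpace

/-- A symmetric operator which is triangular for a flag with diagonal `lam k`. -/
theorem flag_gap {E : Type} [NormedAddCommGroup E] [InnerProductSpace ℝ E]
    [FiniteDimensional ℝ E] (T : E →ₗ[ℝ] E) (hT : T.IsSymmetric) (V : ℕ → Submodule ℝ E)
    (hV : ∀ k, V k ≤ V (k + 1)) (hV0 : ∀ v ∈ V 0, T v ∈ V 0) (lam : ℕ → ℝ) (c : ℝ) (K : ℕ)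
    (hlam : ∀ k < K, lam (k + 1) ≤ c)
    (hTV : ∀ k < K, ∀ v ∈ V (k + 1), T v - lam (k + 1) • v ∈ V k) :
    ∀ k ≤ K, ∀ f ∈ V k, f ∈ (V 0)ᗮ → ⟪T f, f⟫_ℝ ≤ c * ⟪f, f⟫_ℝ := by
  have hinv : ∀ k ≤ K, ∀ v ∈ V k, T v ∈ V k := by
    intro k hk v hv
    cases k with
    | zero => exact hV0 v hv
    | succ k =>
      have h1 := hV k (hTV k (by omega) v hv)
      have h2 := (V (k + 1)).add_mem h1 ((V (k + 1)).smul_mem (lam (k + 1)) hv)
      rwa [sub_add_cancel] at h2
  have hV0k : ∀ k, V 0 ≤ V k := by
    intro k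
    induction k with
    | zero => exact le_refl _
    | succ k ih => exact ih.trans (hV k)
  intro k
  induction k with
  | zero =>
    intro _ f hf hf0
    have h : ⟪f, f⟫_ℝ = 0 := (Submodule.mem_orthogonal _ _).mp hf0 f hf
    have h1 : f = 0 := inner_self_eq_zero.mp h
    simp [h1]
  | succ k ih =>
    intro hk f hf hf0
    set g : E := (V k).starProjection f with hg
    have hgV : g ∈ V k := by
      rw [hg]
      exact Submodule.starProjection_apply_mem _ _
    have hhV : f - g ∈ (V k)ᗮ := by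
      rw [hg]
      exact Submodule.sub_starProjection_mem_orthogonal _
    set h : E := f - g with hh
    have hfgh : f = g + h := by rw [hh]; abel
    have hh1 : h ∈ V (k + 1) := (V (k + 1)).sub_mem hf (hV k hgV)
    have hort : ∀ v ∈ V k, ⟪v, h⟫_ℝ = 0 := fun v hv => (Submodule.mem_orthogonal _ _).mp hhV v hv
    have hTh : T h = lam (k + 1) • h := by
      have h1 := hTV k (by omega) h hh1
      have h2 : ⟪T h - lam (k + 1) • h, T h - lam (k + 1) • h⟫_ℝ = 0 := by
        rw [inner_sub_right, inner_smul_right, hort _ h1, mul_zero, sub_zero]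
        rw [real_inner_comm, hT, real_inner_comm]
        exact hort _ (hinv k (by omega) _ h1)
      exact sub_eq_zero.mp (inner_self_eq_zero.mp h2)
    have hg0 : g ∈ (V 0)ᗮ := by
      rw [Submodule.mem_orthogonal]
      intro u hu
      have h1 := (Submodule.mem_orthogonal _ _).mp hf0 u hu
      rw [hfgh, inner_add_right, hort u (hV0k k hu), add_zero] at h1
      exact h1
    have h1 := ih (by omega) g hgV hg0
    have h2 : ⟪T g, h⟫_ℝ = 0 := hort _ (hinv k (by omega) g hgV)
    have h3 : ⟪g, h⟫_ℝ = 0 := hort _ hgV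
    have h4 : ⟪h, g⟫_ℝ = 0 := by rw [real_inner_comm]; exact h3
    have h5 : 0 ≤ ⟪h, h⟫_ℝ := real_inner_self_nonneg
    rw [hfgh, map_add, hTh]
    simp only [inner_add_left, inner_add_right, inner_smul_left, h2, h3, h4]
    simp only [mul_zero, add_zero, zero_add]
    have h6 : lam (k + 1) * ⟪h, h⟫_ℝ ≤ c * ⟪h, h⟫_ℝ :=
      mul_le_mul_of_nonneg_right (hlam k (by omega)) h5
    simp only [conj_trivial]
    nlinarith

/-- the index type -/
abbrev MI (n J : ℕ) : Type := {a : Fin n → ℕ // a ∈ MM n J}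

/-- the weight of a pair of blocks -/
noncomputable def Wt {n : ℕ} (a b : Fin n → ℕ) : ℝ := ∏ i, ((a i + b i).choose (a i) : ℝ)

lemma Wt_comm {n : ℕ} (a b : Fin n → ℕ) : Wt a b = Wt b a := by
  unfold Wt
  refine Finset.prod_congr rfl fun i _ => ?_
  rw [Nat.choose_symm_add, add_comm]

lemma Wt_nonneg {n : ℕ} (a b : Fin n → ℕ) : 0 ≤ Wt a b :=
  Finset.prod_nonneg fun _ _ => Nat.cast_nonneg _

/-- the operator on functions on `MM n J` -/
noncomputable def TT2 (n J : ℕ) : EuclideanSpace ℝ (MI n J) →ₗ[ℝ] EuclideanSpace ℝ (MI n J) :=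
  Matrix.toEuclideanLin (Matrix.of fun a b : MI n J => Wt a.1 b.1)

lemma TT2_apply {n J : ℕ} (f : EuclideanSpace ℝ (MI n J)) (a : MI n J) :
    TT2 n J f a = ∑ b : MI n J, Wt a.1 b.1 * f b := by
  simp [TT2, Matrix.toEuclideanLin_apply, Matrix.mulVec, dotProduct]

lemma TT2_symm (n J : ℕ) : (TT2 n J).IsSymmetric := by
  unfold TT2
  rw [← Matrix.isHermitian_iff_isSymmetric]
  ext a b
  simp [Matrix.conjTranspose_apply, Wt_comm]

/-- the product of binomial coefficients as a vector -/
noncomputable def phi {n : ℕ} (J : ℕ) (c : Fin n → ℕ) : EuclideanSpace ℝ (MI n J) :=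
  WithLp.toLp 2 fun a => ∏ i, ((a.1 i).choose (c i) : ℝ)

lemma phi_apply {n J : ℕ} (c : Fin n → ℕ) (a : MI n J) :
    phi J c a = ∏ i, ((a.1 i).choose (c i) : ℝ) := rfl

/-- the flag -/
noncomputable def VV (n J k : ℕ) : Submodule ℝ (EuclideanSpace ℝ (MI n J)) :=
  Submodule.span ℝ {v | ∃ c : Fin n → ℕ, ∑ i, c i ≤ k ∧ v = phi J c}

lemma phi_mem {n J k : ℕ} {c : Fin n → ℕ} (h : ∑ i, c i ≤ k) : phi J c ∈ VV n J k :=
  Submodule.subset_span ⟨c, h, rfl⟩

lemma VV_mono (n J k : ℕ) : VV n J k ≤ VV n J (k + 1) := by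
  apply Submodule.span_mono
  rintro v ⟨c, h, rfl⟩
  exact ⟨c, by omega, rfl⟩

lemma phi_zero_of_lt {n J : ℕ} {c : Fin n → ℕ} (h : J < ∑ i, c i) : phi J c = 0 := by
  ext a
  rw [phi_apply]
  obtain ⟨i, hi⟩ : ∃ i, a.1 i < c i := by
    by_contra hcon
    push Not at hcon
    have h1 := Finset.sum_le_sum fun i (_ : i ∈ univ) => hcon i
    have h2 := mem_MM.mp a.2
    omega
  rw [Finset.prod_eq_zero (mem_univ i)]
  · rfl
  · rw [Nat.choose_eq_zero_of_lt hi]
    exact Nat.cast_zero

/-- the operator is triangular -/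
lemma TT2_phi {n J k : ℕ} (hn : 1 ≤ n) (hk : k ≤ J) {c : Fin n → ℕ} (hc : ∑ i, c i = k) :
    TT2 n J (phi J c) - ((2 * J + n - 1).choose (J - k) : ℝ) • phi J c ∈
      Submodule.span ℝ {v | ∃ d : Fin n → ℕ, ∑ i, d i < k ∧ v = phi J d} := by
  classical
  have h1 : TT2 n J (phi J c) = ((2 * J + n - 1).choose (J - k) : ℝ) •
      ∑ d ∈ Fintype.piFinset (fun i => Finset.range (c i + 1)),
        (∏ i, ((c i).choose (c i - d i) : ℝ)) • phi J d := by
    ext a
    rw [TT2_apply]
    have h2 := polya_act (J := J) hn hk (a := a.1) (mem_MM.mpr hc)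
    rw [prod_vandermonde, mem_MM.mp a.2, show J + J + n - 1 = 2 * J + n - 1 by omega] at h2
    have h3 : ∑ b : MI n J, Wt a.1 b.1 * phi J c b =
        ∑ b ∈ MM n J, Wt a.1 b * ∏ i, ((b i).choose (c i) : ℝ) := by
      rw [← Finset.sum_coe_sort (MM n J) (fun b => Wt a.1 b * ∏ i, ((b i).choose (c i) : ℝ))]
      rfl
    rw [h3]
    have h4 : ∑ b ∈ MM n J, Wt a.1 b * ∏ i, ((b i).choose (c i) : ℝ) =
        ((2 * J + n - 1).choose (J - k) : ℝ) *
          ∑ d ∈ Fintype.piFinset (fun i => Finset.range (c i + 1)),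
            ∏ i, (((a.1 i).choose (d i) : ℝ) * ((c i).choose (c i - d i) : ℝ)) := by
      unfold Wt
      exact_mod_cast h2
    rw [h4]
    simp only [PiLp.smul_apply, smul_eq_mul, WithLp.ofLp_sum, Finset.sum_apply, WithLp.ofLp_smul,
      Pi.smul_apply]
    congr 1
    refine Finset.sum_congr rfl fun d _ => ?_
    rw [phi_apply, Finset.prod_mul_distrib, mul_comm]
  have hmem : c ∈ Fintype.piFinset (fun i => Finset.range (c i + 1)) := by
    rw [Fintype.mem_piFinset]
    intro i
    exact mem_range.mpr (Nat.lt_succ_self _)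
  rw [h1, ← Finset.add_sum_erase _ _ hmem, smul_add]
  have h5 : (∏ i, ((c i).choose (c i - c i) : ℝ)) = 1 := by simp
  rw [h5, one_smul, add_sub_cancel_left]
  apply Submodule.smul_mem
  apply Submodule.sum_mem
  intro d hd
  apply Submodule.smul_mem
  apply Submodule.subset_span
  refine ⟨d, ?_, rfl⟩
  rw [mem_erase, Fintype.mem_piFinset] at hd
  obtain ⟨hne, hd⟩ := hd
  rw [← hc]
  apply Finset.sum_lt_sum
  · intro i _
    exact Nat.lt_succ_iff.mp (mem_range.mp (hd i))
  · by_contra hcon
    push Not at hcon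
    apply hne
    funext i
    have h6 := mem_range.mp (hd i)
    have h7 := hcon i (mem_univ i)
    omega

lemma VV_top (n J : ℕ) : VV n J J = ⊤ := by
  classical
  rw [eq_top_iff]
  intro f _
  have h1 : f = ∑ c : MI n J, f c • phi J c.1 := by
    ext a
    simp only [WithLp.ofLp_sum, Finset.sum_apply, WithLp.ofLp_smul, Pi.smul_apply, smul_eq_mul]
    rw [Finset.sum_eq_single a]
    · rw [phi_apply]
      simp
    · intro c _ hca
      rw [phi_apply]
      obtain ⟨i, hi⟩ : ∃ i, a.1 i < c.1 i := by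
        by_contra hcon
        push Not at hcon
        apply hca
        apply Subtype.ext
        funext i
        by_contra hne
        have h2 : c.1 i < a.1 i := lt_of_le_of_ne (hcon i) hne
        have h3 := Finset.sum_lt_sum (fun i (_ : i ∈ univ) => hcon i) ⟨i, mem_univ i, h2⟩
        rw [mem_MM.mp a.2, mem_MM.mp c.2] at h3
        exact lt_irrefl _ h3
      rw [Finset.prod_eq_zero (mem_univ i), mul_zero]
      rw [Nat.choose_eq_zero_of_lt hi]
      exact Nat.cast_zero
    · intro h
      exact absurd (mem_univ a) h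
  rw [h1]
  apply Submodule.sum_mem
  intro c _
  apply Submodule.smul_mem
  exact phi_mem (mem_MM.mp c.2).le

lemma choose_mono_half {N r s : ℕ} (h : r ≤ s) (hs : 2 * s ≤ N + 1) : N.choose r ≤ N.choose s := by
  induction s, h using Nat.le_induction with
  | base => exact le_refl _
  | succ s hrs ih =>
    refine (ih (by omega)).trans ?_
    rcases Nat.lt_or_ge (2 * s + 1) N with h | h
    · exact Nat.choose_le_succ_of_lt_half_left (by omega)
    · have h1 : N = 2 * s + 1 := by omega
      rw [h1]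
      exact (Nat.choose_symm_of_eq_add (by omega)).le

/-- Spectral gap as a quadratic inequality. -/
theorem polya_quad {n J : ℕ} (hn : 1 ≤ n) (hJ : 1 ≤ J) (f : EuclideanSpace ℝ (MI n J))
    (hf : ∑ a, f a = 0) :
    ∑ a : MI n J, ∑ b : MI n J, Wt a.1 b.1 * f b * f a ≤
      ((2 * J + n - 1).choose (J - 1) : ℝ) * ∑ a, f a ^ 2 := by
  classical
  have key := flag_gap (TT2 n J) (TT2_symm n J) (VV n J) (VV_mono n J) ?_
    (fun k => ((2 * J + n - 1).choose (J - k) : ℝ)) ((2 * J + n - 1).choose (J - 1) : ℝ) J ?_ ?_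
    J (le_refl J) f (by rw [VV_top]; trivial) ?_
  · have h1 : ⟪TT2 n J f, f⟫_ℝ = ∑ a : MI n J, ∑ b : MI n J, Wt a.1 b.1 * f b * f a := by
      rw [PiLp.inner_apply]
      refine Finset.sum_congr rfl fun a _ => ?_
      rw [TT2_apply]
      simp [Finset.mul_sum, mul_comm]
    have h2 : ⟪f, f⟫_ℝ = ∑ a, f a ^ 2 := by
      rw [PiLp.inner_apply]
      refine Finset.sum_congr rfl fun a _ => ?_
      simp [pow_two]
    rw [h1, h2] at key
    exact key
  · intro v hv
    refine Submodule.span_induction ?_ ?_ ?_ ?_ hv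
    · rintro x ⟨c, hc, rfl⟩
      have hc0 : ∑ i, c i = 0 := by omega
      have h := TT2_phi (J := J) hn (Nat.zero_le J) hc0
      have h2 : TT2 n J (phi J c) = (TT2 n J (phi J c) -
        ((2 * J + n - 1).choose (J - 0) : ℝ) • phi J c) +
          ((2 * J + n - 1).choose (J - 0) : ℝ) • phi J c := by abel
      rw [h2]
      refine Submodule.add_mem _ ?_ (Submodule.smul_mem _ _ (phi_mem hc))
      refine Submodule.span_mono ?_ h
      rintro w ⟨d, hd, rfl⟩
      exact ⟨d, by omega, rfl⟩
    · rw [map_zero]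
      exact Submodule.zero_mem _
    · intro x y _ _ hx hy
      rw [map_add]
      exact Submodule.add_mem _ hx hy
    · intro c x _ hx
      rw [map_smul]
      exact Submodule.smul_mem _ _ hx
  · intro k hk
    have h := choose_mono_half (N := 2 * J + n - 1) (r := J - (k + 1)) (s := J - 1) (by omega)
      (by omega)
    exact_mod_cast h
  · intro k hk v hv
    refine Submodule.span_induction ?_ ?_ ?_ ?_ hv
    · rintro x ⟨c, hc, rfl⟩
      rcases Nat.lt_or_ge (∑ i, c i) (k + 1) with hlt | hge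
      · have h0 : ∑ i, c i ≤ k := by omega
        have h := TT2_phi (J := J) hn (show ∑ i, c i ≤ J by omega) rfl
        have h2 : TT2 n J (phi J c) - ((2 * J + n - 1).choose (J - (k + 1)) : ℝ) • phi J c =
            (TT2 n J (phi J c) -
              ((2 * J + n - 1).choose (J - ∑ i, c i) : ℝ) • phi J c) +
            (((2 * J + n - 1).choose (J - ∑ i, c i) : ℝ) -
              ((2 * J + n - 1).choose (J - (k + 1)) : ℝ)) • phi J c := by
          rw [sub_smul]
          abel
        rw [h2]
        refine Submodule.add_mem _ ?_ (Submodule.smul_mem _ _ (phi_mem h0))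
        refine Submodule.span_mono ?_ h
        rintro w ⟨d, hd, rfl⟩
        exact ⟨d, by omega, rfl⟩
      · have h0 : ∑ i, c i = k + 1 := by omega
        have h := TT2_phi (J := J) hn (show k + 1 ≤ J by omega) h0
        refine Submodule.span_mono ?_ h
        rintro w ⟨d, hd, rfl⟩
        exact ⟨d, by omega, rfl⟩
    · rw [map_zero, smul_zero, sub_zero]
      exact Submodule.zero_mem _
    · intro x y _ _ hx hy
      have h2 : TT2 n J (x + y) - ((2 * J + n - 1).choose (J - (k + 1)) : ℝ) • (x + y) =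
        (TT2 n J x - ((2 * J + n - 1).choose (J - (k + 1)) : ℝ) • x) +
        (TT2 n J y - ((2 * J + n - 1).choose (J - (k + 1)) : ℝ) • y) := by
        rw [map_add, smul_add]
        abel
      rw [h2]
      exact Submodule.add_mem _ hx hy
    · intro c x _ hx
      have h2 : TT2 n J (c • x) - ((2 * J + n - 1).choose (J - (k + 1)) : ℝ) • (c • x) =
        c • (TT2 n J x - ((2 * J + n - 1).choose (J - (k + 1)) : ℝ) • x) := by
        rw [map_smul, smul_sub, smul_comm]
      rw [h2]
      exact Submodule.smul_mem _ _ hx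
  · rw [Submodule.mem_orthogonal]
    intro u hu
    refine Submodule.span_induction ?_ ?_ ?_ ?_ hu
    · rintro x ⟨c, hc, rfl⟩
      have hc0 : ∀ i, c i = 0 := by
        intro i
        have h1 := Finset.single_le_sum (f := c) (fun i _ => Nat.zero_le _) (mem_univ i)
        omega
      rw [PiLp.inner_apply, ← hf]
      refine Finset.sum_congr rfl fun a _ => ?_
      rw [phi_apply]
      simp [hc0]
    · exact inner_zero_left _
    · intro x y _ _ hx hy
      rw [inner_add_left, hx, hy, add_zero]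
    · intro c x _ hx
      rw [inner_smul_left, hx, mul_zero]

/-- row sums -/
lemma sum_Wt {n J : ℕ} (hn : 1 ≤ n) {a : Fin n → ℕ} (ha : a ∈ MM n J) :
    ∑ b ∈ MM n J, Wt a b = ((2 * J + n - 1).choose J : ℝ) := by
  have h := polya_row (m := J) hn a
  rw [mem_MM.mp ha, show J + J + n - 1 = 2 * J + n - 1 by omega] at h
  unfold Wt
  exact_mod_cast h

/-- The spectral gap inequality for a set and its complement. -/
theorem polya_gap {n J : ℕ} (hn : 1 ≤ n) {A : Finset (Fin n → ℕ)} (hA : A ⊆ MM n J) :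
    (n : ℝ) * ((2 * J + n - 1).choose J : ℝ) * ((MM n J \ A).card : ℝ) * (A.card : ℝ) ≤
      ((n : ℝ) + J) * ((MM n J).card : ℝ) * ∑ a ∈ MM n J \ A, ∑ b ∈ A, Wt a b := by
  classical
  rcases Nat.eq_zero_or_pos J with rfl | hJ
  · have h1 : (MM n 0 \ A).card = 0 ∨ A.card = 0 := by
      have h2 : (MM n 0).card = 1 := by
        rw [show MM n 0 = {0} from ?_]
        · rfl
        · ext a
          rw [mem_MM, mem_singleton]
          constructor
          · intro h
            funext i
            have h1 := Finset.single_le_sum (f := a) (fun i _ => Nat.zero_le _) (mem_univ i)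
            simp only [Pi.zero_apply]
            omega
          · rintro rfl
            simp
      have h3 := Finset.card_sdiff_add_card_eq_card hA
      omega
    have h4 : 0 ≤ ∑ a ∈ MM n 0 \ A, ∑ b ∈ A, Wt a b :=
      Finset.sum_nonneg fun a _ => Finset.sum_nonneg fun b _ => Wt_nonneg a b
    rcases h1 with h1 | h1
    · rw [h1]
      simp only [Nat.cast_zero, mul_zero, zero_mul]
      positivity
    · rw [h1]
      simp only [Nat.cast_zero, mul_zero]
      positivity
  · set N : ℝ := ((MM n J).card : ℝ) with hN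
    set p : ℝ := (A.card : ℝ) with hp
    set c0 : ℝ := ((2 * J + n - 1).choose J : ℝ) with hc0
    set c1 : ℝ := ((2 * J + n - 1).choose (J - 1) : ℝ) with hc1
    -- the function `N 1_A - p`
    let f : EuclideanSpace ℝ (MI n J) := WithLp.toLp 2 fun a => (if a.1 ∈ A then N else 0) - p
    have hfa : ∀ a : MI n J, f a = (if a.1 ∈ A then N else 0) - p := fun a => rfl
    have hsum : ∀ g : (Fin n → ℕ) → ℝ, ∑ a : MI n J, g a.1 = ∑ a ∈ MM n J, g a := fun g =>
      Finset.sum_coe_sort (MM n J) g
    have hind : ∀ g : (Fin n → ℕ) → ℝ, ∑ a ∈ MM n J, (if a ∈ A then g a else 0) =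
        ∑ a ∈ A, g a := by
      intro g
      rw [← Finset.sum_filter, Finset.filter_mem_eq_inter, Finset.inter_eq_right.mpr hA]
    have hf0 : ∑ a, f a = 0 := by
      simp only [hfa]
      rw [hsum (fun a => (if a ∈ A then N else 0) - p), Finset.sum_sub_distrib, hind,
        Finset.sum_const, Finset.sum_const, nsmul_eq_mul, nsmul_eq_mul]
      ring
    have hq := polya_quad hn hJ f hf0
    have hsq : ∑ a, f a ^ 2 = N * p * (N - p) := by
      simp only [hfa]
      rw [hsum (fun a => ((if a ∈ A then N else 0) - p) ^ 2)]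
      have h1 : ∀ a, ((if a ∈ A then N else 0) - p) ^ 2 =
          (if a ∈ A then N ^ 2 - 2 * N * p else 0) + p ^ 2 := by
        intro a
        split_ifs <;> ring
      simp only [h1]
      rw [Finset.sum_add_distrib, hind, Finset.sum_const, Finset.sum_const, nsmul_eq_mul,
        nsmul_eq_mul]
      ring
    set S : ℝ := ∑ a ∈ A, ∑ b ∈ A, Wt a b with hS
    have hSA : ∑ a ∈ MM n J \ A, ∑ b ∈ A, Wt a b = c0 * p - S := by
      have h1 : ∑ a ∈ MM n J, ∑ b ∈ A, Wt a b = c0 * p := by
        rw [Finset.sum_comm]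
        have h2 : ∀ b ∈ A, ∑ a ∈ MM n J, Wt a b = c0 := by
          intro b hb
          rw [hc0, ← sum_Wt hn (hA hb)]
          exact Finset.sum_congr rfl fun a _ => Wt_comm a b
        rw [Finset.sum_congr rfl h2, Finset.sum_const, nsmul_eq_mul, mul_comm]
      rw [← h1, ← Finset.sum_sdiff hA]
      ring
    have hlhs : ∑ a : MI n J, ∑ b : MI n J, Wt a.1 b.1 * f b * f a =
        N ^ 2 * S - N * p ^ 2 * c0 := by
      have h1 : ∀ a : MI n J, ∑ b : MI n J, Wt a.1 b.1 * f b * f a =
          (N * ∑ b ∈ A, Wt a.1 b - p * c0) * f a := by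
        intro a
        rw [← Finset.sum_mul]
        congr 1
        simp only [hfa]
        rw [hsum (fun b => Wt a.1 b * ((if b ∈ A then N else 0) - p))]
        have h2 : ∀ b, Wt a.1 b * ((if b ∈ A then N else 0) - p) =
            (if b ∈ A then N * Wt a.1 b else 0) - p * Wt a.1 b := by
          intro b
          split_ifs <;> ring
        simp only [h2]
        rw [Finset.sum_sub_distrib, hind, ← Finset.mul_sum, ← Finset.mul_sum, sum_Wt hn a.2]
      rw [Finset.sum_congr rfl fun a _ => h1 a]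
      simp only [hfa]
      rw [hsum (fun a => (N * ∑ b ∈ A, Wt a b - p * c0) * ((if a ∈ A then N else 0) - p))]
      have h3 : ∀ a, (N * ∑ b ∈ A, Wt a b - p * c0) * ((if a ∈ A then N else 0) - p) =
          (if a ∈ A then N ^ 2 * ∑ b ∈ A, Wt a b - N * p * c0 else 0) -
            (N * p * ∑ b ∈ A, Wt a b - p ^ 2 * c0) := by
        intro a
        split_ifs <;> ring
      simp only [h3]
      rw [Finset.sum_sub_distrib, hind, Finset.sum_sub_distrib, Finset.sum_sub_distrib,
        ← Finset.mul_sum, ← Finset.mul_sum, Finset.sum_const, Finset.sum_const, nsmul_eq_mul,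
        nsmul_eq_mul]
      have h4 : ∑ a ∈ MM n J, ∑ b ∈ A, Wt a b = c0 * p := by
        rw [← Finset.sum_sdiff hA, hSA]
        ring
      have h5 : ∑ x ∈ MM n J, N * p * ∑ b ∈ A, Wt x b = N * p * (c0 * p) := by
        rw [← Finset.mul_sum, h4]
      rw [h5]
      ring
    rw [hlhs, hsq] at hq
    have hNpos : 0 ≤ N := Nat.cast_nonneg _
    have hpN : p ≤ N := by
      have := Finset.card_le_card hA
      rw [hp, hN]
      exact_mod_cast this
    have hp0 : 0 ≤ p := Nat.cast_nonneg _
    have hcard : ((MM n J \ A).card : ℝ) = N - p := by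
      have h3 := Finset.card_sdiff_add_card_eq_card hA
      have h4 : ((MM n J \ A).card : ℝ) + p = N := by
        rw [hp, hN]
        exact_mod_cast h3
      linarith
    have hcc : c1 * ((J : ℝ) + n) = J * c0 := by
      have h1 := Nat.choose_succ_right_eq (2 * J + n - 1) (J - 1)
      rw [show J - 1 + 1 = J by omega, show 2 * J + n - 1 - (J - 1) = J + n by omega] at h1
      rw [hc1, hc0]
      have h2 : ((2 * J + n - 1).choose J : ℝ) * J = (2 * J + n - 1).choose (J - 1) * (J + n) := by
        exact_mod_cast h1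
      linarith
    rcases eq_or_lt_of_le hNpos with h0 | hpos
    · have : p = 0 := by linarith
      rw [hcard, ← h0, this]
      simp
    · rw [hSA, hcard]
      -- N (N S - p² c0) ≤ c1 N p (N - p)
      have h1 : N * S - p ^ 2 * c0 ≤ c1 * (p * (N - p)) := by
        have h2 : N * (N * S - p ^ 2 * c0) ≤ N * (c1 * (p * (N - p))) := by nlinarith
        exact le_of_mul_le_mul_left h2 hpos
      have hJn : (0 : ℝ) ≤ (n : ℝ) + J := by positivity
      have h3 := mul_le_mul_of_nonneg_left h1 hJn
      have h4 : ((n : ℝ) + J) * (c1 * (p * (N - p))) = J * c0 * (p * (N - p)) := by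
        rw [← hcc]
        ring
      rw [h4] at h3
      nlinarith
end Pool.Agent.FB
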