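import Pool.Agent.FB.Final4

/-!
The conditions of `froberg_low2`, `froberg_low3`, `froberg_low4` together, and all degrees at once
from one degree `j + d < 2 d` in which the forms generate everything numerically.
-/

set_option autoImplicit false

namespace Pool.Agent.FB

open MvPolynomial Pool.Agent.H21

section

variable {K : Type} [Field K] [CharZero K]

/-- The three conditions on `j < d`, for every `u`. -/
def CondJ (n d j : ℕ) : Prop :=
  (n - 1) ^ 2 * (n - 2) * 8 ^ (n - 1) ≤ d ∨ 2 ^ (n - 1) * dimS n j ≤ dimS n (j + d) ∨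
    2 * (n + j) * dimS n j ≤ n * dimS n d

lemma condJ_mono {n d j J : ℕ} (hn : 1 ≤ n) (hj : j ≤ J) (h : CondJ n d J) : CondJ n d j := by
  rcases h with h | h | h
  · exact Or.inl h
  · exact Or.inr (Or.inl (cond2_mono hn hj h))
  · refine Or.inr (Or.inr (le_trans ?_ h))
    exact Nat.mul_le_mul (by omega) (dimS_mono hj)

theorem froberg_condJ {n d j u : ℕ} (hn : 1 ≤ n) (hjd : j < d) (h : CondJ n d j)
    (hu : u ≤ Module.finrank K (homogeneousSubmodule (Fin n) K d)) : FrobergAt K n d u j := by
  rcases h with h | h | h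
  · exact froberg_low3 hn hjd h hu
  · exact froberg_low2 hn hjd (Or.inl h) hu
  · exact froberg_low4 hn hjd h hu

/-- All degrees from the degrees `≤ J + d < 2 d`, if the forms generate everything numerically in
degree `J + d`. -/
theorem froberg_all_of_at {n d J u : ℕ} (hn : 1 ≤ n) (hJ : J < d)
    (h : ∀ i : ℕ, i ≤ J → FrobergAt K n d u i)
    (hu : dimS n (J + d) < u * dimS n J) (i : ℕ) : FrobergAt K n d u i := by
  rcases Nat.lt_or_ge i J with hi | hi
  · exact h i hi.le
  · have hc : ∀ k : ℕ, J ≤ k → truncCoeff n d u (k + d) = 0 := by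
      intro k hk
      unfold truncCoeff
      rw [if_neg]
      intro hall
      have h1 := hall (J + d) (by omega)
      rw [ser_low (by omega) hJ] at h1
      have h2 : ((dimS n (J + d) : ℕ) : ℤ) < ((u * dimS n J : ℕ) : ℤ) := by exact_mod_cast hu
      push_cast at h2
      linarith
    have hJJ := h J le_rfl
    unfold FrobergAt at hJJ ⊢
    rw [hc J le_rfl, sub_zero] at hJJ
    rw [hc i hi, sub_zero]
    constructor
    · intro V hV _
      exact_mod_cast Submodule.finrank_mono (prodSpan_le (e := i) hV)
    · obtain ⟨V, hV1, hV2, hV3⟩ := hJJ.2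
      refine ⟨V, hV1, hV2, ?_⟩
      have h1 : prodSpan J V = homogeneousSubmodule (Fin n) K (J + d) := by
        apply Submodule.eq_of_le_of_finrank_le (prodSpan_le hV1)
        exact_mod_cast hV3.ge
      have h2 := prodSpan_full (d := d) (D₁ := J + d) (D := i + d) (V := V) (by omega) (by omega)
        (by rw [Nat.add_sub_cancel, h1])
      rw [Nat.add_sub_cancel] at h2
      have h3 : prodSpan i V = homogeneousSubmodule (Fin n) K (i + d) :=
        le_antisymm (prodSpan_le hV1) h2
      rw [h3]

end

end Pool.Agent.FB
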