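import Pool.Agent.FB.Defs
import Pool.Agent.H80.FB.Slice

set_option autoImplicit false

namespace Pool.Agent.FB

open Finset
open scoped Pointwise

/-- `|M_{q+1}(e)| = |M_q(0)| + ... + |M_q(e)|` in recursive form. -/
theorem card_MM_rec (q e : ℕ) : (MM (q + 1) (e + 1)).card = (MM (q + 1) e).card + (MM q (e + 1)).card := by
  have h := H80.FB.sum_MM_up q e 1
  rw [Finset.sum_range_one, Nat.sub_zero] at h
  exact h

/-- the number of exponent vectors -/
theorem card_MM {n : ℕ} (hn : 1 ≤ n) (e : ℕ) : (MM n e).card = (n - 1 + e).choose (n - 1) := by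
  obtain ⟨m, rfl⟩ : ∃ m, n = m + 1 := ⟨n - 1, by omega⟩
  clear hn
  rw [Nat.add_sub_cancel]
  induction e with
  | zero =>
    have h : MM (m + 1) 0 = {0} := H80.FB.MM_zero (m + 1)
    rw [h, Finset.card_singleton, add_zero, Nat.choose_self]
  | succ e ih =>
    have h := H80.FB.card_MM_succ (m + 1) e
    have h1 : (MM (m + 1) e).card * (e + (m + 1)) = (MM (m + 1) (e + 1)).card * (e + 1) := h
    rw [ih] at h1
    have h2 : (m + e + 1).choose m * (e + 1) = (m + e).choose m * (m + e + 1) := by
      have h3 := Nat.add_one_mul_choose_eq (m + e) e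
      have h4 : (m + e).choose e = (m + e).choose m := by
        rw [← Nat.choose_symm_add]
      have h5 : (m + e + 1).choose (e + 1) = (m + e + 1).choose m := by
        have : m + e + 1 = m + (e + 1) := by ring
        rw [this, ← Nat.choose_symm_add]
      rw [h4, h5] at h3
      rw [← h3]
      ring
    have hpos : 0 < e + 1 := by omega
    refine Nat.eq_of_mul_eq_mul_right hpos ?_
    have h6 : m + (e + 1) = m + e + 1 := by ring
    rw [← h1, h6, h2]
    ring

/-- Normalized matching, one step -/
theorem nmp_one {q e : ℕ} (_hq : 1 ≤ q) (P : Finset (Fin q → ℕ)) (hP : P ⊆ MM q e) :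
    P.card * (e + q) ≤ (P + MM q 1).card * (e + 1) :=
  H80.FB.match_one P hP

/-- Normalized matching -/
theorem nmp {q e l : ℕ} (_hq : 1 ≤ q) (P : Finset (Fin q → ℕ)) (hP : P ⊆ MM q e) :
    P.card * (MM q (e + l)).card ≤ (P + MM q l).card * (MM q e).card :=
  H80.FB.match_add P hP l

end Pool.Agent.FB
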