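import Mathlib

set_option autoImplicit false

namespace Pool.Agent.FB

/-- Maximal rank: if `B + t B'` never has larger rank than `B`, then `B'` maps the kernel of `B` into
the range of `B`. (Let `v_i` be vectors with `B v_i` a basis of the range. If `B' x ∉ range B`, the
vectors `B v_i, B' x` are independent; a linear map `L` to `Fin (r+1) → F` sends them to the standard
basis; `det` of `L (B v_i + t B' v_i), L (B' x)` is a polynomial in `t`, equal to `1` at `t = 0`, hence
nonzero for some `t ≠ 0` (`F` infinite); then `(B + t B') v_i, (B + t B') x = t B' x` are independent.) -/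
theorem pert {F V W : Type} [Field F] [Infinite F] [AddCommGroup V] [Module F V]
    [AddCommGroup W] [Module F W] [FiniteDimensional F V] [FiniteDimensional F W]
    (B B' : V →ₗ[F] W)
    (h : ∀ t : F, Module.finrank F (LinearMap.range (B + t • B')) ≤
      Module.finrank F (LinearMap.range B))
    (x : V) (hx : B x = 0) : B' x ∈ LinearMap.range B := by
  by_contra hcon
  obtain ⟨σ, hσ⟩ := LinearMap.exists_rightInverse_of_surjective B.rangeRestrict B.range_rangeRestrict
  have hσ' : ∀ y : LinearMap.range B, B (σ y) = y := by
    intro y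
    have h1 := LinearMap.congr_fun hσ y
    exact congrArg Subtype.val h1
  set g : (LinearMap.range B × F) →ₗ[F] W :=
    (LinearMap.range B).subtype.coprod (LinearMap.toSpanSingleton F W (B' x)) with hg
  have hga : ∀ (y : LinearMap.range B) (s : F), g (y, s) = (y : W) + s • B' x := by
    intro y s
    simp [hg, LinearMap.toSpanSingleton_apply]
  have hker : LinearMap.ker g = ⊥ := by
    rw [LinearMap.ker_eq_bot']
    rintro ⟨y, s⟩ h0
    rw [hga] at h0
    have hs : s = 0 := by
      by_contra hs
      apply hcon
      have e : B' x = (-s⁻¹) • (y : W) := by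
        have e1 : s • B' x = -(y : W) := by
          rw [eq_neg_iff_add_eq_zero, add_comm]
          exact h0
        calc B' x = s⁻¹ • (s • B' x) := by rw [smul_smul, inv_mul_cancel₀ hs, one_smul]
          _ = _ := by rw [e1, smul_neg, neg_smul]
      rw [e]
      exact Submodule.smul_mem _ _ y.2
    rw [hs, zero_smul, add_zero] at h0
    rw [hs]
    have hy : y = 0 := Subtype.ext h0
    rw [hy]
    rfl
  obtain ⟨L, hL⟩ := g.exists_leftInverse_of_injective hker
  set C : Module.End F (LinearMap.range B × F) :=
    L ∘ₗ B' ∘ₗ σ ∘ₗ LinearMap.fst F (LinearMap.range B) F with hC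
  have hfin : (spectrum F (-C)).Finite := Module.End.finite_spectrum (-C)
  obtain ⟨s, hs⟩ := (hfin.union (Set.finite_singleton (0 : F))).infinite_compl.nonempty
  rw [Set.mem_compl_iff, Set.mem_union, not_or] at hs
  obtain ⟨hs1, hs2⟩ := hs
  have hs0 : s ≠ 0 := fun h => hs2 (by rw [h]; exact Set.mem_singleton _)
  rw [spectrum.notMem_iff] at hs1
  set ψ : (LinearMap.range B × F) →ₗ[F] W := g + s⁻¹ • (B' ∘ₗ σ ∘ₗ LinearMap.fst F (LinearMap.range B) F) with hψ
  have hinj : Function.Injective ψ := by
    rw [← LinearMap.ker_eq_bot, LinearMap.ker_eq_bot']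
    intro e he
    have h1 : L (ψ e) = e + s⁻¹ • C e := by
      rw [hψ, LinearMap.add_apply, map_add, LinearMap.smul_apply, map_smul]
      congr 1
      exact LinearMap.congr_fun hL e
    rw [he, map_zero] at h1
    have h2 : (algebraMap F (Module.End F (LinearMap.range B × F)) s - (-C)) e = 0 := by
      rw [sub_neg_eq_add, LinearMap.add_apply, Module.algebraMap_end_apply]
      have h3 : s • (e + s⁻¹ • C e) = 0 := by rw [← h1, smul_zero]
      rwa [smul_add, smul_smul, mul_inv_cancel₀ hs0, one_smul] at h3
    have h4 := ((Module.End.isUnit_iff _).1 hs1).1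
    exact h4 (by rw [h2, map_zero])
  have hle : LinearMap.range ψ ≤ LinearMap.range (B + s⁻¹ • B') := by
    rintro _ ⟨⟨y, c⟩, rfl⟩
    refine ⟨σ y + (s * c) • x, ?_⟩
    have e1 : ψ (y, c) = (y : W) + c • B' x + s⁻¹ • B' (σ y) := by
      rw [hψ, LinearMap.add_apply, hga]
      rfl
    have e2 : (B + s⁻¹ • B') (σ y + (s * c) • x) = (y : W) + s⁻¹ • B' (σ y) + (s⁻¹ * (s * c)) • B' x := by
      rw [LinearMap.add_apply, map_add, map_smul, hx, smul_zero, add_zero, hσ' y, LinearMap.smul_apply,
        map_add, map_smul, smul_add, smul_smul, add_assoc]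
    rw [e1, e2, inv_mul_cancel_left₀ hs0]
    abel
  have h5 : Module.finrank F (LinearMap.range ψ) = Module.finrank F (LinearMap.range B) + 1 := by
    rw [LinearMap.finrank_range_of_inj hinj, Module.finrank_prod, Module.finrank_self]
  have h6 := Submodule.finrank_mono hle
  have h7 := h s⁻¹
  omega

/-- The two kernels of a bilinear form have the same codimension. -/
theorem finrank_kernels {F V W : Type} [Field F] [AddCommGroup V] [Module F V]
    [AddCommGroup W] [Module F W] [FiniteDimensional F V] [FiniteDimensional F W]
    (B : V →ₗ[F] W →ₗ[F] F) :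
    Module.finrank F V + Module.finrank F (LinearMap.ker B.flip) =
      Module.finrank F W + Module.finrank F (LinearMap.ker B) := by
  have h1 := LinearMap.finrank_range_add_finrank_ker B
  have h2 := LinearMap.finrank_range_add_finrank_ker B.flip
  have h3 : Module.finrank F (LinearMap.range B.flip) = Module.finrank F (LinearMap.range B) := by
    have e : B.flip = (B.dualMap : Module.Dual F (W →ₗ[F] F) →ₗ[F] Module.Dual F V) ∘ₗ (Module.evalEquiv F W).toLinearMap := by
      ext w v
      simp
    have e2 : LinearMap.range B.flip = LinearMap.range (B.dualMap : Module.Dual F (W →ₗ[F] F) →ₗ[F] Module.Dual F V) := by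
      rw [e]
      exact LinearMap.range_comp_of_range_eq_top _ (LinearEquiv.range _)
    rw [e2]
    exact LinearMap.finrank_range_dualMap_eq_finrank_range B
  omega

end Pool.Agent.FB
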