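import Pool.Agent.FB.Nmp
import Pool.Agent.H80.FB.Parity

/-!
Weights of the Pólya urn on exponent vectors: `W a b = (a + b)! / (a! b!)`, up and down operators,
the spectral gap.
-/

set_option autoImplicit false

namespace Pool.Agent.FB.Polya

open Finset
open H80.FB (ee)

variable {n : ℕ}

theorem ee_self (i : Fin n) : ee i i = 1 := by simp [ee]

theorem ee_ne {i j : Fin n} (h : j ≠ i) : ee i j = 0 := by simp [ee, h]

theorem add_ee_mem {k : ℕ} {z : Fin n → ℕ} (i : Fin n) : z + ee i ∈ MM n (k + 1) ↔ z ∈ MM n k := by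
  rw [mem_MM, mem_MM]
  have h : ∑ j, (z + ee i) j = ∑ j, z j + 1 := by
    simp only [Pi.add_apply, sum_add_distrib]
    congr 1
    have := H80.FB.mem_MM.1 (H80.FB.ee_mem i)
    exact this
  rw [h]
  omega

/-- reindexing -/
theorem sum_shift (k : ℕ) (i : Fin n) (G : (Fin n → ℕ) → ℝ) (h0 : ∀ b, b i = 0 → G b = 0) :
    ∑ b ∈ MM n (k + 1), G b = ∑ z ∈ MM n k, G (z + ee i) := by
  classical
  have h1 : (MM n k).image (fun z => z + ee i) ⊆ MM n (k + 1) := by
    intro b hb
    obtain ⟨z, hz, rfl⟩ := mem_image.1 hb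
    exact (add_ee_mem i).2 hz
  rw [← sum_subset h1, sum_image]
  · intro a _ b _ hab
    exact add_right_cancel hab
  · intro b hb hb'
    apply h0
    by_contra h
    obtain ⟨z, hz, rfl⟩ : ∃ z, z ∈ MM n k ∧ b = z + ee i := by
      refine ⟨b - ee i, ?_, ?_⟩
      · have h2 : b - ee i + ee i = b := by
          funext j
          simp only [Pi.add_apply, Pi.sub_apply]
          by_cases hj : j = i
          · subst hj
            rw [ee_self]
            omega
          · rw [ee_ne hj]
            omega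
        rw [← add_ee_mem i, h2]
        exact hb
      · funext j
        simp only [Pi.add_apply, Pi.sub_apply]
        by_cases hj : j = i
        · subst hj
          rw [ee_self]
          omega
        · rw [ee_ne hj]
          omega
    exact hb' (mem_image_of_mem _ hz)

/-- up operator -/
noncomputable def Up (g : (Fin n → ℕ) → ℝ) (b : Fin n → ℕ) : ℝ := ∑ i, (b i : ℝ) * g (b - ee i)

/-- down operator -/
noncomputable def Dn (h : (Fin n → ℕ) → ℝ) (a : Fin n → ℕ) : ℝ :=
  ∑ i, ((a i : ℝ) + 1) * h (a + ee i)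

/-- the general form of the duality -/
theorem duality (k : ℕ) (G : Fin n → (Fin n → ℕ) → ℝ) :
    ∑ b ∈ MM n (k + 1), ∑ i, (b i : ℝ) * G i b =
      ∑ z ∈ MM n k, ∑ i, ((z i : ℝ) + 1) * G i (z + ee i) := by
  rw [sum_comm, sum_comm (s := MM n k)]
  apply sum_congr rfl
  intro i _
  rw [sum_shift k i (fun b => (b i : ℝ) * G i b)]
  · apply sum_congr rfl
    intro z _
    simp only [Pi.add_apply, ee_self]
    push_cast
    ring
  · intro b hb
    rw [hb]
    simp

theorem adj (k : ℕ) (g h : (Fin n → ℕ) → ℝ) :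
    ∑ b ∈ MM n (k + 1), Up g b * h b = ∑ a ∈ MM n k, g a * Dn h a := by
  have h1 := duality k (fun i b => g (b - ee i) * h b)
  simp only [add_tsub_cancel_right] at h1
  calc ∑ b ∈ MM n (k + 1), Up g b * h b
      = ∑ b ∈ MM n (k + 1), ∑ i, (b i : ℝ) * (g (b - ee i) * h b) := by
        apply sum_congr rfl
        intro b _
        rw [Up, sum_mul]
        apply sum_congr rfl
        intro i _
        ring
    _ = ∑ z ∈ MM n k, ∑ i, ((z i : ℝ) + 1) * (g z * h (z + ee i)) := h1
    _ = _ := by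
        apply sum_congr rfl
        intro z _
        rw [Dn, mul_sum]
        apply sum_congr rfl
        intro i _
        ring

theorem sum_cast {k : ℕ} {a : Fin n → ℕ} (ha : a ∈ MM n k) : ∑ i, (a i : ℝ) = k := by
  have := mem_MM.1 ha
  exact_mod_cast this

/-- the commutation relation -/
theorem comm_Up_Dn {k : ℕ} (g : (Fin n → ℕ) → ℝ) {a : Fin n → ℕ} (ha : a ∈ MM n k) :
    Dn (Up g) a = Up (Dn g) a + ((n : ℝ) + 2 * k) * g a := by
  have h1 : Dn (Up g) a = ∑ i, ∑ j, ((a i : ℝ) + 1) * (((a + ee i) j : ℕ) : ℝ) *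
      g (a + ee i - ee j) := by
    unfold Dn Up
    apply sum_congr rfl
    intro i _
    rw [mul_sum]
    apply sum_congr rfl
    intro j _
    ring
  have h2 : Up (Dn g) a = ∑ i, ∑ j, (a j : ℝ) * ((((a - ee j) i : ℕ) : ℝ) + 1) *
      g (a - ee j + ee i) := by
    unfold Dn Up
    rw [sum_comm]
    apply sum_congr rfl
    intro i _
    rw [mul_sum]
    apply sum_congr rfl
    intro j _
    ring
  have h3 : ((n : ℝ) + 2 * k) * g a = ∑ i : Fin n, ∑ j : Fin n,
      if i = j then (2 * (a i : ℝ) + 1) * g a else 0 := by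
    have h4 : ∀ i : Fin n, (∑ j : Fin n, if i = j then (2 * (a i : ℝ) + 1) * g a else 0) =
        (2 * (a i : ℝ) + 1) * g a := by
      intro i
      rw [sum_ite_eq]
      simp
    simp only [h4]
    rw [← sum_mul, sum_add_distrib, ← mul_sum, sum_cast ha, sum_const, card_univ,
      Fintype.card_fin, nsmul_eq_mul]
    ring
  rw [h1, h2, h3, ← sum_add_distrib]
  apply sum_congr rfl
  intro i _
  rw [← sum_add_distrib]
  apply sum_congr rfl
  intro j _
  by_cases hij : i = j
  · subst hij
    rw [if_pos rfl]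
    rw [add_tsub_cancel_right]
    simp only [Pi.add_apply, Pi.sub_apply, ee_self]
    rcases Nat.eq_zero_or_pos (a i) with h0 | h0
    · rw [h0]
      push_cast
      ring
    · have h5 : a - ee i + ee i = a := by
        funext l
        simp only [Pi.add_apply, Pi.sub_apply]
        by_cases hl : l = i
        · subst hl
          rw [ee_self]
          omega
        · rw [ee_ne hl]
          omega
      rw [h5]
      have h6 : ((a i - 1 : ℕ) : ℝ) = (a i : ℝ) - 1 := by
        rw [Nat.cast_sub h0]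
        simp
      rw [h6]
      push_cast
      ring
  · rw [if_neg hij, add_zero]
    simp only [Pi.add_apply, Pi.sub_apply, ee_ne hij, ee_ne (Ne.symm hij)]
    rcases Nat.eq_zero_or_pos (a j) with h0 | h0
    · rw [h0]
      simp
    · have h5 : a + ee i - ee j = a - ee j + ee i := by
        funext l
        simp only [Pi.add_apply, Pi.sub_apply]
        by_cases hl : l = j
        · subst hl
          rw [ee_self, ee_ne (Ne.symm hij)]
          omega
        · rw [ee_ne hl]
          omega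
      rw [h5]
      simp only [add_zero, tsub_zero]
      ring

theorem Dn_mean (k : ℕ) (g : (Fin n → ℕ) → ℝ) :
    ∑ a ∈ MM n k, Dn g a = (k + 1) * ∑ b ∈ MM n (k + 1), g b := by
  have h1 := adj k (fun _ => 1) g
  simp only [one_mul] at h1
  rw [← h1, mul_sum]
  apply sum_congr rfl
  intro b hb
  have h2 : Up (fun _ => (1 : ℝ)) b = k + 1 := by
    unfold Up
    simp only [mul_one]
    rw [sum_cast hb]
    push_cast
    ring
  rw [h2]

theorem Up_mean (k : ℕ) (g : (Fin n → ℕ) → ℝ) :
    ∑ b ∈ MM n (k + 1), Up g b = (n + k) * ∑ a ∈ MM n k, g a := by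
  have h1 := adj k g (fun _ => 1)
  simp only [mul_one] at h1
  rw [h1, mul_sum]
  apply sum_congr rfl
  intro b hb
  have h2 : Dn (fun _ => (1 : ℝ)) b = n + k := by
    unfold Dn
    simp only [mul_one]
    rw [sum_add_distrib, sum_cast hb]
    simp
    ring
  rw [h2]
  ring

theorem norm_Up (k : ℕ) (g : (Fin n → ℕ) → ℝ) :
    ∑ b ∈ MM n (k + 1), (Up g b) ^ 2 =
      ∑ a ∈ MM n k, Up (Dn g) a * g a + ((n : ℝ) + 2 * k) * ∑ a ∈ MM n k, (g a) ^ 2 := by
  have h1 := adj k g (Up g)
  have h2 : ∑ b ∈ MM n (k + 1), (Up g b) ^ 2 = ∑ b ∈ MM n (k + 1), Up g b * Up g b := by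
    apply sum_congr rfl
    intro b _
    ring
  rw [h2, h1, mul_sum, ← sum_add_distrib]
  apply sum_congr rfl
  intro a ha
  rw [comm_Up_Dn g ha]
  ring

/-- one step of the spectral gap -/
theorem gap_step (k : ℕ) (g : (Fin n → ℕ) → ℝ) (h0 : ∑ a ∈ MM n k, g a = 0) :
    ∑ b ∈ MM n (k + 1), (Up g b) ^ 2 ≤ (k : ℝ) * (k + 1 + n) * ∑ a ∈ MM n k, (g a) ^ 2 := by
  induction k generalizing g with
  | zero =>
    have h1 : MM n 0 = {0} := H80.FB.MM_zero n
    rw [h1, sum_singleton] at h0
    rw [norm_Up, h1, sum_singleton, sum_singleton, h0]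
    simp
  | succ k ih =>
    have h1 : ∑ a ∈ MM n k, Dn g a = 0 := by rw [Dn_mean, h0, mul_zero]
    have h2 := ih (Dn g) h1
    rw [norm_Up]
    have h3 := adj k (Dn g) g
    have h4 : ∑ a ∈ MM n k, Dn g a * Dn g a = ∑ a ∈ MM n k, (Dn g a) ^ 2 := by
      apply sum_congr rfl
      intro b _
      ring
    rw [h4] at h3
    rw [h3]
    set X := ∑ a ∈ MM n k, (Dn g a) ^ 2 with hX
    set Y := ∑ a ∈ MM n (k + 1), (g a) ^ 2 with hY
    set m : ℝ := (k : ℝ) * (k + 1 + n) with hm
    have hm0 : 0 ≤ m := by positivity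
    have hX0 : 0 ≤ X := sum_nonneg fun a _ => sq_nonneg _
    have hY0 : 0 ≤ Y := sum_nonneg fun a _ => sq_nonneg _
    -- X ≤ m * Y
    have h5 : 0 ≤ ∑ b ∈ MM n (k + 1), (Up (Dn g) b - m * g b) ^ 2 :=
      sum_nonneg fun a _ => sq_nonneg _
    have h6 : ∑ b ∈ MM n (k + 1), (Up (Dn g) b - m * g b) ^ 2 =
        ∑ b ∈ MM n (k + 1), (Up (Dn g) b) ^ 2 - 2 * m * X + m ^ 2 * Y := by
      rw [← h3, hY, mul_sum, mul_sum, ← sum_sub_distrib, ← sum_add_distrib]
      apply sum_congr rfl
      intro b _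
      ring
    rw [h6] at h5
    have h7 : X ≤ m * Y := by
      rcases hm0.eq_or_lt with h | h
      · -- m = 0: Up (Dn g) = 0
        rw [← h] at h2 ⊢
        rw [zero_mul] at h2
        rw [zero_mul]
        have h8 : ∑ b ∈ MM n (k + 1), (Up (Dn g) b) ^ 2 = 0 :=
          le_antisymm h2 (sum_nonneg fun a _ => sq_nonneg _)
        have h9 := (sum_eq_zero_iff_of_nonneg (fun a _ => sq_nonneg _)).1 h8
        rw [← h3]
        apply le_of_eq
        apply sum_eq_zero
        intro b hb
        have h10 := h9 b hb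
        have h11 : Up (Dn g) b = 0 := by
          exact pow_eq_zero_iff (two_ne_zero) |>.1 h10
        rw [h11, zero_mul]
      · have h8 : 0 ≤ m * (m * Y - X) := by nlinarith
        have h9 := nonneg_of_mul_nonneg_right h8 h
        linarith
    have h8 : X + ((n : ℝ) + 2 * ((k + 1 : ℕ) : ℝ)) * Y ≤ (m + ((n : ℝ) + 2 * (k + 1))) * Y := by
      push_cast
      nlinarith
    refine h8.trans (le_of_eq ?_)
    rw [hm]
    push_cast
    ring

end Pool.Agent.FB.Polya
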