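import Pool.Agent.FB.Polya1

/-!
The weights `W a b = (a + b)! / (a! b!)`, the two block law, the spectral gap for disjoint blocks.
-/

set_option autoImplicit false

namespace Pool.Agent.FB.Polya

open Finset
open H80.FB (ee)

variable {n : ℕ}

/-- product of the factorials -/
noncomputable def ph (a : Fin n → ℕ) : ℝ := ∏ i, ((a i).factorial : ℝ)

theorem ph_pos (a : Fin n → ℕ) : 0 < ph a :=
  prod_pos fun i _ => by exact_mod_cast Nat.factorial_pos _

theorem ph_add_ee (a : Fin n → ℕ) (i : Fin n) : ph (a + ee i) = ((a i : ℝ) + 1) * ph a := by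
  unfold ph
  rw [← mul_prod_erase univ _ (mem_univ i), ← mul_prod_erase univ (fun j => ((a j).factorial : ℝ))
    (mem_univ i)]
  have h1 : ∏ j ∈ univ.erase i, (((a + ee i) j).factorial : ℝ) =
      ∏ j ∈ univ.erase i, ((a j).factorial : ℝ) := by
    apply prod_congr rfl
    intro j hj
    rw [Pi.add_apply, ee_ne (ne_of_mem_erase hj), add_zero]
  rw [h1, Pi.add_apply, ee_self, Nat.factorial_succ]
  push_cast
  ring

theorem ph_zero : ph (0 : Fin n → ℕ) = 1 := by
  unfold ph
  simp

/-- the weights -/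
noncomputable def W (a b : Fin n → ℕ) : ℝ := ph (a + b) / (ph a * ph b)

theorem W_pos (a b : Fin n → ℕ) : 0 < W a b :=
  div_pos (ph_pos _) (mul_pos (ph_pos _) (ph_pos _))

theorem W_comm (a b : Fin n → ℕ) : W a b = W b a := by
  unfold W
  rw [add_comm, mul_comm]

theorem W_zero (b : Fin n → ℕ) : W 0 b = 1 := by
  unfold W
  rw [zero_add, ph_zero, one_mul, div_self (ph_pos b).ne']

/-- three blocks -/
theorem W_assoc (a b c : Fin n → ℕ) : W a b * W (a + b) c = W a (b + c) * W b c := by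
  unfold W
  have h1 := (ph_pos a).ne'
  have h2 := (ph_pos b).ne'
  have h3 := (ph_pos c).ne'
  have h4 := (ph_pos (a + b)).ne'
  have h5 := (ph_pos (b + c)).ne'
  rw [← add_assoc a b c]
  field_simp

theorem W_add_ee (a b : Fin n → ℕ) (i : Fin n) :
    ((b i : ℝ) + 1) * W a (b + ee i) = ((a i : ℝ) + b i + 1) * W a b := by
  unfold W
  rw [← add_assoc, ph_add_ee, ph_add_ee, Pi.add_apply]
  have h1 := (ph_pos a).ne'
  have h2 := (ph_pos b).ne'
  have h3 : ((b i : ℝ) + 1) ≠ 0 := by positivity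
  push_cast
  field_simp

/-- the two block law -/
theorem two_block (J d : ℕ) (h : (Fin n → ℕ) → ℝ) :
    ∑ a ∈ MM n J, ∑ y ∈ MM n d, W a y * h (a + y) =
      ((J + d).choose J : ℝ) * ∑ x ∈ MM n (J + d), h x := by
  induction J generalizing h with
  | zero =>
    have h1 : MM n 0 = {0} := H80.FB.MM_zero n
    rw [h1, sum_singleton]
    simp only [W_zero, zero_add, one_mul, Nat.choose_zero_right, Nat.cast_one]
  | succ J ih =>
    have h1 : ((J : ℝ) + 1) * ∑ a ∈ MM n (J + 1), ∑ y ∈ MM n d, W a y * h (a + y) =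
        ∑ a ∈ MM n J, ∑ y ∈ MM n d, W a y * Dn h (a + y) := by
      have h2 := duality J (fun (_ : Fin n) a => ∑ y ∈ MM n d, W a y * h (a + y))
      have h3 : ∑ b ∈ MM n (J + 1), ∑ i, (b i : ℝ) * (∑ y ∈ MM n d, W b y * h (b + y)) =
          ((J : ℝ) + 1) * ∑ a ∈ MM n (J + 1), ∑ y ∈ MM n d, W a y * h (a + y) := by
        rw [mul_sum]
        apply sum_congr rfl
        intro b hb
        rw [← sum_mul, sum_cast hb]
        push_cast
        ring
      rw [← h3, h2]
      apply sum_congr rfl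
      intro a _
      rw [sum_congr rfl fun i _ => mul_sum _ _ _, sum_comm]
      apply sum_congr rfl
      intro y _
      rw [Dn, mul_sum]
      apply sum_congr rfl
      intro i _
      have h4 := W_add_ee y a i
      rw [W_comm, W_comm y a] at h4
      have h5 : a + ee i + y = a + y + ee i := by abel
      rw [h5, ← mul_assoc, h4, Pi.add_apply]
      push_cast
      ring
    rw [ih (Dn h), Dn_mean] at h1
    have h6 : ((J + 1 + d).choose (J + 1) : ℝ) * (J + 1) = (J + d + 1) * ((J + d).choose J) := by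
      have h7 := Nat.add_one_mul_choose_eq (J + d) J
      have h8 : J + 1 + d = J + d + 1 := by ring
      rw [h8]
      exact_mod_cast h7.symm
    have h9 : (0 : ℝ) < (J : ℝ) + 1 := by positivity
    have h10 : J + 1 + d = J + d + 1 := by ring
    apply mul_left_cancel₀ h9.ne'
    rw [h1, ← mul_assoc ((J : ℝ) + 1), mul_comm ((J : ℝ) + 1), h6, ← mul_assoc]
    rw [h10]
    push_cast
    ring

/-- the sum of the weights over one block -/
noncomputable def kap (n J K : ℕ) : ℝ := ∏ t ∈ range K, (((n : ℝ) + J + t) / (t + 1))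

theorem kap_zero (n J : ℕ) : kap n J 0 = 1 := by simp [kap]

theorem kap_succ (n J K : ℕ) : kap n J (K + 1) * (K + 1) = kap n J K * (n + J + K) := by
  unfold kap
  rw [prod_range_succ, mul_assoc]
  congr 1
  field_simp

theorem kap_shift (n J K : ℕ) :
    kap n (J + 1) K * (n + J) = kap n J K * (n + J + K) := by
  induction K with
  | zero => rw [kap_zero, kap_zero]; push_cast; ring
  | succ K ih =>
    have h1 := kap_succ n (J + 1) K
    have h2 := kap_succ n J K
    have h5 : (0 : ℝ) < (K : ℝ) + 1 := by positivity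
    apply mul_left_cancel₀ h5.ne'
    push_cast at h1 h2 ih ⊢
    calc ((K : ℝ) + 1) * (kap n (J + 1) (K + 1) * (n + J))
        = (kap n (J + 1) (K + 1) * (K + 1)) * (n + J) := by ring
      _ = (kap n (J + 1) K * (n + J)) * (n + (J + 1) + K) := by rw [h1]; ring
      _ = (kap n J K * (n + J + K)) * (n + (J + 1) + K) := by rw [ih]
      _ = (kap n J (K + 1) * (K + 1)) * (n + (J + 1) + K) := by rw [h2]
      _ = _ := by ring

theorem kap_nonneg (n J K : ℕ) : 0 ≤ kap n J K := prod_nonneg fun t _ => by positivity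

theorem kap_pos {n : ℕ} (hn : 1 ≤ n) (J K : ℕ) : 0 < kap n J K := by
  apply prod_pos
  intro t _
  have : (1 : ℝ) ≤ n := by exact_mod_cast hn
  positivity

theorem sum_W {J : ℕ} {a : Fin n → ℕ} (ha : a ∈ MM n J) (K : ℕ) :
    ∑ b ∈ MM n K, W a b = kap n J K := by
  induction K with
  | zero =>
    have h1 : MM n 0 = {0} := H80.FB.MM_zero n
    rw [h1, sum_singleton, W_comm, W_zero, kap_zero]
  | succ K ih =>
    have h1 := duality K (fun (_ : Fin n) b => W a b)
    have h2 : ∑ b ∈ MM n (K + 1), ∑ i, (b i : ℝ) * W a b =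
        ((K : ℝ) + 1) * ∑ b ∈ MM n (K + 1), W a b := by
      rw [mul_sum]
      apply sum_congr rfl
      intro b hb
      rw [← sum_mul, sum_cast hb]
      push_cast
      ring
    have h3 : ∑ z ∈ MM n K, ∑ i, ((z i : ℝ) + 1) * W a (z + ee i) =
        ((n : ℝ) + J + K) * ∑ b ∈ MM n K, W a b := by
      rw [mul_sum]
      apply sum_congr rfl
      intro z hz
      simp only [W_add_ee]
      rw [← sum_mul, sum_add_distrib, sum_add_distrib, sum_cast ha, sum_cast hz, sum_const,
        card_univ, Fintype.card_fin, nsmul_eq_mul]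
      ring
    rw [h2, h3, ih] at h1
    have h4 := kap_succ n J K
    have h5 : (0 : ℝ) < (K : ℝ) + 1 := by positivity
    apply mul_left_cancel₀ h5.ne'
    rw [h1]
    linarith

theorem kap_card (K : ℕ) : kap n 0 K = ((MM n K).card : ℝ) := by
  have h1 : (0 : Fin n → ℕ) ∈ MM n 0 := by
    rw [mem_MM]
    simp
  rw [← sum_W h1 K]
  simp only [W_zero]
  rw [sum_const, nsmul_eq_mul, mul_one]

/-- the double sum -/
noncomputable def S (J K : ℕ) (f g : (Fin n → ℕ) → ℝ) : ℝ :=
  ∑ a ∈ MM n J, ∑ b ∈ MM n K, W a b * (f a * g b)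

theorem S_comm (J K : ℕ) (f g : (Fin n → ℕ) → ℝ) : S J K f g = S K J g f := by
  unfold S
  rw [sum_comm]
  apply sum_congr rfl
  intro a _
  apply sum_congr rfl
  intro b _
  rw [W_comm]
  ring

theorem S_one (J K : ℕ) (f : (Fin n → ℕ) → ℝ) :
    S J K f (fun _ => 1) = kap n J K * ∑ a ∈ MM n J, f a := by
  unfold S
  rw [mul_sum]
  apply sum_congr rfl
  intro a ha
  rw [← sum_W ha K, sum_mul]
  apply sum_congr rfl
  intro b _
  ring

/-- the tower property -/
theorem S_Up (J K : ℕ) (f g : (Fin n → ℕ) → ℝ) :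
    S J (K + 1) f (Up g) = ((n : ℝ) + J + K) * S J K f g := by
  unfold S
  rw [mul_sum]
  apply sum_congr rfl
  intro a ha
  have h1 := adj K g (fun b => W a b * f a)
  have h2 : ∑ b ∈ MM n (K + 1), W a b * (f a * Up g b) =
      ∑ b ∈ MM n (K + 1), Up g b * (W a b * f a) := by
    apply sum_congr rfl
    intro b _
    ring
  rw [h2, h1, mul_sum]
  apply sum_congr rfl
  intro z hz
  unfold Dn
  have h3 : ∀ i : Fin n, ((z i : ℝ) + 1) * (W a (z + ee i) * f a) =
      ((a i : ℝ) + z i + 1) * (W a z * f a) := by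
    intro i
    rw [← mul_assoc, W_add_ee]
    ring
  simp only [h3]
  rw [← sum_mul, sum_add_distrib, sum_add_distrib, sum_cast ha, sum_cast hz, sum_const,
    card_univ, Fintype.card_fin, nsmul_eq_mul]
  ring

theorem S_Up_Up (J : ℕ) (g : (Fin n → ℕ) → ℝ) :
    S (J + 1) (J + 1) (Up g) (Up g) = ((n : ℝ) + (2 * J + 1)) * ((n : ℝ) + 2 * J) * S J J g g := by
  rw [S_Up, S_comm, S_Up]
  push_cast
  ring

theorem S_le (J : ℕ) (g : (Fin n → ℕ) → ℝ) :
    S J J g g ≤ kap n J J * ∑ a ∈ MM n J, (g a) ^ 2 := by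
  have h1 : S J J g g ≤ ∑ a ∈ MM n J, ∑ b ∈ MM n J, W a b * (((g a) ^ 2 + (g b) ^ 2) / 2) := by
    unfold S
    apply sum_le_sum
    intro a _
    apply sum_le_sum
    intro b _
    apply mul_le_mul_of_nonneg_left _ (W_pos a b).le
    nlinarith [sq_nonneg (g a - g b)]
  refine h1.trans (le_of_eq ?_)
  have h2 := S_one J J (fun a => (g a) ^ 2)
  have h3 := S_comm J J (fun a => (g a) ^ 2) (fun _ => (1 : ℝ))
  have h4 : ∑ a ∈ MM n J, ∑ b ∈ MM n J, W a b * (((g a) ^ 2 + (g b) ^ 2) / 2) =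
      (S J J (fun a => (g a) ^ 2) (fun _ => 1) + S J J (fun _ => 1) (fun a => (g a) ^ 2)) / 2 := by
    unfold S
    rw [← sum_add_distrib, sum_div]
    apply sum_congr rfl
    intro a _
    rw [← sum_add_distrib, sum_div]
    apply sum_congr rfl
    intro b _
    ring
  rw [h4, ← h3, h2]
  ring

/-- the spectral gap with a parameter -/
theorem gap_param (hn : 1 ≤ n) (r : ℕ) : ∀ (J : ℕ) (g : (Fin n → ℕ) → ℝ),
    ∑ a ∈ MM n J, g a = 0 →
    S J J g g * (((J : ℝ) + r) * (J + n)) ≤
      kap n J J * (J * (J + r + n)) * ∑ a ∈ MM n J, (g a) ^ 2 := by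
  have hn' : (1 : ℝ) ≤ n := by exact_mod_cast hn
  induction r with
  | zero =>
    intro J g _
    have h1 := S_le J g
    have h2 : (0 : ℝ) ≤ ((J : ℝ) + 0) * (J + n) := by positivity
    have h3 := mul_le_mul_of_nonneg_right h1 h2
    push_cast
    refine h3.trans (le_of_eq ?_)
    ring
  | succ r ih =>
    intro J g h0
    have h1 : ∑ b ∈ MM n (J + 1), Up g b = 0 := by rw [Up_mean, h0, mul_zero]
    have h2 := ih (J + 1) (Up g) h1
    rw [S_Up_Up] at h2
    have h3 := gap_step J g h0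
    have hY0 : 0 ≤ ∑ a ∈ MM n J, (g a) ^ 2 := sum_nonneg fun a _ => sq_nonneg _
    set Y := ∑ a ∈ MM n J, (g a) ^ 2
    set X := ∑ b ∈ MM n (J + 1), (Up g b) ^ 2
    set s := S J J g g
    -- kap (J+1) (J+1) * (J+1) * (n + J) = kap J J * (n + 2J + 1) (n + 2J)
    have h4 : kap n (J + 1) (J + 1) * ((J + 1) * (n + J)) =
        kap n J J * ((n + 2 * J + 1) * (n + 2 * J)) := by
      have h5 := kap_succ n (J + 1) J
      have h6 := kap_shift n J J
      push_cast at h5 h6
      calc kap n (J + 1) (J + 1) * (((J : ℝ) + 1) * (n + J))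
          = (kap n (J + 1) (J + 1) * (J + 1)) * (n + J) := by ring
        _ = (kap n (J + 1) J * (n + J)) * (n + (J + 1) + J) := by rw [h5]; ring
        _ = (kap n J J * (n + J + J)) * (n + (J + 1) + J) := by rw [h6]
        _ = _ := by ring
    have h5 : kap n (J + 1) (J + 1) * (((J + 1 : ℕ) : ℝ) * ((J + 1 : ℕ) + r + n)) * X ≤
        kap n (J + 1) (J + 1) * (((J + 1 : ℕ) : ℝ) * ((J + 1 : ℕ) + r + n)) *
          ((J : ℝ) * (J + 1 + n) * Y) := by
      apply mul_le_mul_of_nonneg_left h3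
      have := kap_nonneg n (J + 1) (J + 1)
      positivity
    have h6 := h2.trans h5
    push_cast at h6 ⊢
    have h7 : (0 : ℝ) < ((n : ℝ) + 2 * J + 1) * (n + 2 * J) * (J + 1 + n) := by positivity
    have h8 : (0 : ℝ) < (n : ℝ) + J := by positivity
    have h9 : s * ((J + (r + 1)) * (J + n)) *
        (((n : ℝ) + 2 * J + 1) * (n + 2 * J) * (J + 1 + n)) ≤
        kap n J J * (J * (J + (r + 1) + n)) * Y *
          (((n : ℝ) + 2 * J + 1) * (n + 2 * J) * (J + 1 + n)) := by
      have h10 : s * ((J + (r + 1)) * (J + n)) *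
        (((n : ℝ) + 2 * J + 1) * (n + 2 * J) * (J + 1 + n)) =
        ((n + (2 * J + 1)) * (n + 2 * J) * s * ((J + 1 + r) * (J + 1 + n))) * ((n : ℝ) + J) := by
        ring
      have h11 : kap n J J * (J * (J + (r + 1) + n)) * Y *
          (((n : ℝ) + 2 * J + 1) * (n + 2 * J) * (J + 1 + n)) =
          (kap n (J + 1) (J + 1) * ((J + 1) * (J + 1 + r + n)) * (J * (J + 1 + n) * Y)) *
            ((n : ℝ) + J) := by
        calc kap n J J * (J * (J + (r + 1) + n)) * Y *
          (((n : ℝ) + 2 * J + 1) * (n + 2 * J) * (J + 1 + n)) =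
            (kap n J J * ((n + 2 * J + 1) * (n + 2 * J))) *
              ((J * (J + (r + 1) + n)) * Y * (J + 1 + n)) := by ring
          _ = (kap n (J + 1) (J + 1) * ((J + 1) * (n + J))) *
              ((J * (J + (r + 1) + n)) * Y * (J + 1 + n)) := by rw [h4]
          _ = _ := by ring
      rw [h10, h11]
      exact mul_le_mul_of_nonneg_right h6 h8.le
    exact le_of_mul_le_mul_right h9 h7

/-- the spectral gap for two disjoint blocks -/
theorem gap (hn : 1 ≤ n) (J : ℕ) (g : (Fin n → ℕ) → ℝ) (h0 : ∑ a ∈ MM n J, g a = 0) :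
    S J J g g * (J + n) ≤ kap n J J * J * ∑ a ∈ MM n J, (g a) ^ 2 := by
  have hn' : (1 : ℝ) ≤ n := by exact_mod_cast hn
  have hY0 : 0 ≤ ∑ a ∈ MM n J, (g a) ^ 2 := sum_nonneg fun a _ => sq_nonneg _
  set X := S J J g g * (J + n) with hX
  set Y := kap n J J * J * ∑ a ∈ MM n J, (g a) ^ 2 with hY
  have h1 : ∀ r : ℕ, X * ((J : ℝ) + r) ≤ Y * (J + r + n) := by
    intro r
    have h2 := gap_param hn r J g h0
    calc X * ((J : ℝ) + r) = S J J g g * (((J : ℝ) + r) * (J + n)) := by
          rw [hX]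
          ring
      _ ≤ _ := h2
      _ = Y * (J + r + n) := by
          rw [hY]
          ring
  by_contra hlt
  push Not at hlt
  obtain ⟨r, hr⟩ := exists_nat_gt (Y * n / (X - Y))
  have h3 := h1 r
  have h4 : 0 < X - Y := by linarith
  rw [div_lt_iff₀ h4] at hr
  have h5 : (0 : ℝ) ≤ J := by positivity
  nlinarith

end Pool.Agent.FB.Polya
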