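import Pool.Agent.FB.Polya2

/-!
The order of the stable sets on exponent vectors (a distributive lattice, through the tail sums),
the correlation inequality (four functions theorem), and monotonicity of the weights.
-/

set_option autoImplicit false

namespace Pool.Agent.FB.Polya

open Finset
open scoped FinsetFamily
open H80.FB (ee)

variable {n : ℕ}

/-- tail sums -/
def ts (a : Fin n → ℕ) (k : Fin (n + 1)) : ℕ := ∑ i, if k ≤ i.castSucc then a i else 0

/-- differences -/
def inv (x : Fin (n + 1) → ℕ) (i : Fin n) : ℕ := x i.castSucc - x i.succ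

theorem ts_last (a : Fin n → ℕ) : ts a (Fin.last n) = 0 := by
  unfold ts
  apply sum_eq_zero
  intro i _
  rw [if_neg]
  exact not_le.2 (Fin.castSucc_lt_last i)

theorem ts_castSucc (a : Fin n → ℕ) (i : Fin n) : ts a i.castSucc = a i + ts a i.succ := by
  unfold ts
  have h1 : a i = ∑ j, if j = i then a j else 0 := by
    rw [sum_ite_eq']
    simp
  conv_rhs => rw [h1]
  rw [← sum_add_distrib]
  apply sum_congr rfl
  intro j _
  simp only [Fin.castSucc_le_castSucc_iff, Fin.succ_le_castSucc_iff]
  rcases lt_trichotomy i j with h | h | h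
  · rw [if_pos h.le, if_neg h.ne', if_pos h, zero_add]
  · subst h
    simp
  · rw [if_neg (not_le.2 h), if_neg h.ne, if_neg (not_lt.2 h.le)]

theorem ts_zero (a : Fin n → ℕ) : ts a 0 = ∑ i, a i := by
  unfold ts
  apply sum_congr rfl
  intro i _
  rw [if_pos (Fin.zero_le _)]

theorem ts_anti (a : Fin n → ℕ) : Antitone (ts a) := by
  intro k l hkl
  unfold ts
  apply sum_le_sum
  intro i _
  by_cases h : l ≤ i.castSucc
  · rw [if_pos h, if_pos (hkl.trans h)]
  · rw [if_neg h]
    exact Nat.zero_le _

theorem inv_ts (a : Fin n → ℕ) : inv (ts a) = a := by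
  funext i
  unfold inv
  rw [ts_castSucc]
  omega

theorem ts_inj {a b : Fin n → ℕ} (h : ts a = ts b) : a = b := by
  rw [← inv_ts a, h, inv_ts]

theorem ts_inv {x : Fin (n + 1) → ℕ} (hx : Antitone x) (h0 : x (Fin.last n) = 0) :
    ts (inv x) = x := by
  funext k
  induction k using Fin.reverseInduction with
  | last => rw [ts_last, h0]
  | cast i ih =>
    rw [ts_castSucc, ih]
    have := hx (Fin.castSucc_le_succ i)
    unfold inv
    omega

theorem ts_add_ee (z : Fin n → ℕ) (p : Fin n) (k : Fin (n + 1)) :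
    ts (z + ee p) k = ts z k + if k ≤ p.castSucc then 1 else 0 := by
  unfold ts
  have h1 : (if k ≤ p.castSucc then 1 else 0 : ℕ) =
      ∑ j, if j = p then (if k ≤ j.castSucc then 1 else 0 : ℕ) else 0 := by
    rw [sum_ite_eq']
    simp
  rw [h1, ← sum_add_distrib]
  apply sum_congr rfl
  intro i _
  rw [Pi.add_apply]
  by_cases hi : i = p
  · subst hi
    rw [ee_self, if_pos rfl]
    split_ifs <;> rfl
  · rw [ee_ne hi, if_neg hi]
    simp

/-- functions which are antitone under elementary moves are antitone -/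
theorem anti_of_moves {J : ℕ} (F : (Fin n → ℕ) → ℝ)
    (hF : ∀ (z : Fin n → ℕ) (p q : Fin n), p < q → z + ee p ∈ MM n J →
      F (z + ee q) ≤ F (z + ee p)) {b : Fin n → ℕ} (hb : b ∈ MM n J) (N : ℕ) :
    ∀ a, a ∈ MM n J → (∀ k, ts a k ≤ ts b k) → ∑ k, ts b k ≤ ∑ k, ts a k + N → F b ≤ F a := by
  induction N with
  | zero =>
    intro a ha hab hN
    have h1 : ∀ k ∈ (univ : Finset (Fin (n + 1))), ts a k = ts b k := by
      rw [← sum_eq_sum_iff_of_le (fun k _ => hab k)]
      exact le_antisymm (sum_le_sum fun k _ => hab k) hN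
    have h2 : a = b := ts_inj (funext fun k => h1 k (mem_univ k))
    rw [h2]
  | succ N ih =>
    intro a ha hab hN
    by_cases heq : a = b
    · rw [heq]
    · obtain ⟨q₀, hq₀⟩ : ∃ q₀, ts a q₀ < ts b q₀ := by
        by_contra h
        push Not at h
        exact heq (ts_inj (funext fun k => le_antisymm (hab k) (h k)))
      have hq₁ : q₀ ≠ Fin.last n := by
        rintro rfl
        rw [ts_last, ts_last] at hq₀
        exact lt_irrefl _ hq₀
      obtain ⟨q, rfl⟩ : ∃ q : Fin n, q.castSucc = q₀ := Fin.exists_castSucc_eq.2 hq₁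
      let P := univ.filter fun p : Fin n => p < q ∧ a p ≠ 0
      have hJ : ts a 0 = ts b 0 := by
        rw [ts_zero, ts_zero, mem_MM.1 ha, mem_MM.1 hb]
      have hP : P.Nonempty := by
        by_contra hP
        rw [not_nonempty_iff_eq_empty] at hP
        have h1 : ts a 0 ≤ ts a q.castSucc := by
          unfold ts
          apply sum_le_sum
          intro i _
          rw [if_pos (Fin.zero_le _)]
          by_cases hi : q ≤ i
          · rw [if_pos (Fin.castSucc_le_castSucc_iff.2 hi)]
          · have h2 : i ∉ P := by rw [hP]; exact notMem_empty i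
            have h3 : a i = 0 := by
              by_contra h4
              exact h2 (mem_filter.2 ⟨mem_univ i, not_le.1 hi, h4⟩)
            rw [h3]
            exact Nat.zero_le _
        have h2 := ts_anti b (Fin.zero_le q.castSucc)
        omega
      obtain ⟨p, hpP, hmax⟩ := P.exists_max_image id hP
      obtain ⟨-, hpq, hap⟩ := mem_filter.1 hpP
      have hz : a - ee p + ee p = a := by
        funext j
        simp only [Pi.add_apply, Pi.sub_apply]
        by_cases hj : j = p
        · subst hj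
          rw [ee_self]
          omega
        · rw [ee_ne hj]
          omega
      set z := a - ee p with hzdef
      have ha' : z + ee p ∈ MM n J := by rw [hz]; exact ha
      have hJ1 : ∃ k, J = k + 1 := by
        refine ⟨J - 1, ?_⟩
        have h1 := mem_MM.1 ha
        have h2 : a p ≤ ∑ i, a i := single_le_sum (fun i _ => Nat.zero_le _) (mem_univ p)
        omega
      obtain ⟨k₀, rfl⟩ := hJ1
      have hz' : z ∈ MM n k₀ := (add_ee_mem p).1 ha'
      have ha'' : z + ee q ∈ MM n (k₀ + 1) := (add_ee_mem q).2 hz'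
      have hts : ∀ k, ts a k = ts z k + if k ≤ p.castSucc then 1 else 0 := by
        intro k
        rw [← ts_add_ee, hz]
      have hmove : ∀ k, ts (z + ee q) k ≤ ts b k := by
        intro k
        rw [ts_add_ee]
        have h1 := hts k
        by_cases hkp : k ≤ p.castSucc
        · have hkq : k ≤ q.castSucc := hkp.trans (Fin.castSucc_le_castSucc_iff.2 hpq.le)
          rw [if_pos hkq]
          rw [if_pos hkp] at h1
          have := hab k
          omega
        · rw [if_neg hkp] at h1
          by_cases hkq : k ≤ q.castSucc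
          · rw [if_pos hkq]
            have h2 : ts a k ≤ ts a q.castSucc := by
              unfold ts
              apply sum_le_sum
              intro i _
              by_cases hki : k ≤ i.castSucc
              · rw [if_pos hki]
                by_cases hi : q ≤ i
                · rw [if_pos (Fin.castSucc_le_castSucc_iff.2 hi)]
                · have h3 : i ∉ P := by
                    intro h4
                    have h5 : i ≤ p := hmax i h4
                    exact hkp (hki.trans (Fin.castSucc_le_castSucc_iff.2 h5))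
                  have h4 : a i = 0 := by
                    by_contra h5
                    exact h3 (mem_filter.2 ⟨mem_univ i, not_le.1 hi, h5⟩)
                  rw [h4]
                  exact Nat.zero_le _
              · rw [if_neg hki]
                exact Nat.zero_le _
            have h3 := ts_anti b hkq
            omega
          · rw [if_neg hkq]
            have := hab k
            omega
      have hsum : ∑ k, ts a k < ∑ k, ts (z + ee q) k := by
        apply sum_lt_sum
        · intro k _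
          rw [hts, ts_add_ee]
          have h1 : k ≤ p.castSucc → k ≤ q.castSucc := fun h =>
            h.trans (Fin.castSucc_le_castSucc_iff.2 hpq.le)
          split_ifs with h2 h3
          · omega
          · exact absurd (h1 h2) h3
          · omega
          · omega
        · refine ⟨q.castSucc, mem_univ _, ?_⟩
          rw [hts, ts_add_ee, if_neg, if_pos le_rfl]
          · omega
          · rw [Fin.castSucc_le_castSucc_iff]
            exact not_le.2 hpq
      have h1 := ih (z + ee q) ha'' hmove (by omega)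
      have h2 := hF z p q hpq ha'
      rw [hz] at h2
      exact h1.trans h2

theorem anti_of_moves' {J : ℕ} (F : (Fin n → ℕ) → ℝ)
    (hF : ∀ (z : Fin n → ℕ) (p q : Fin n), p < q → z + ee p ∈ MM n J →
      F (z + ee q) ≤ F (z + ee p)) {a b : Fin n → ℕ} (ha : a ∈ MM n J) (hb : b ∈ MM n J)
    (h : ∀ k, ts a k ≤ ts b k) : F b ≤ F a :=
  anti_of_moves F hF hb (∑ k, ts b k) a ha h (by omega)

/-- stable sets are up-sets -/
theorem stable_up {J : ℕ} {A : Finset (Fin n → ℕ)} (hA : H80.FB.Stable A) {a b : Fin n → ℕ}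
    (ha : a ∈ MM n J) (hb : b ∈ MM n J) (h : ∀ k, ts a k ≤ ts b k) (haA : a ∈ A) : b ∈ A := by
  classical
  by_contra hbA
  have h1 := anti_of_moves' (J := J) (fun x => if x ∈ A then 0 else 1) (by
    intro z p q hpq _
    by_cases h2 : z + ee p ∈ A
    · have h3 : z + ee q ∈ A := hA z p q hpq h2
      simp [h2, h3]
    · simp only [h2, if_false]
      split_ifs <;> norm_num) ha hb h
  simp only [hbA, haA, if_true, if_false] at h1
  norm_num at h1

/-- the lattice -/
theorem mem_image_ts {J : ℕ} {x : Fin (n + 1) → ℕ} :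
    x ∈ (MM n J).image ts ↔ Antitone x ∧ x (Fin.last n) = 0 ∧ x 0 = J := by
  constructor
  · intro h
    obtain ⟨a, ha, rfl⟩ := mem_image.1 h
    exact ⟨ts_anti a, ts_last a, by rw [ts_zero, mem_MM.1 ha]⟩
  · rintro ⟨h1, h2, h3⟩
    refine mem_image.2 ⟨inv x, ?_, ts_inv h1 h2⟩
    rw [mem_MM, ← ts_zero, ts_inv h1 h2, h3]

/-- the correlation inequality -/
theorem cheb {J : ℕ} {A : Finset (Fin n → ℕ)} (hAJ : A ⊆ MM n J) (hA : H80.FB.Stable A)
    (F : (Fin n → ℕ) → ℝ) (hF0 : ∀ a, 0 ≤ F a)
    (hF : ∀ (z : Fin n → ℕ) (p q : Fin n), p < q → z + ee p ∈ MM n J →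
      F (z + ee q) ≤ F (z + ee p)) :
    (∑ a ∈ A, F a) * ((MM n J).card : ℝ) ≤ (∑ a ∈ MM n J, F a) * (A.card : ℝ) := by
  classical
  set L := (MM n J).image ts with hL
  let f₁ : (Fin (n + 1) → ℕ) → ℝ := fun x => if x ∈ L ∧ inv x ∈ A then F (inv x) else 0
  let f₂ : (Fin (n + 1) → ℕ) → ℝ := fun x => if x ∈ L then 1 else 0
  let f₃ : (Fin (n + 1) → ℕ) → ℝ := fun x => if x ∈ L then F (inv x) else 0
  let f₄ : (Fin (n + 1) → ℕ) → ℝ := fun x => if x ∈ L ∧ inv x ∈ A then 1 else 0
  have h1 : (0 : (Fin (n + 1) → ℕ) → ℝ) ≤ f₁ := fun x => by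
    simp only [f₁, Pi.zero_apply]
    split_ifs
    exacts [hF0 _, le_rfl]
  have h2 : (0 : (Fin (n + 1) → ℕ) → ℝ) ≤ f₂ := fun x => by
    simp only [f₂, Pi.zero_apply]
    split_ifs
    exacts [zero_le_one, le_rfl]
  have h3 : (0 : (Fin (n + 1) → ℕ) → ℝ) ≤ f₃ := fun x => by
    simp only [f₃, Pi.zero_apply]
    split_ifs
    exacts [hF0 _, le_rfl]
  have h4 : (0 : (Fin (n + 1) → ℕ) → ℝ) ≤ f₄ := fun x => by
    simp only [f₄, Pi.zero_apply]
    split_ifs
    exacts [zero_le_one, le_rfl]
  have hinf : ∀ x ∈ L, ∀ y ∈ L, x ⊓ y ∈ L := by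
    intro x hx y hy
    rw [hL, mem_image_ts] at hx hy ⊢
    refine ⟨hx.1.inf hy.1, ?_, ?_⟩
    · rw [Pi.inf_apply, hx.2.1, hy.2.1]
      rfl
    · rw [Pi.inf_apply, hx.2.2, hy.2.2]
      exact inf_idem J
  have hsup : ∀ x ∈ L, ∀ y ∈ L, x ⊔ y ∈ L := by
    intro x hx y hy
    rw [hL, mem_image_ts] at hx hy ⊢
    refine ⟨hx.1.sup hy.1, ?_, ?_⟩
    · rw [Pi.sup_apply, hx.2.1, hy.2.1]
      rfl
    · rw [Pi.sup_apply, hx.2.2, hy.2.2]
      exact sup_idem J
  have hmem : ∀ x ∈ L, inv x ∈ MM n J ∧ ts (inv x) = x := by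
    intro x hx
    obtain ⟨a, ha, rfl⟩ := mem_image.1 hx
    rw [inv_ts]
    exact ⟨ha, rfl⟩
  have h : ∀ x y, f₁ x * f₂ y ≤ f₃ (x ⊓ y) * f₄ (x ⊔ y) := by
    intro x y
    by_cases hx : x ∈ L ∧ inv x ∈ A
    · by_cases hy : y ∈ L
      · have h5 := hinf x hx.1 y hy
        have h6 := hsup x hx.1 y hy
        obtain ⟨h7, h8⟩ := hmem x hx.1
        obtain ⟨h9, h10⟩ := hmem _ h5
        obtain ⟨h11, h12⟩ := hmem _ h6
        have h13 : inv (x ⊔ y) ∈ A := by
          refine stable_up hA h7 h11 ?_ hx.2
          intro k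
          rw [h8, h12]
          exact (le_sup_left : x ≤ x ⊔ y) k
        have h14 : F (inv x) ≤ F (inv (x ⊓ y)) := by
          refine anti_of_moves' F hF h9 h7 ?_
          intro k
          rw [h8, h10]
          exact (inf_le_left : x ⊓ y ≤ x) k
        simp only [f₁, f₂, f₃, f₄]
        rw [if_pos hx, if_pos hy, if_pos h5, if_pos ⟨h6, h13⟩, mul_one, mul_one]
        exact h14
      · simp only [f₂, if_neg hy, mul_zero]
        exact mul_nonneg (h3 _) (h4 _)
    · simp only [f₁, if_neg hx, zero_mul]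
      exact mul_nonneg (h3 _) (h4 _)
  have key := four_functions_theorem f₁ f₂ f₃ f₄ h1 h2 h3 h4 h L L
  have hinj : Set.InjOn (ts (n := n)) (MM n J : Set (Fin n → ℕ)) := fun a _ b _ hab => ts_inj hab
  have e1 : ∑ x ∈ L, f₁ x = ∑ a ∈ A, F a := by
    rw [hL, sum_image hinj]
    simp only [f₁, inv_ts]
    rw [← sum_subset hAJ]
    · apply sum_congr rfl
      intro a ha
      rw [if_pos ⟨mem_image_of_mem _ (hAJ ha), ha⟩]
    · intro a _ ha
      rw [if_neg (fun h => ha h.2)]
  have e2 : ∑ x ∈ L, f₂ x = ((MM n J).card : ℝ) := by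
    rw [hL, sum_image hinj]
    simp only [f₂]
    rw [card_eq_sum_ones]
    push_cast
    apply sum_congr rfl
    intro a ha
    rw [if_pos (mem_image_of_mem _ ha)]
  have e3 : ∑ x ∈ L ⊼ L, f₃ x ≤ ∑ a ∈ MM n J, F a := by
    have h5 : L ⊼ L ⊆ L := by
      intro x hx
      obtain ⟨a, ha, b, hb, rfl⟩ := mem_infs.1 hx
      exact hinf a ha b hb
    refine (sum_le_sum_of_subset_of_nonneg h5 fun x _ _ => h3 x).trans (le_of_eq ?_)
    rw [hL, sum_image hinj]
    simp only [f₃, inv_ts]
    apply sum_congr rfl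
    intro a ha
    rw [if_pos (mem_image_of_mem _ ha)]
  have e4 : ∑ x ∈ L ⊻ L, f₄ x ≤ (A.card : ℝ) := by
    have h5 : L ⊻ L ⊆ L := by
      intro x hx
      obtain ⟨a, ha, b, hb, rfl⟩ := mem_sups.1 hx
      exact hsup a ha b hb
    refine (sum_le_sum_of_subset_of_nonneg h5 fun x _ _ => h4 x).trans (le_of_eq ?_)
    rw [hL, sum_image hinj]
    simp only [f₄, inv_ts]
    rw [← sum_subset hAJ]
    · rw [card_eq_sum_ones]
      push_cast
      apply sum_congr rfl
      intro a ha
      rw [if_pos ⟨mem_image_of_mem _ (hAJ ha), ha⟩]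
    · intro a _ ha
      rw [if_neg (fun h => ha h.2)]
  rw [e1, e2] at key
  refine key.trans ?_
  exact mul_le_mul e3 e4 (sum_nonneg fun x _ => h4 x) (sum_nonneg fun a _ => hF0 a)

/-- monotonicity of the weights -/
theorem weight_moves {d : ℕ} {B : Finset (Fin n → ℕ)} (hB : H80.FB.Stable B)
    (u : Fin n → ℕ) {p q : Fin n} (hpq : p < q) :
    ∑ y ∈ MM n (d + 1) \ B, W (u + ee q) y ≤ ∑ y ∈ MM n (d + 1) \ B, W (u + ee p) y := by
  classical
  have hne : p ≠ q := hpq.ne
  -- the two parts
  let G : Fin n → Fin n → (Fin n → ℕ) → ℝ := fun p q y =>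
    W u y * ((y p : ℝ) * ((u q : ℝ) + y q + 1)) / (((u p : ℝ) + 1) * ((u q : ℝ) + 1))
  have hW : ∀ (r : Fin n) (y : Fin n → ℕ), W (u + ee r) y =
      W u y * ((u r : ℝ) + y r + 1) / ((u r : ℝ) + 1) := by
    intro r y
    have h1 := W_add_ee y u r
    rw [W_comm, W_comm y u] at h1
    rw [eq_div_iff (by positivity), mul_comm, h1]
    ring
  have hdiff : ∀ y, W (u + ee p) y - W (u + ee q) y = G p q y - G q p y := by
    intro y
    rw [hW, hW]
    simp only [G]
    have h1 : ((u p : ℝ) + 1) ≠ 0 := by positivity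
    have h2 : ((u q : ℝ) + 1) ≠ 0 := by positivity
    field_simp
    ring
  have hG : ∀ (p q : Fin n), p ≠ q → ∀ z : Fin n → ℕ,
      G p q (z + ee p) = W (u + ee p + ee q) z := by
    intro p q hne z
    have h1 := W_add_ee u z p
    simp only [G, Pi.add_apply, ee_self, ee_ne (Ne.symm hne)]
    have h2 : W (u + ee p + ee q) z = W u z * ((u p : ℝ) + z p + 1) / ((u p : ℝ) + 1) *
        ((u q : ℝ) + z q + 1) / ((u q : ℝ) + 1) := by
      have h3 := W_add_ee z (u + ee p) q
      rw [W_comm, W_comm z (u + ee p), Pi.add_apply, ee_ne (Ne.symm hne), hW p] at h3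
      rw [eq_div_iff (by positivity), mul_comm]
      push_cast at h3
      rw [add_zero] at h3
      rw [h3]
      ring
    rw [h2]
    have h3 : ((u p : ℝ) + 1) ≠ 0 := by positivity
    have h4 : ((u q : ℝ) + 1) ≠ 0 := by positivity
    have h5 : ((z p : ℝ) + 1) ≠ 0 := by positivity
    push_cast
    rw [add_zero]
    have h6 : W u (z + ee p) * (((z p : ℝ) + 1) * ((u q : ℝ) + z q + 1)) =
        (((z p : ℝ) + 1) * W u (z + ee p)) * ((u q : ℝ) + z q + 1) := by ring
    rw [h6, h1]
    field_simp
  have hsum : ∀ (p q : Fin n), p ≠ q → ∑ y ∈ MM n (d + 1) \ B, G p q y =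
      ∑ z ∈ MM n d, (if z + ee p ∈ B then 0 else W (u + ee p + ee q) z) := by
    intro p q hne
    have h1 := sum_shift d p (fun y => if y ∈ B then 0 else G p q y) (by
      intro b hb
      simp only [G, hb]
      simp)
    have h2 : ∑ y ∈ MM n (d + 1) \ B, G p q y =
        ∑ y ∈ MM n (d + 1), (if y ∈ B then 0 else G p q y) := by
      rw [sdiff_eq_filter, sum_filter]
      apply sum_congr rfl
      intro y _
      split_ifs <;> simp_all
    rw [h2, h1]
    apply sum_congr rfl
    intro z _
    rw [hG p q hne]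
  have h1 : ∑ y ∈ MM n (d + 1) \ B, (W (u + ee p) y - W (u + ee q) y) =
      ∑ z ∈ MM n d, ((if z + ee p ∈ B then 0 else W (u + ee p + ee q) z) -
        (if z + ee q ∈ B then 0 else W (u + ee p + ee q) z)) := by
    rw [sum_congr rfl fun y _ => hdiff y, sum_sub_distrib, hsum p q hne, hsum q p (Ne.symm hne),
      sum_sub_distrib]
    congr 1
    apply sum_congr rfl
    intro z _
    have h2 : u + ee q + ee p = u + ee p + ee q := by abel
    rw [h2]
  have h2 : 0 ≤ ∑ y ∈ MM n (d + 1) \ B, (W (u + ee p) y - W (u + ee q) y) := by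
    rw [h1]
    apply sum_nonneg
    intro z _
    have hw := (W_pos (u + ee p + ee q) z).le
    by_cases h3 : z + ee p ∈ B
    · have h4 : z + ee q ∈ B := hB z p q hpq h3
      rw [if_pos h3, if_pos h4]
      simp
    · rw [if_neg h3]
      split_ifs
      · linarith
      · simp
  rw [sum_sub_distrib] at h2
  linarith

end Pool.Agent.FB.Polya
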