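import Pool.Agent.FB.Defs

/-!
Row sums of the Polya weights, and the action of the two-block Polya operator on the
products of binomial coefficients.
-/

set_option autoImplicit false

namespace Pool.Agent.FB

open Finset

/-- sums over `MM` through finitely supported functions -/
lemma sum_MM_eq {n m : ℕ} {R : Type} [AddCommMonoid R] (f : (Fin n → ℕ) → R) :
    ∑ s ∈ MM n m, f s = ∑ l ∈ finsuppAntidiag (univ : Finset (Fin n)) m, f l := by
  classical
  refine (Finset.sum_bij' (i := fun (l : Fin n →₀ ℕ) _ => (l : Fin n → ℕ))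
    (j := fun s _ => Finsupp.equivFunOnFinite.symm s) ?_ ?_ ?_ ?_ ?_).symm
  · intro l hl
    rw [mem_finsuppAntidiag] at hl
    rw [mem_MM]
    exact hl.1
  · intro s hs
    rw [mem_finsuppAntidiag]
    rw [mem_MM] at hs
    refine ⟨?_, subset_univ _⟩
    simpa using hs
  · intro l _
    ext i
    simp
  · intro s _
    ext i
    simp
  · intro l _
    rfl

/-- `∏ (1 - X)^(-(a i + 1))` -/
lemma prod_invOneSubPow {n : ℕ} (a : Fin n → ℕ) :
    ∏ i, (PowerSeries.invOneSubPow ℤ (a i + 1)).val =
      (PowerSeries.invOneSubPow ℤ (∑ i, a i + n)).val := by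
  classical
  have h : ∀ s : Finset (Fin n), ∏ i ∈ s, (PowerSeries.invOneSubPow ℤ (a i + 1)).val =
      (PowerSeries.invOneSubPow ℤ (∑ i ∈ s, (a i + 1))).val := by
    intro s
    induction s using Finset.induction_on with
    | empty => simp [PowerSeries.invOneSubPow_zero]
    | insert j s hj ih =>
      rw [Finset.prod_insert hj, Finset.sum_insert hj, ih,
        PowerSeries.invOneSubPow_add ℤ (a j + 1) (∑ i ∈ s, (a i + 1)), Units.val_mul]
  rw [h univ, Finset.sum_add_distrib]
  simp

/-- Row sums of the Polya weights. -/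
theorem polya_row {n m : ℕ} (hn : 1 ≤ n) (a : Fin n → ℕ) :
    ∑ s ∈ MM n m, ∏ i, (a i + s i).choose (a i) = (∑ i, a i + m + n - 1).choose m := by
  classical
  have h1 : PowerSeries.coeff m (∏ i, (PowerSeries.invOneSubPow ℤ (a i + 1)).val) =
      ((∑ i, a i + m + n - 1).choose m : ℤ) := by
    rw [prod_invOneSubPow, PowerSeries.invOneSubPow_val_eq_mk_sub_one_add_choose_of_pos _ _
      (by omega), PowerSeries.coeff_mk]
    congr 1
    have h0 : ∑ i, a i + m + n - 1 = (∑ i, a i + n - 1) + m := by omega
    rw [h0]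
    exact Nat.choose_symm_add
  rw [PowerSeries.coeff_prod] at h1
  have h2 : ∑ s ∈ MM n m, ∏ i, ((a i + s i).choose (a i) : ℤ) =
      ((∑ i, a i + m + n - 1).choose m : ℤ) := by
    rw [sum_MM_eq, ← h1]
    refine Finset.sum_congr rfl fun l _ => Finset.prod_congr rfl fun i _ => ?_
    rw [PowerSeries.invOneSubPow_val_succ_eq_mk_add_choose, PowerSeries.coeff_mk]
  exact_mod_cast h2

/-- the basic identity for one letter -/
lemma choose_key (a b k : ℕ) (h : k ≤ b) :
    (a + b).choose a * b.choose k = (a + k).choose k * (a + b).choose (a + k) := by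
  have h1 : (a + b).choose (a + k) * (a + k).choose a =
      (a + b).choose a * (a + b - a).choose (a + k - a) :=
    Nat.choose_mul (Nat.le_add_right a k)
  rw [Nat.add_sub_cancel_left, Nat.add_sub_cancel_left] at h1
  rw [← h1, mul_comm]
  congr 1
  exact Nat.choose_symm_add

/-- The two-block operator applied to a product of binomial coefficients. -/
theorem polya_act {n J k : ℕ} (hn : 1 ≤ n) (hk : k ≤ J) {a c : Fin n → ℕ} (hc : c ∈ MM n k) :
    ∑ b ∈ MM n J, (∏ i, (a i + b i).choose (a i)) * ∏ i, (b i).choose (c i) =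
      (∑ i, a i + J + n - 1).choose (J - k) * ∏ i, (a i + c i).choose (c i) := by
  classical
  rw [mem_MM] at hc
  have h1 : ∑ b ∈ MM n J, (∏ i, (a i + b i).choose (a i)) * ∏ i, (b i).choose (c i) =
      ∑ b ∈ (MM n J).filter (fun b => ∀ i, c i ≤ b i),
        (∏ i, (a i + b i).choose (a i)) * ∏ i, (b i).choose (c i) := by
    rw [Finset.sum_filter_of_ne]
    intro b _ hne i
    by_contra hlt
    apply hne
    rw [Finset.prod_eq_zero (f := fun i => (b i).choose (c i)) (mem_univ i)
      (Nat.choose_eq_zero_of_lt (by omega)), mul_zero]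
  rw [h1]
  have h2 : ∑ b ∈ (MM n J).filter (fun b => ∀ i, c i ≤ b i),
        (∏ i, (a i + b i).choose (a i)) * ∏ i, (b i).choose (c i) =
      ∑ r ∈ MM n (J - k), (∏ i, (a i + c i).choose (c i)) *
        ∏ i, ((a i + c i) + r i).choose (a i + c i) := by
    refine Finset.sum_bij' (i := fun b _ => fun i => b i - c i)
      (j := fun r _ => fun i => c i + r i) ?_ ?_ ?_ ?_ ?_
    · intro b hb
      rw [mem_filter, mem_MM] at hb
      rw [mem_MM]
      have : ∑ i, (b i - c i) + ∑ i, c i = ∑ i, b i := by
        rw [← Finset.sum_add_distrib]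
        exact Finset.sum_congr rfl fun i _ => Nat.sub_add_cancel (hb.2 i)
      omega
    · intro r hr
      rw [mem_MM] at hr
      rw [mem_filter, mem_MM]
      refine ⟨?_, fun i => Nat.le_add_right _ _⟩
      rw [Finset.sum_add_distrib]
      omega
    · intro b hb
      rw [mem_filter] at hb
      funext i
      exact Nat.add_sub_cancel' (hb.2 i)
    · intro r _
      funext i
      exact Nat.add_sub_cancel_left _ _
    · intro b hb
      rw [mem_filter] at hb
      rw [← Finset.prod_mul_distrib, ← Finset.prod_mul_distrib]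
      refine Finset.prod_congr rfl fun i _ => ?_
      have h3 := hb.2 i
      have h4 : a i + c i + (b i - c i) = a i + b i := by omega
      change (a i + b i).choose (a i) * (b i).choose (c i) =
        (a i + c i).choose (c i) * (a i + c i + (b i - c i)).choose (a i + c i)
      rw [choose_key _ _ _ h3, h4]
  rw [h2, ← Finset.mul_sum, polya_row hn (fun i => a i + c i), mul_comm]
  congr 2
  rw [Finset.sum_add_distrib]
  omega

/-- The products `∏ C(a i + c i, c i)` in terms of the products `∏ C(a i, d i)`. -/
theorem prod_vandermonde {n : ℕ} (a c : Fin n → ℕ) :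
    ∏ i, (a i + c i).choose (c i) =
      ∑ d ∈ Fintype.piFinset (fun i => Finset.range (c i + 1)),
        ∏ i, ((a i).choose (d i) * (c i).choose (c i - d i)) := by
  classical
  rw [← Finset.prod_univ_sum (t := fun i => Finset.range (c i + 1))
    (f := fun i d => (a i).choose d * (c i).choose (c i - d))]
  refine Finset.prod_congr rfl fun i _ => ?_
  rw [Nat.add_choose_eq, Finset.Nat.sum_antidiagonal_eq_sum_range_succ_mk]

end Pool.Agent.FB
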